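import Pool.Agent.H74.DD.Fr

set_option autoImplicit false

/-!
# [H74 DD ArA] radial bound of the deformed disk by the fixed point theorem of Banach (helper54)
-/

namespace Pool.Agent.H74.DD

open MeasureTheory Set Filter Topology Pool.Agent.H74.SX

namespace ArA

theorem fixed (g : ℂ → ℂ) (s K G ε t : ℝ) (e : ℂ) (hs : 1 < s) (hK : 0 < K) (hε : 0 < ε)
    (he : ‖e‖ = 1)
    (hLip : ∀ a b : ℂ, ‖a‖ ≤ s → ‖b‖ ≤ s → ‖g a - g b‖ ≤ K * ‖a - b‖)
    (hG : ∀ a : ℂ, ‖a‖ ≤ s → ‖g a - g 0‖ ≤ G)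
    (h1 : ε * K * s ^ 2 ≤ 1 / 2) (h2 : 1 / s ≤ t - ε * G) :
    ∃ w : ℂ, 1 / s ≤ ‖w‖ ∧ w = t * e - ε * (g w⁻¹ - g 0) := by
  have hs0 : 0 < s := by linarith
  have hinv : ∀ w : ℂ, 1 / s ≤ ‖w‖ → ‖w⁻¹‖ ≤ s := by
    intro w hw
    rw [norm_inv]
    have : 0 < 1 / s := by positivity
    have h3 := inv_anti₀ this hw
    simpa using h3
  set T : ℂ → ℂ := fun w => t * e - ε * (g w⁻¹ - g 0) with hT
  set D : Set ℂ := {w | 1 / s ≤ ‖w‖} with hD
  have hDc : IsComplete D := (isClosed_le continuous_const continuous_norm).isComplete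
  have hmap : MapsTo T D D := by
    intro w hw
    show 1 / s ≤ ‖t * e - ε * (g w⁻¹ - g 0)‖
    have h3 : ‖(ε : ℂ) * (g w⁻¹ - g 0)‖ ≤ ε * G := by
      rw [norm_mul, Complex.norm_of_nonneg hε.le]
      exact mul_le_mul_of_nonneg_left (hG _ (hinv w hw)) hε.le
    have h4 : ‖(t : ℂ) * e‖ = |t| := by
      rw [norm_mul, he, mul_one, Complex.norm_real, Real.norm_eq_abs]
    have h5 := norm_sub_norm_le ((t : ℂ) * e) ((ε : ℂ) * (g w⁻¹ - g 0))
    rw [h4] at h5
    have h6 := le_abs_self t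
    linarith
  have hcon : ContractingWith (1 / 2 : NNReal) (hmap.restrict T D D) := by
    refine ⟨by
      rw [← NNReal.coe_lt_coe]
      norm_num, LipschitzWith.of_dist_le_mul ?_⟩
    rintro ⟨x, hx⟩ ⟨y, hy⟩
    rw [Subtype.dist_eq, Subtype.dist_eq]
    show dist (T x) (T y) ≤ ((1 / 2 : NNReal) : ℝ) * dist x y
    rw [dist_eq_norm, dist_eq_norm]
    have hx' : 1 / s ≤ ‖x‖ := hx
    have hy' : 1 / s ≤ ‖y‖ := hy
    have hx0 : x ≠ 0 := by
      rintro rfl
      rw [norm_zero] at hx'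
      have : 0 < 1 / s := by positivity
      linarith
    have hy0 : y ≠ 0 := by
      rintro rfl
      rw [norm_zero] at hy'
      have : 0 < 1 / s := by positivity
      linarith
    have e1 : T x - T y = ε * (g y⁻¹ - g x⁻¹) := by
      simp only [hT]
      ring
    have e2 : y⁻¹ - x⁻¹ = y⁻¹ * x⁻¹ * (x - y) := by
      field_simp
    have h3 : ‖y⁻¹ - x⁻¹‖ ≤ s * s * ‖x - y‖ := by
      rw [e2, norm_mul, norm_mul]
      gcongr
      · exact hinv y hy'
      · exact hinv x hx'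
    rw [e1, norm_mul, Complex.norm_of_nonneg hε.le]
    have h4 := hLip y⁻¹ x⁻¹ (hinv y hy') (hinv x hx')
    have hc : ((1 / 2 : NNReal) : ℝ) = 1 / 2 := by norm_num
    rw [hc]
    calc ε * ‖g y⁻¹ - g x⁻¹‖ ≤ ε * (K * (s * s * ‖x - y‖)) := by
          gcongr
          exact h4.trans (by gcongr)
      _ = (ε * K * s ^ 2) * ‖x - y‖ := by ring
      _ ≤ 1 / 2 * ‖x - y‖ := by gcongr
  have hmem : e ∈ D := by
    show 1 / s ≤ ‖e‖
    rw [he, div_le_one hs0]
    exact hs.le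
  obtain ⟨w, hw, hfix, -⟩ := ContractingWith.exists_fixedPoint' hDc hmap hcon hmem
    (edist_ne_top _ _)
  exact ⟨w, hw, hfix.symm⟩

end ArA

theorem arA : ArAStmt := by
  intro g ρ hg
  obtain ⟨h1, hd⟩ := hg
  obtain ⟨s, hs1, hsρ⟩ := exists_between h1
  have hs0 : 0 < s := by linarith
  have hsub : Metric.closedBall (0 : ℂ) s ⊆ Metric.ball 0 ρ := Metric.closedBall_subset_ball hsρ
  obtain ⟨K0, hK0⟩ := (isCompact_closedBall (0 : ℂ) s).exists_bound_of_continuousOn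
    (((hd.deriv Metric.isOpen_ball).continuousOn).mono hsub)
  obtain ⟨K, hK, hK1⟩ : ∃ K : ℝ, 0 < K ∧ K0 ≤ K :=
    ⟨|K0| + 1, by positivity, (le_abs_self _).trans (by linarith)⟩
  have hLip : ∀ a b : ℂ, ‖a‖ ≤ s → ‖b‖ ≤ s → ‖g a - g b‖ ≤ K * ‖a - b‖ := by
    intro a b ha hb
    refine (convex_closedBall (0 : ℂ) s).norm_image_sub_le_of_norm_deriv_le (f := g)
      (fun x hx => ?_) (fun x hx => (hK0 x hx).trans hK1) ?_ ?_
    · exact hd.differentiableAt (Metric.isOpen_ball.mem_nhds (hsub hx))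
    · simpa using hb
    · simpa using ha
  have hG : ∀ a : ℂ, ‖a‖ ≤ s → ‖g a - g 0‖ ≤ K * s := by
    intro a ha
    refine (hLip a 0 ha (by simpa using hs0.le)).trans ?_
    rw [sub_zero]
    gcongr
  have hG0 : 0 < K * s := by positivity
  have hs2 : 0 < 1 - 1 / s := by
    rw [sub_pos, div_lt_one hs0]
    exact hs1
  refine ⟨2 * K * s * (K * s) + 1, min (1 / (2 * (K * s ^ 2))) ((1 - 1 / s) / (2 * (K * s))),
    by positivity, by positivity, ?_⟩
  intro ε hε hlt φ t ht hin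
  have hε1 : ε < 1 / (2 * (K * s ^ 2)) := hlt.trans_le (min_le_left _ _)
  have hε2 : ε < (1 - 1 / s) / (2 * (K * s)) := hlt.trans_le (min_le_right _ _)
  rw [lt_div_iff₀ (by positivity)] at hε1 hε2
  by_contra hc
  push Not at hc
  apply hin
  obtain ⟨e, he⟩ : ∃ e : ℂ, e = Complex.exp (φ * Complex.I) := ⟨_, rfl⟩
  have hen : ‖e‖ = 1 := by rw [he, Complex.norm_exp_ofReal_mul_I]
  have hem : em φ = e⁻¹ := by rw [he, em, Complex.exp_neg]
  have hein : ‖e⁻¹‖ = 1 := by rw [norm_inv, hen, inv_one]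
  have he0 : e ≠ 0 := by
    rw [he]
    exact Complex.exp_ne_zero _
  rw [hem] at hc
  obtain ⟨q, hq⟩ : ∃ q : ℝ, q = (e⁻¹ * (g e⁻¹ - g 0)).re := ⟨_, rfl⟩
  rw [← hq] at hc
  have hqG : |q| ≤ K * s := by
    rw [hq]
    refine (Complex.abs_re_le_norm _).trans ?_
    rw [norm_mul, hein, one_mul]
    exact hG _ (by rw [hein]; exact hs1.le)
  have hq1 := neg_abs_le q
  have hC : 0 ≤ (2 * K * s * (K * s) + 1) * ε ^ 2 := by positivity
  have ht1 : 1 - ε * (K * s) ≤ t := by nlinarith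
  obtain ⟨w, hws, hw⟩ := ArA.fixed g s K (K * s) ε t e hs1 hK hε hen hLip hG (by linarith)
    (by linarith)
  have hwi : ‖w⁻¹‖ ≤ s := by
    rw [norm_inv]
    have : 0 < 1 / s := by positivity
    have h3 := inv_anti₀ this hws
    simpa using h3
  have hw0 : w ≠ 0 := by
    rintro rfl
    rw [norm_zero] at hws
    have : 0 < 1 / s := by positivity
    linarith
  refine ⟨w, ?_, ?_⟩
  · show 1 ≤ ‖w‖
    -- the real part of `e⁻¹ w`
    have hre : t - ε * (e⁻¹ * (g w⁻¹ - g 0)).re ≤ ‖w‖ := by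
      have h3 : (e⁻¹ * w).re ≤ ‖w‖ := by
        refine (Complex.re_le_norm _).trans ?_
        rw [norm_mul, hein, one_mul]
      have h4 : e⁻¹ * w = t - ε * (e⁻¹ * (g w⁻¹ - g 0)) := by
        conv_lhs => rw [hw]
        field_simp
      rw [h4, Complex.sub_re, Complex.ofReal_re, Complex.re_ofReal_mul] at h3
      exact h3
    by_cases hbig : 1 + ε * (K * s) ≤ t
    · have h5 : (e⁻¹ * (g w⁻¹ - g 0)).re ≤ K * s := by
        refine (Complex.re_le_norm _).trans ?_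
        rw [norm_mul, hein, one_mul]
        exact hG _ hwi
      have h6 : ε * (e⁻¹ * (g w⁻¹ - g 0)).re ≤ ε * (K * s) := by gcongr
      linarith
    · push Not at hbig
      have h7 : ‖w - e‖ ≤ 2 * (ε * (K * s)) := by
        have e1 : w - e = ((t - 1 : ℝ) : ℂ) * e - ε * (g w⁻¹ - g 0) := by
          conv_lhs => rw [hw]
          push_cast
          ring
        rw [e1]
        refine (norm_sub_le _ _).trans ?_
        rw [norm_mul, hen, mul_one, Complex.norm_real, Real.norm_eq_abs, norm_mul,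
          Complex.norm_of_nonneg hε.le]
        have h8 : |t - 1| ≤ ε * (K * s) := by
          rw [abs_le]
          constructor <;> linarith
        have h9 : ε * ‖g w⁻¹ - g 0‖ ≤ ε * (K * s) :=
          mul_le_mul_of_nonneg_left (hG _ hwi) hε.le
        linarith
      have h10 : ‖w⁻¹ - e⁻¹‖ ≤ s * (2 * (ε * (K * s))) := by
        have e2 : w⁻¹ - e⁻¹ = w⁻¹ * e⁻¹ * (e - w) := by
          field_simp
        rw [e2, norm_mul, norm_mul, hein, mul_one, norm_sub_rev e w]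
        gcongr
      have h11 : ‖g w⁻¹ - g e⁻¹‖ ≤ K * (s * (2 * (ε * (K * s)))) :=
        (hLip _ _ hwi (by rw [hein]; exact hs1.le)).trans (by gcongr)
      have h12 : (e⁻¹ * (g w⁻¹ - g 0)).re ≤ q + K * (s * (2 * (ε * (K * s)))) := by
        have e3 : e⁻¹ * (g w⁻¹ - g 0) = e⁻¹ * (g e⁻¹ - g 0) + e⁻¹ * (g w⁻¹ - g e⁻¹) := by ring
        rw [e3, Complex.add_re, ← hq]
        have h13 : (e⁻¹ * (g w⁻¹ - g e⁻¹)).re ≤ ‖g w⁻¹ - g e⁻¹‖ := by
          refine (Complex.re_le_norm _).trans ?_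
          rw [norm_mul, hein, one_mul]
        linarith
      have h14 : ε * (e⁻¹ * (g w⁻¹ - g 0)).re ≤ ε * (q + K * (s * (2 * (ε * (K * s))))) := by
        gcongr
      nlinarith
  · show w + ε * g w⁻¹ = ε * g 0 + t * Complex.exp (φ * Complex.I)
    rw [← he]
    have h15 : w + ε * (g w⁻¹ - g 0) = t * e := by
      conv_lhs => enter [1]; rw [hw]
      ring
    linear_combination h15

end Pool.Agent.H74.DD
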