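import Pool.Agent.H74.DD.Fr

set_option autoImplicit false

/-!
# [H74 DD ArB] MP_bddfa3_an: the area of a small deformation of the disk (helper24)
-/

namespace Pool.Agent.H74.DD.ArB

open MeasureTheory Set Filter Topology Pool.Agent.H74.SX Pool.Agent.H74.DD

theorem inner_le (c : ℝ) :
    ∫⁻ x in Iio c ∩ Ioi (0 : ℝ), ENNReal.ofReal x ≤ ENNReal.ofReal (c ^ 2 / 2) := by
  rcases le_or_gt c 0 with hc | hc
  · have h1 : Iio c ∩ Ioi (0 : ℝ) = ∅ := by
      ext x
      simp only [mem_inter_iff, mem_Iio, mem_Ioi, mem_empty_iff_false, iff_false, not_and, not_lt]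
      intro hx
      linarith
    rw [h1]
    simp
  · have h1 : Iio c ∩ Ioi (0 : ℝ) = Ioo 0 c := by
      ext x
      simp only [mem_inter_iff, mem_Iio, mem_Ioi, mem_Ioo]
      exact and_comm
    rw [h1]
    have hi : Integrable (fun x : ℝ => x) (volume.restrict (Ioo 0 c)) :=
      (continuous_id.integrableOn_Icc (μ := volume) (a := (0 : ℝ)) (b := c)).mono_set Ioo_subset_Icc_self
    have hn : 0 ≤ᵐ[volume.restrict (Ioo 0 c)] fun x : ℝ => x := by
      refine (ae_restrict_iff' measurableSet_Ioo).2 (Eventually.of_forall fun x hx => ?_)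
      exact hx.1.le
    rw [← ofReal_integral_eq_lintegral_ofReal hi hn, ← integral_Ioc_eq_integral_Ioo,
      ← intervalIntegral.integral_of_le hc.le, integral_id]
    simp

theorem vol_le (T : Set ℂ) (f : ℝ → ℝ) (hf : Continuous f) (hT : ∀ z ∈ T, ‖z‖ < f (Complex.arg z)) :
    volume T ≤ ENNReal.ofReal (∫ θ in (-Real.pi)..Real.pi, f θ ^ 2 / 2) := by
  have hSm : MeasurableSet {z : ℂ | ‖z‖ < f (Complex.arg z)} :=
    measurableSet_lt measurable_norm (hf.measurable.comp Complex.measurable_arg)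
  have hPm : MeasurableSet {p : ℝ × ℝ | p.1 < f p.2} :=
    measurableSet_lt measurable_fst (hf.measurable.comp measurable_snd)
  refine (measure_mono (t := {z : ℂ | ‖z‖ < f (Complex.arg z)}) hT).trans ?_
  rw [← lintegral_indicator_one hSm, ← Complex.lintegral_comp_polarCoord_symm]
  have h1 : ∫⁻ p in polarCoord.target, ENNReal.ofReal p.1 •
        ({z : ℂ | ‖z‖ < f (Complex.arg z)}.indicator 1 : ℂ → ENNReal) (Complex.polarCoord.symm p) =
      ∫⁻ p in Ioi (0 : ℝ) ×ˢ Ioo (-Real.pi) Real.pi,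
        {p : ℝ × ℝ | p.1 < f p.2}.indicator (fun p => ENNReal.ofReal p.1) p := by
    refine setLIntegral_congr_fun (measurableSet_Ioi.prod measurableSet_Ioo) fun p hp => ?_
    have hp1 : 0 < p.1 := hp.1
    have hnorm : ‖Complex.polarCoord.symm p‖ = p.1 := by
      rw [Complex.norm_polarCoord_symm, abs_of_pos hp1]
    have harg : Complex.arg (Complex.polarCoord.symm p) = p.2 := by
      rw [Complex.polarCoord_symm_apply, Complex.ofReal_cos, Complex.ofReal_sin]
      exact Complex.arg_mul_cos_add_sin_mul_I hp1 (Ioo_subset_Ioc_self hp.2)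
    by_cases h : p.1 < f p.2
    · have h2 : Complex.polarCoord.symm p ∈ {z : ℂ | ‖z‖ < f (Complex.arg z)} := by
        rw [mem_ofPred_eq, hnorm, harg]
        exact h
      rw [indicator_of_mem h2, indicator_of_mem (show p ∈ {p : ℝ × ℝ | p.1 < f p.2} from h)]
      simp
    · have h2 : Complex.polarCoord.symm p ∉ {z : ℂ | ‖z‖ < f (Complex.arg z)} := by
        rw [mem_ofPred_eq, hnorm, harg]
        exact h
      rw [indicator_of_notMem h2, indicator_of_notMem (show p ∉ {p : ℝ × ℝ | p.1 < f p.2} from h)]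
      simp
  rw [h1, Measure.volume_eq_prod, ← Measure.prod_restrict]
  have hFm : Measurable ({p : ℝ × ℝ | p.1 < f p.2}.indicator fun p => ENNReal.ofReal p.1) :=
    (ENNReal.measurable_ofReal.comp measurable_fst).indicator hPm
  rw [lintegral_prod_symm' _ hFm]
  have hle : ∀ y : ℝ, ∫⁻ x in Ioi (0 : ℝ), {p : ℝ × ℝ | p.1 < f p.2}.indicator (fun p => ENNReal.ofReal p.1) (x, y) ≤
      ENNReal.ofReal (f y ^ 2 / 2) := by
    intro y
    have e : ∀ x : ℝ, {p : ℝ × ℝ | p.1 < f p.2}.indicator (fun p => ENNReal.ofReal p.1) (x, y) =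
        (Iio (f y)).indicator (fun x => ENNReal.ofReal x) x := by
      intro x
      by_cases h : x < f y
      · rw [indicator_of_mem (show (x, y) ∈ {p : ℝ × ℝ | p.1 < f p.2} from h), indicator_of_mem (show x ∈ Iio (f y) from h)]
      · rw [indicator_of_notMem (show (x, y) ∉ {p : ℝ × ℝ | p.1 < f p.2} from h),
          indicator_of_notMem (show x ∉ Iio (f y) from h)]
    simp only [e]
    rw [lintegral_indicator measurableSet_Iio, Measure.restrict_restrict measurableSet_Iio]
    exact inner_le (f y)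
  refine (lintegral_mono hle).trans ?_
  have hcont : Continuous fun θ => f θ ^ 2 / 2 := (hf.pow 2).div_const 2
  have hi : Integrable (fun θ => f θ ^ 2 / 2) (volume.restrict (Ioo (-Real.pi) Real.pi)) :=
    hcont.integrableOn_Icc.mono_set Ioo_subset_Icc_self
  rw [← ofReal_integral_eq_lintegral_ofReal hi (Eventually.of_forall fun θ => by positivity),
    ← integral_Ioc_eq_integral_Ioo, ← intervalIntegral.integral_of_le (by linarith [Real.pi_pos])]

theorem em_cont : Continuous em := by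
  unfold em
  fun_prop

theorem em_norm (θ : ℝ) : ‖em θ‖ = 1 := by
  unfold em
  have h : -((θ : ℂ) * Complex.I) = ((-θ : ℝ) : ℂ) * Complex.I := by
    push_cast
    ring
  rw [h, Complex.norm_exp_ofReal_mul_I]

theorem em_per (θ : ℝ) : em (θ + 2 * Real.pi) = em θ := by
  unfold em
  have h : -(((θ + 2 * Real.pi : ℝ) : ℂ) * Complex.I) = -((θ : ℂ) * Complex.I) - 2 * Real.pi * Complex.I := by
    push_cast
    ring
  rw [h]
  exact Complex.exp_periodic.sub_eq _

theorem int_zero (hMv : MvStmt) (g : ℂ → ℂ) (ρ : ℝ) (hg : Good g ρ) :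
    ∫ θ in (-Real.pi)..Real.pi, (em θ * (g (em θ) - g 0)).re = 0 := by
  have hgc : Continuous fun θ => g (em θ) :=
    hg.hol.continuousOn.comp_continuous em_cont fun θ => mem_ball_zero_iff.2 (by rw [em_norm]; exact hg.one_lt)
  have hGc : Continuous fun θ => em θ * (g (em θ) - g 0) := em_cont.mul (hgc.sub continuous_const)
  have hper : Function.Periodic (fun θ => (em θ * (g (em θ) - g 0)).re) (2 * Real.pi) := by
    intro θ
    simp only [em_per]
  have h1 := hper.intervalIntegral_add_eq (-Real.pi) 0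
  have h2 : -Real.pi + 2 * Real.pi = Real.pi := by ring
  rw [h2, zero_add] at h1
  rw [h1]
  have hG : Good (fun z => z * (g z - g 0)) ρ :=
    ⟨hg.one_lt, differentiableOn_id.mul (hg.hol.sub (differentiableOn_const _))⟩
  have h3 := hMv _ ρ hG
  have h4 := Complex.reCLM.intervalIntegral_comp_comm (hGc.intervalIntegrable (μ := volume) 0 (2 * Real.pi))
  have h5 : ∫ θ in (0 : ℝ)..(2 * Real.pi), (em θ * (g (em θ) - g 0)).re =
      (∫ θ in (0 : ℝ)..(2 * Real.pi), em θ * (g (em θ) - g 0)).re := h4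
  rw [h5]
  have h6 : ∫ θ in (0 : ℝ)..(2 * Real.pi), em θ * (g (em θ) - g 0) = 0 := by
    refine h3.trans ?_
    simp
  rw [h6]
  simp

end Pool.Agent.H74.DD.ArB

namespace Pool.Agent.H74.DD

open MeasureTheory Set Filter Topology Pool.Agent.H74.SX

theorem ar (hA : ArAStmt) (hMv : MvStmt) : ArStmt := by
  intro g ρ hg
  obtain ⟨C, ε₀, hC, hε₀, h⟩ := hA g ρ hg
  have hgc : Continuous fun θ => g (em θ) :=
    hg.hol.continuousOn.comp_continuous ArB.em_cont fun θ =>
      mem_ball_zero_iff.2 (by rw [ArB.em_norm]; exact hg.one_lt)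
  have hqc : Continuous fun θ => (em θ * (g (em θ) - g 0)).re :=
    Complex.continuous_re.comp (ArB.em_cont.mul (hgc.sub continuous_const))
  obtain ⟨M, hM⟩ := (isCompact_Icc (a := -Real.pi) (b := Real.pi)).exists_bound_of_continuousOn hqc.continuousOn
  have hM0 : 0 ≤ M := (norm_nonneg _).trans (hM 0 ⟨by linarith [Real.pi_pos], Real.pi_pos.le⟩)
  refine ⟨2 * Real.pi * C + Real.pi * (M + C) ^ 2, min ε₀ 1, by positivity, lt_min hε₀ one_pos, fun ε hε hlt => ?_⟩
  have hε1 : ε ≤ 1 := (hlt.trans_le (min_le_right _ _)).le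
  have hεε : ε < ε₀ := hlt.trans_le (min_le_left _ _)
  set q : ℝ → ℝ := fun θ => (em θ * (g (em θ) - g 0)).re with hq
  have hfc : Continuous fun θ => 1 + ε * q θ + C * ε ^ 2 :=
    (continuous_const.add (continuous_const.mul hqc)).add continuous_const
  have hv := ArB.vol_le ((fun z => (ε : ℂ) * g 0 + z) ⁻¹' Inn (psi g ε)) (fun θ => 1 + ε * q θ + C * ε ^ 2) hfc
    (fun z hz => h ε hε hεε (Complex.arg z) ‖z‖ (norm_nonneg z) (by
      rw [Complex.norm_mul_exp_arg_mul_I]
      exact hz))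
  rw [measure_preimage_add] at hv
  have hpp : -Real.pi ≤ Real.pi := by linarith [Real.pi_pos]
  have hnn : 0 ≤ ∫ θ in (-Real.pi)..Real.pi, (1 + ε * q θ + C * ε ^ 2) ^ 2 / 2 :=
    intervalIntegral.integral_nonneg hpp fun θ _ => by positivity
  have h1 : volume.real (Inn (psi g ε)) ≤ ∫ θ in (-Real.pi)..Real.pi, (1 + ε * q θ + C * ε ^ 2) ^ 2 / 2 :=
    ENNReal.toReal_le_of_le_ofReal hnn hv
  refine h1.trans ?_
  have h2 : ∫ θ in (-Real.pi)..Real.pi, (1 + ε * q θ + C * ε ^ 2) ^ 2 / 2 ≤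
      ∫ θ in (-Real.pi)..Real.pi, ((1 / 2 + C * ε ^ 2 + ε ^ 2 * (M + C) ^ 2 / 2) + ε * q θ) := by
    refine intervalIntegral.integral_mono_on hpp
      (((hfc.pow 2).div_const 2).intervalIntegrable _ _)
      ((continuous_const.add (continuous_const.mul hqc)).intervalIntegrable _ _) fun θ hθ => ?_
    have h3 : |q θ| ≤ M := hM θ hθ
    have h4 : |ε * q θ + C * ε ^ 2| ≤ ε * (M + C) := by
      refine (abs_add_le _ _).trans ?_
      rw [abs_mul, abs_of_pos hε, abs_of_pos (by positivity : 0 < C * ε ^ 2)]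
      have h5 : ε * |q θ| ≤ ε * M := mul_le_mul_of_nonneg_left h3 hε.le
      have h6 : C * ε ^ 2 ≤ C * ε := by
        refine mul_le_mul_of_nonneg_left ?_ hC.le
        rw [sq]
        exact mul_le_of_le_one_left hε.le hε1
      linarith
    have h7 : (ε * q θ + C * ε ^ 2) ^ 2 ≤ (ε * (M + C)) ^ 2 := by
      rw [← sq_abs (ε * q θ + C * ε ^ 2)]
      exact pow_le_pow_left₀ (abs_nonneg _) h4 2
    nlinarith [h7]
  refine h2.trans ?_
  have h8 : ∫ θ in (-Real.pi)..Real.pi, ((1 / 2 + C * ε ^ 2 + ε ^ 2 * (M + C) ^ 2 / 2) + ε * q θ) =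
      (∫ _ in (-Real.pi)..Real.pi, (1 / 2 + C * ε ^ 2 + ε ^ 2 * (M + C) ^ 2 / 2 : ℝ)) +
        ∫ θ in (-Real.pi)..Real.pi, ε * q θ :=
    intervalIntegral.integral_add (f := fun _ => (1 / 2 + C * ε ^ 2 + ε ^ 2 * (M + C) ^ 2 / 2 : ℝ))
      (g := fun θ => ε * q θ) (continuous_const.intervalIntegrable _ _)
      ((continuous_const.mul hqc : Continuous fun θ => ε * q θ).intervalIntegrable _ _)
  have h9 : ∫ θ in (-Real.pi)..Real.pi, ε * q θ = 0 := by
    rw [intervalIntegral.integral_const_mul, hq, ArB.int_zero hMv g ρ hg, mul_zero]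
  rw [h8, h9, intervalIntegral.integral_const, smul_eq_mul]
  ring_nf
  exact le_refl _

end Pool.Agent.H74.DD
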