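import Pool.Agent.H74.DD.Fr

set_option autoImplicit false

/-!
# [H74 DD Asm] assembly from the statements (helper74)
-/

namespace Pool.Agent.H74.DD

open MeasureTheory Set Filter Topology Pool.Agent.H74.SX

theorem exists_dir (c : ℂ) : ∃ ζ : ℂ, ‖ζ‖ = 1 ∧ ((starRingEnd ℂ) ζ ^ 2 * c).re = ‖c‖ := by
  refine ⟨Complex.exp ((c.arg / 2 : ℝ) * Complex.I), Complex.norm_exp_ofReal_mul_I _, ?_⟩
  have h1 : (starRingEnd ℂ) (Complex.exp ((c.arg / 2 : ℝ) * Complex.I)) ^ 2 = Complex.exp (-(c.arg * Complex.I)) := by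
    rw [← Complex.exp_conj, ← Complex.exp_nat_mul]
    congr 1
    simp only [map_mul, Complex.conj_ofReal, Complex.conj_I]
    push_cast
    ring
  rw [h1]
  conv_lhs => rw [← Complex.norm_mul_exp_arg_mul_I c]
  have h2 : Complex.exp (-(c.arg * Complex.I)) * (‖c‖ * Complex.exp (c.arg * Complex.I)) = (‖c‖ : ℂ) := by
    rw [mul_left_comm, ← Complex.exp_add]
    simp
  have h3 : Complex.exp (-(((‖c‖ : ℂ) * Complex.exp (c.arg * Complex.I)).arg * Complex.I)) *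
      (‖c‖ * Complex.exp (c.arg * Complex.I)) = (‖c‖ : ℂ) := by
    rw [Complex.norm_mul_exp_arg_mul_I c]
    rw [Complex.norm_mul_exp_arg_mul_I c] at h2
    exact h2
  rw [h3]
  simp

theorem quot_lt {v D K a C₁ C₂ C₃ ε : ℝ} (ha : 0 < a) (h1 : 0 < C₁) (h2 : 0 < C₂) (h3 : 0 < C₃) (hε : 0 < ε)
    (hε1 : ε ≤ 1) (hε2 : ε < Real.pi * a / (Real.pi * C₃ + C₁ * (1 + a / 2 + C₃) + C₂))
    (hv : v ≤ Real.pi + C₁ * ε ^ 2) (hK : K = 1 + ε * (a / 2) + C₃ * ε ^ 2)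
    (hD : Real.pi + ε * (3 / 2 * Real.pi * a) - C₂ * ε ^ 2 ≤ D) : 0 < K ∧ 0 < D ∧ v / D < 1 / K := by
  have hpi := Real.pi_pos
  have hK0 : 0 < K := by rw [hK]; positivity
  have hB : 0 < Real.pi * C₃ + C₁ * (1 + a / 2 + C₃) + C₂ := by positivity
  have hs : ε * (Real.pi * C₃ + C₁ * (1 + a / 2 + C₃) + C₂) < Real.pi * a := by
    rwa [lt_div_iff₀ hB] at hε2
  have hs2 : ε * (ε * (Real.pi * C₃ + C₁ * (1 + a / 2 + C₃) + C₂)) < ε * (Real.pi * a) := mul_lt_mul_of_pos_left hs hε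
  have hC2 : ε * (ε * C₂) ≤ ε * (ε * (Real.pi * C₃ + C₁ * (1 + a / 2 + C₃) + C₂)) := by
    have : 0 ≤ Real.pi * C₃ + C₁ * (1 + a / 2 + C₃) := by positivity
    gcongr
    linarith
  have hD0 : 0 < D := by nlinarith [mul_pos hε (mul_pos hpi ha)]
  refine ⟨hK0, hD0, ?_⟩
  rw [div_lt_div_iff₀ hD0 hK0, one_mul]
  have hle : K ≤ 1 + a / 2 + C₃ := by
    have e1 : ε * (a / 2) ≤ 1 * (a / 2) := by gcongr
    have e2 : C₃ * ε ^ 2 ≤ C₃ * 1 := by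
      gcongr
      nlinarith
    rw [hK]; linarith
  calc v * K ≤ (Real.pi + C₁ * ε ^ 2) * K := by gcongr
    _ = Real.pi * K + C₁ * ε ^ 2 * K := by ring
    _ ≤ Real.pi * K + C₁ * ε ^ 2 * (1 + a / 2 + C₃) := by gcongr
    _ < Real.pi + ε * (3 / 2 * Real.pi * a) - C₂ * ε ^ 2 := by rw [hK]; nlinarith [hs2]
    _ ≤ D := hD

theorem main (hch : ChStmt) (har : ArStmt) (hup : UpStmt) (hcfi : CfiLStmt) (hlow : Low2Stmt) (hcfe : CfeKStmt)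
    {g : ℂ → ℂ} {ρ : ℝ} (hg : Good g ρ) (h0 : deriv g 0 ≠ 0) :
    ∃ ε₀ : ℝ, 0 < ε₀ ∧ ∀ ε : ℝ, 0 < ε → ε < ε₀ → Chart (psi g ε) ∧
      minmax (psi g ε) (Inn (psi g ε)) (fun u => ContDiff ℝ 1 u) 2 <
        minmax (psi g ε) (Ext (psi g ε)) (ExtAdm (psi g ε)) 2 := by
  obtain ⟨ζ, hζ, hζc⟩ := exists_dir (deriv g 0)
  have ha : 0 < ‖deriv g 0‖ := norm_pos_iff.2 h0
  obtain ⟨e1, he1, H1⟩ := hch g ρ hg
  obtain ⟨C1, e2, hC1, he2, H2⟩ := har g ρ hg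
  obtain ⟨C2, e3, hC2, he3, H3⟩ := hup g ρ hg ζ hζ
  obtain ⟨C3, e4, hC3, he4, H4⟩ := hlow g ρ hg
  have hpi := Real.pi_pos
  have hB : 0 < Real.pi * ‖deriv g 0‖ / (Real.pi * C3 + C1 * (1 + ‖deriv g 0‖ / 2 + C3) + C2) := by positivity
  refine ⟨min (min e1 e2) (min (min e3 e4) (min 1 (Real.pi * ‖deriv g 0‖ / (Real.pi * C3 + C1 * (1 + ‖deriv g 0‖ / 2 + C3) + C2)))),
    by simp only [lt_min_iff]; exact ⟨⟨he1, he2⟩, ⟨he3, he4⟩, one_pos, hB⟩, fun ε hε hlt => ?_⟩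
  simp only [lt_min_iff] at hlt
  obtain ⟨⟨l1, l2⟩, ⟨l3, l4⟩, l5, l6⟩ := hlt
  have hc := H1 ε hε l1
  refine ⟨hc, ?_⟩
  obtain ⟨D, hD⟩ : ∃ D, D = bd (psi g ε) (fun z => (Lin ζ z - bd (psi g ε) (Lin ζ) / bd (psi g ε) (fun _ => 1)) ^ 2) := ⟨_, rfl⟩
  have h3 := H3 ε hε l3
  rw [← hD, hζc] at h3
  obtain ⟨hK0, hD0, hq⟩ := quot_lt ha hC1 hC2 hC3 hε l5.le l6 (H2 ε hε l2) rfl h3
  refine lt_of_le_of_lt (hcfi _ hc ζ hζ D hD0 hD) (lt_of_lt_of_le (EReal.coe_lt_coe_iff.2 hq) ?_)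
  exact hcfe _ hc _ hK0 (fun u hu hb => H4 ε hε l4 hc u hu hb)

end Pool.Agent.H74.DD
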