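import Pool.Agent.H74.DD.Asm

set_option autoImplicit false

/-!
# [H74 DD AsmQ] assembly, with the first order terms (helper74)
-/

namespace Pool.Agent.H74.DD

open MeasureTheory Set Filter Topology Pool.Agent.H74.SX

theorem quot_bd {v D K a C₁ C₂ C₃ ε : ℝ} (ha : 0 ≤ a) (h1 : 0 < C₁) (h2 : 0 < C₂) (h3 : 0 < C₃) (hε : 0 < ε)
    (hε1 : ε < 1) (hε2 : ε < 1 / (C₂ + 1)) (hε3 : ε < 1 / (2 * a + 1))
    (hv : v ≤ Real.pi + C₁ * ε ^ 2) (hK : K = 1 + ε * (a / 2) + C₃ * ε ^ 2)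
    (hD : Real.pi + ε * (3 / 2 * Real.pi * a) - C₂ * ε ^ 2 ≤ D) : 0 < K ∧ 0 < D ∧
      v / D ≤ 1 - 3 / 2 * a * ε + (C₁ + C₂ + 9 / 4 * Real.pi * a ^ 2 + C₃) * ε ^ 2 ∧
      1 - 1 / 2 * a * ε - (C₁ + C₂ + 9 / 4 * Real.pi * a ^ 2 + C₃) * ε ^ 2 ≤ 1 / K := by
  have hpi := Real.pi_pos
  have hpi3 := Real.pi_gt_three
  have hK0 : 0 < K := by rw [hK]; positivity
  have hs1 : ε * (C₂ + 1) < 1 := by rwa [lt_div_iff₀ (by positivity)] at hε2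
  have hs2 : ε * (2 * a + 1) < 1 := by rwa [lt_div_iff₀ (by positivity)] at hε3
  have hεε : ε ^ 2 ≤ ε := by nlinarith
  have hC2 : C₂ * ε ^ 2 ≤ 1 := by
    have : C₂ * ε ^ 2 ≤ C₂ * ε := by gcongr
    nlinarith
  have hs0 : 0 ≤ a * ε := by positivity
  have hs3 : 3 / 2 * (a * ε) ≤ 1 := by nlinarith
  obtain ⟨s, hs⟩ : ∃ s, s = 3 / 2 * (a * ε) := ⟨_, rfl⟩
  rw [← hs] at hs3
  have hs4 : 0 ≤ s := by rw [hs]; positivity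
  obtain ⟨D₀, hD₀⟩ : ∃ D₀, D₀ = Real.pi * (1 + s) - C₂ * ε ^ 2 := ⟨_, rfl⟩
  have hDD : D₀ ≤ D := by
    refine le_trans (le_of_eq ?_) hD
    rw [hD₀, hs]; ring
  have hD1 : 1 ≤ D₀ := by
    rw [hD₀]
    nlinarith [mul_nonneg hpi.le hs4]
  have hD0 : 0 < D := by linarith
  have hCpos : 0 < C₁ + C₂ + 9 / 4 * Real.pi * a ^ 2 + C₃ := by positivity
  obtain ⟨C, hC⟩ : ∃ C, C = C₁ + C₂ + 9 / 4 * Real.pi * a ^ 2 + C₃ := ⟨_, rfl⟩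
  rw [← hC] at hCpos ⊢
  have hε2' : 0 < ε ^ 2 := by positivity
  refine ⟨hK0, hD0, ?_, ?_⟩
  · have e0 : 1 - 3 / 2 * a * ε + C * ε ^ 2 = 1 - s + C * ε ^ 2 := by rw [hs]; ring
    rw [e0, div_le_iff₀ hD0]
    have hf0 : 0 ≤ 1 - s + C * ε ^ 2 := by linarith [mul_pos hCpos hε2']
    have hs5 : Real.pi * s ^ 2 = 9 / 4 * Real.pi * a ^ 2 * ε ^ 2 := by rw [hs]; ring
    calc v ≤ Real.pi + C₁ * ε ^ 2 := hv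
      _ ≤ Real.pi - Real.pi * s ^ 2 - C₂ * ε ^ 2 + C * ε ^ 2 := by
        rw [hs5, hC]
        have hp := mul_pos h3 hε2'
        have hexp : (C₁ + C₂ + 9 / 4 * Real.pi * a ^ 2 + C₃) * ε ^ 2 =
            C₁ * ε ^ 2 + C₂ * ε ^ 2 + 9 / 4 * Real.pi * a ^ 2 * ε ^ 2 + C₃ * ε ^ 2 := by ring
        rw [hexp]
        linarith
      _ ≤ Real.pi - Real.pi * s ^ 2 - C₂ * ε ^ 2 * (1 - s) + C * ε ^ 2 * D₀ := by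
        have e1 : C₂ * ε ^ 2 * (1 - s) ≤ C₂ * ε ^ 2 :=
          mul_le_of_le_one_right (mul_pos h2 hε2').le (by linarith)
        have e2 : C * ε ^ 2 ≤ C * ε ^ 2 * D₀ := le_mul_of_one_le_right (mul_pos hCpos hε2').le hD1
        linarith
      _ = (1 - s + C * ε ^ 2) * D₀ := by rw [hD₀]; ring
      _ ≤ (1 - s + C * ε ^ 2) * D := by gcongr
  · have e1 : 2 - K ≤ 1 / K := by
      rw [le_div_iff₀ hK0]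
      nlinarith [sq_nonneg (K - 1)]
    refine le_trans ?_ e1
    have hp9 : 0 ≤ 9 / 4 * Real.pi * a ^ 2 := by positivity
    have e3 : C₃ ≤ C := by rw [hC]; linarith
    have e2 : C₃ * ε ^ 2 ≤ C * ε ^ 2 := mul_le_mul_of_nonneg_right e3 hε2'.le
    rw [hK]
    linarith

theorem mainq (hch : ChStmt) (har : ArStmt) (hup : UpStmt) (hcfi : CfiLStmt) (hlow : Low2Stmt) (hcfe : CfeKStmt)
    {g : ℂ → ℂ} {ρ : ℝ} (hg : Good g ρ) :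
    ∃ C ε₀ : ℝ, 0 < C ∧ 0 < ε₀ ∧ ∀ ε : ℝ, 0 < ε → ε < ε₀ → Chart (psi g ε) ∧
      minmax (psi g ε) (Inn (psi g ε)) (fun u => ContDiff ℝ 1 u) 2 ≤
        ((1 - 3 / 2 * ‖deriv g 0‖ * ε + C * ε ^ 2 : ℝ) : EReal) ∧
      ((1 - 1 / 2 * ‖deriv g 0‖ * ε - C * ε ^ 2 : ℝ) : EReal) ≤
        minmax (psi g ε) (Ext (psi g ε)) (ExtAdm (psi g ε)) 2 := by
  obtain ⟨ζ, hζ, hζc⟩ := exists_dir (deriv g 0)
  have ha : 0 ≤ ‖deriv g 0‖ := norm_nonneg _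
  obtain ⟨e1, he1, H1⟩ := hch g ρ hg
  obtain ⟨C1, e2, hC1, he2, H2⟩ := har g ρ hg
  obtain ⟨C2, e3, hC2, he3, H3⟩ := hup g ρ hg ζ hζ
  obtain ⟨C3, e4, hC3, he4, H4⟩ := hlow g ρ hg
  have hpi := Real.pi_pos
  have p1 : 0 < 1 / (C2 + 1) := by positivity
  have p2 : 0 < 1 / (2 * ‖deriv g 0‖ + 1) := by positivity
  refine ⟨C1 + C2 + 9 / 4 * Real.pi * ‖deriv g 0‖ ^ 2 + C3,
    min (min e1 e2) (min (min e3 e4) (min 1 (min (1 / (C2 + 1)) (1 / (2 * ‖deriv g 0‖ + 1))))), by positivity,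
    by simp only [lt_min_iff]; exact ⟨⟨he1, he2⟩, ⟨he3, he4⟩, one_pos, p1, p2⟩, fun ε hε hlt => ?_⟩
  simp only [lt_min_iff] at hlt
  obtain ⟨⟨l1, l2⟩, ⟨l3, l4⟩, l5, l6, l7⟩ := hlt
  have hc := H1 ε hε l1
  obtain ⟨D, hD⟩ : ∃ D, D = bd (psi g ε) (fun z => (Lin ζ z - bd (psi g ε) (Lin ζ) / bd (psi g ε) (fun _ => 1)) ^ 2) := ⟨_, rfl⟩
  have h3 := H3 ε hε l3
  rw [← hD, hζc] at h3
  obtain ⟨hK0, hD0, hq1, hq2⟩ := quot_bd ha hC1 hC2 hC3 hε l5 l6 l7 (H2 ε hε l2) rfl h3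
  refine ⟨hc, le_trans (hcfi _ hc ζ hζ D hD0 hD) (EReal.coe_le_coe_iff.2 hq1),
    le_trans (EReal.coe_le_coe_iff.2 hq2) ?_⟩
  exact hcfe _ hc _ hK0 (fun u hu hb => H4 ε hε l4 hc u hu hb)

/-- the two facts of the hand-in -/
theorem both (hch : ChStmt) (har : ArStmt) (hup : UpStmt) (hcfi : CfiLStmt) (hlow : Low2Stmt) (hcfe : CfeKStmt)
    {g : ℂ → ℂ} {ρ : ℝ} (hg : Good g ρ) :
    (∃ C ε₀ : ℝ, 0 < ε₀ ∧ ∀ ε : ℝ, 0 < ε → ε < ε₀ → Chart (psi g ε) ∧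
      minmax (psi g ε) (Inn (psi g ε)) (fun u => ContDiff ℝ 1 u) 2 ≤
        ((1 - 3 / 2 * ‖deriv g 0‖ * ε + C * ε ^ 2 : ℝ) : EReal) ∧
      ((1 - 1 / 2 * ‖deriv g 0‖ * ε - C * ε ^ 2 : ℝ) : EReal) ≤
        minmax (psi g ε) (Ext (psi g ε)) (ExtAdm (psi g ε)) 2) ∧
    (deriv g 0 ≠ 0 → ∃ ε₀ : ℝ, 0 < ε₀ ∧ ∀ ε : ℝ, 0 < ε → ε < ε₀ →
      minmax (psi g ε) (Inn (psi g ε)) (fun u => ContDiff ℝ 1 u) 2 <
        minmax (psi g ε) (Ext (psi g ε)) (ExtAdm (psi g ε)) 2) := by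
  obtain ⟨C, ε₀, hC, hε₀, H⟩ := mainq hch har hup hcfi hlow hcfe hg
  refine ⟨⟨C, ε₀, hε₀, H⟩, fun h0 => ?_⟩
  obtain ⟨ε₁, hε₁, H'⟩ := main hch har hup hcfi hlow hcfe hg h0
  exact ⟨ε₁, hε₁, fun ε hε hlt => (H' ε hε hlt).2⟩

end Pool.Agent.H74.DD
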