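import Pool.Agent.H74.DD.Fr
import Pool.Agent.H74.SX.Cfe

set_option autoImplicit false

/-!
# [H74 DD CfeK] the lower bound for the second exterior eigenvalue, with a constant (helper3)
-/

namespace Pool.Agent.H74.DD

open MeasureTheory Set Filter Topology Pool.Agent.H74.SX

theorem cfeK : CfeKStmt := by
  intro ψ hψ K hK hlow
  refine le_sInf ?_
  rintro x ⟨R, rfl, u, hu, hind, hR⟩
  obtain ⟨c, hc, hb⟩ : ∃ c : Fin 2 → ℝ, c ≠ 0 ∧ bd ψ (fun z => ∑ i, c i * u i z) = 0 := by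
    by_cases h0 : bd ψ (u 0) = 0
    · refine ⟨![1, 0], fun h => one_ne_zero (congrFun h 0), ?_⟩
      rw [Cf.bd_comb hψ hu, h0]
      simp
    · refine ⟨![bd ψ (u 1), - bd ψ (u 0)], fun h => h0 ?_, ?_⟩
      · have h1 := congrFun h 1
        simpa using h1
      · rw [Cf.bd_comb hψ hu]
        simp
        ring
  obtain ⟨w, hw, hne⟩ : ∃ w : ℂ, ‖w‖ = 1 ∧ ∑ i, c i * u i (ψ w) ≠ 0 := by
    by_contra hcon
    push Not at hcon
    exact hc (hind c hcon)
  have hadm := Cf.adm_comb hu c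
  have hpos := Cf.bd_pos hψ hadm.1.continuous w hw hne
  have h1 := hlow _ hadm hb
  have h2 := hR c
  have hd : 0 < dir (Ext ψ) (fun z => ∑ i, c i * u i z) := by
    by_contra hcon
    push Not at hcon
    have h3 : K * dir (Ext ψ) (fun z => ∑ i, c i * u i z) ≤ 0 := mul_nonpos_of_nonneg_of_nonpos hK.le hcon
    linarith
  have hR0 : 0 < R := by
    by_contra hcon
    push Not at hcon
    have h3 : R * bd ψ (fun z => (∑ i, c i * u i z) ^ 2) ≤ 0 := mul_nonpos_of_nonpos_of_nonneg hcon hpos.le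
    linarith
  have h4 : dir (Ext ψ) (fun z => ∑ i, c i * u i z) ≤ R * (K * dir (Ext ψ) (fun z => ∑ i, c i * u i z)) :=
    h2.trans (mul_le_mul_of_nonneg_left h1 hR0.le)
  have h5 : 1 ≤ R * K := by
    by_contra hcon
    push Not at hcon
    nlinarith
  rw [EReal.coe_le_coe_iff, div_le_iff₀ hK]
  exact h5

end Pool.Agent.H74.DD
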