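import Pool.Agent.H74.DD.Fr

set_option autoImplicit false

/-! # [H74 DD Ch] small deformations of the disk: chart (helper1) -/

namespace Pool.Agent.H74.DD

open MeasureTheory Set Filter Topology Pool.Agent.H74.SX

private theorem ch_hasDeriv {g : ℂ → ℂ} {ρ : ℝ} (hg : DifferentiableOn ℂ g (Metric.ball 0 ρ)) (ε : ℝ)
    {w : ℂ} (hw0 : w ≠ 0) (hw : ‖w⁻¹‖ < ρ) :
    HasDerivAt (psi g ε) (1 + (ε : ℂ) * (deriv g w⁻¹ * (-(w ^ 2)⁻¹))) w := by
  have h1 : HasDerivAt g (deriv g w⁻¹) w⁻¹ :=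
    (hg.differentiableAt (Metric.isOpen_ball.mem_nhds (by rwa [mem_ball_zero_iff]))).hasDerivAt
  have h2 : HasDerivAt (fun w : ℂ => w⁻¹) (-(w ^ 2)⁻¹) w := hasDerivAt_inv hw0
  have h3 := (h1.comp w h2).const_mul (ε : ℂ)
  exact (hasDerivAt_id w).add h3

theorem ch : ChStmt := by
  rintro g ρ ⟨h1, hg⟩
  have hana : AnalyticOnNhd ℂ g (Metric.ball 0 ρ) := hg.analyticOnNhd Metric.isOpen_ball
  have hsub : Metric.closedBall (0 : ℂ) 1 ⊆ Metric.ball 0 ρ := Metric.closedBall_subset_ball h1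
  obtain ⟨K, hK⟩ := (isCompact_closedBall (0 : ℂ) 1).exists_bound_of_continuousOn
    (f := deriv g) (hana.deriv.continuousOn.mono hsub)
  have hK0 : 0 ≤ K := (norm_nonneg _).trans (hK 0 (by simp))
  have hlip : ∀ a ∈ Metric.closedBall (0 : ℂ) 1, ∀ b ∈ Metric.closedBall (0 : ℂ) 1,
      ‖g b - g a‖ ≤ K * ‖b - a‖ := fun a ha b hb =>
    (convex_closedBall (0 : ℂ) 1).norm_image_sub_le_of_norm_deriv_le
      (fun x hx => hg.differentiableAt (Metric.isOpen_ball.mem_nhds (hsub hx))) hK ha hb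
  refine ⟨1 / (K + 1), by positivity, fun ε hε hε1 => ?_⟩
  have hεK : ε * K < 1 := by
    rw [lt_div_iff₀ (by linarith)] at hε1
    nlinarith
  have hinv : ∀ w : ℂ, 1 ≤ ‖w‖ → w⁻¹ ∈ Metric.closedBall (0 : ℂ) 1 := by
    intro w hw
    rw [mem_closedBall_zero_iff, norm_inv]
    exact inv_le_one_of_one_le₀ hw
  have hρ0 : 0 < ρ := by linarith
  refine ⟨⟨ρ⁻¹, inv_lt_one_of_one_lt₀ h1, ?_⟩, ?_, ?_, 1, one_ne_zero, ?_⟩
  · intro w hw
    have hw' : ρ⁻¹ < ‖w‖ := hw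
    have hwp : 0 < ‖w‖ := (inv_pos.2 hρ0).trans hw'
    refine (ch_hasDeriv hg ε (norm_pos_iff.1 hwp) ?_).differentiableAt.differentiableWithinAt
    rw [norm_inv]
    exact inv_lt_of_inv_lt₀ hρ0 hw'
  · intro w hw v hv he
    have hw' : 1 ≤ ‖w‖ := hw
    have hv' : 1 ≤ ‖v‖ := hv
    have hw0 : w ≠ 0 := norm_pos_iff.1 (by linarith)
    have hv0 : v ≠ 0 := norm_pos_iff.1 (by linarith)
    have e1 : w - v = (ε : ℂ) * (g v⁻¹ - g w⁻¹) := by
      have he' : w + (ε : ℂ) * g w⁻¹ = v + (ε : ℂ) * g v⁻¹ := he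
      linear_combination he'
    have e2 := hlip _ (hinv w hw') _ (hinv v hv')
    have e3 : ‖v⁻¹ - w⁻¹‖ ≤ ‖w - v‖ := by
      rw [inv_sub_inv hv0 hw0, norm_div, norm_mul]
      refine div_le_self (norm_nonneg _) ?_
      nlinarith
    have e4 : ‖w - v‖ ≤ ε * (K * ‖w - v‖) := by
      calc ‖w - v‖ = ‖(ε : ℂ) * (g v⁻¹ - g w⁻¹)‖ := by rw [← e1]
        _ = ε * ‖g v⁻¹ - g w⁻¹‖ := by
          rw [norm_mul, Complex.norm_real, Real.norm_eq_abs, abs_of_pos hε]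
        _ ≤ ε * (K * ‖w - v‖) :=
          mul_le_mul_of_nonneg_left (e2.trans (mul_le_mul_of_nonneg_left e3 hK0)) hε.le
    by_contra hne
    have e5 : 0 < ‖w - v‖ := norm_pos_iff.2 (sub_ne_zero.2 hne)
    nlinarith
  · intro w hw
    have hw0 : w ≠ 0 := norm_pos_iff.1 (by linarith)
    have hwi : ‖w⁻¹‖ = 1 := by rw [norm_inv, hw, inv_one]
    rw [(ch_hasDeriv hg ε hw0 (by rw [hwi]; exact h1)).deriv]
    intro h0
    have h2 := hK w⁻¹ (by rw [mem_closedBall_zero_iff]; exact hwi.le)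
    have h3 : (1 : ℂ) = (ε : ℂ) * (deriv g w⁻¹ * (w ^ 2)⁻¹) := by linear_combination h0
    have h4 := congrArg norm h3
    rw [norm_one, norm_mul, norm_mul, norm_inv, norm_pow, hw, Complex.norm_real, Real.norm_eq_abs,
      abs_of_pos hε, one_pow, inv_one, mul_one] at h4
    nlinarith
  · have t1 : Tendsto (fun w : ℂ => w⁻¹) (cocompact ℂ) (𝓝 0) := by
      rw [← Metric.cobounded_eq_cocompact]
      exact tendsto_inv₀_cobounded
    have t2 : Tendsto (fun w : ℂ => g w⁻¹) (cocompact ℂ) (𝓝 (g 0)) :=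
      (hg.differentiableAt (Metric.isOpen_ball.mem_nhds (by simp [hρ0]))).continuousAt.tendsto.comp t1
    have t3 : Tendsto (fun w : ℂ => 1 + (ε : ℂ) * g w⁻¹ * w⁻¹) (cocompact ℂ)
        (𝓝 (1 + (ε : ℂ) * g 0 * 0)) :=
      tendsto_const_nhds.add ((tendsto_const_nhds.mul t2).mul t1)
    rw [mul_zero, add_zero] at t3
    refine t3.congr' ?_
    have hne : ∀ᶠ w : ℂ in cocompact ℂ, w ≠ 0 := by
      have : ({0} : Set ℂ)ᶜ ∈ cocompact ℂ := isCompact_singleton.compl_mem_cocompact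
      filter_upwards [this] with w hw
      exact hw
    filter_upwards [hne] with w hw
    unfold psi
    field_simp

end Pool.Agent.H74.DD
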