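import Pool.Agent.H74.DD.Fr
import Pool.Agent.H74.SX.Low

set_option autoImplicit false

/-!
# [H74 DD Low2] the lower bound for one function (helper3)
-/

namespace Pool.Agent.H74.DD

open MeasureTheory Set Filter Topology Pool.Agent.H74.SX

theorem low2 (hcv : CvStmt) (hst : St2Stmt) (hw : Wt2Stmt) : Low2Stmt := by
  intro g ρ hg
  obtain ⟨C, ε₀, hC, hε₀, hW⟩ := hw g ρ hg
  refine ⟨C, ε₀, hC, hε₀, ?_⟩
  intro ε hε hε' hψ u hu hz
  obtain ⟨hu1, -, hu3⟩ := hu
  obtain ⟨h1, h2⟩ := hcv (psi g ε) hψ u hu1 hu3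
  obtain ⟨r, hr, hd⟩ := hψ.hol
  have hr1 : max r (1 / 2) < 1 := max_lt hr (by norm_num)
  have hr0 : 0 < max r (1 / 2) := lt_max_of_lt_right (by norm_num)
  have hlog : Real.log (max r (1 / 2)) < 0 := Real.log_neg hr0 hr1
  have hV : ContDiffOn ℝ 1 (fun ζ => u (psi g ε (Complex.exp ζ))) {ζ | Real.log (max r (1 / 2)) < ζ.re} := by
    have hmaps : MapsTo Complex.exp {ζ : ℂ | Real.log (max r (1 / 2)) < ζ.re} {w | r < ‖w‖} := by
      intro ζ hζ
      show r < ‖Complex.exp ζ‖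
      rw [Complex.norm_exp]
      have h3 : max r (1 / 2) < Real.exp ζ.re := (Real.log_lt_iff_lt_exp hr0).1 hζ
      exact (le_max_left _ _).trans_lt h3
    have hop : IsOpen {ζ : ℂ | Real.log (max r (1 / 2)) < ζ.re} := isOpen_lt continuous_const Complex.continuous_re
    have h4 : DifferentiableOn ℂ (fun ζ => psi g ε (Complex.exp ζ)) {ζ : ℂ | Real.log (max r (1 / 2)) < ζ.re} :=
      hd.comp Complex.differentiable_exp.differentiableOn hmaps
    have h5 : ContDiffOn ℂ 1 (fun ζ => psi g ε (Complex.exp ζ)) {ζ : ℂ | Real.log (max r (1 / 2)) < ζ.re} :=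
      h4.contDiffOn hop
    have h6 : ContDiffOn ℝ 1 (fun ζ => psi g ε (Complex.exp ζ)) {ζ : ℂ | Real.log (max r (1 / 2)) < ζ.re} :=
      h5.restrict_scalars ℝ
    exact hu1.comp_contDiffOn h6
  have hper : ∀ ζ : ℂ, u (psi g ε (Complex.exp (ζ + 2 * Real.pi * Complex.I))) = u (psi g ε (Complex.exp ζ)) := by
    intro ζ
    rw [Complex.exp_periodic ζ]
  have h3 := hst _ (fun ζ => u (psi g ε (Complex.exp ζ))) hlog hV hper h1
  have h4 := hW ε hε hε' (fun θ : ℝ => u (psi g ε (Complex.exp (θ * Complex.I))))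
    (hu1.continuous.comp (Lw.cont_circ hψ)) hz
  have h5 : 0 ≤ 1 + ε * (‖deriv g 0‖ / 2) + C * ε ^ 2 := by positivity
  exact h4.trans (mul_le_mul_of_nonneg_left (h3.trans h2) h5)

end Pool.Agent.H74.DD
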