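import Pool.Agent.H74.DD.Fr

set_option autoImplicit false

/-!
# [H74 DD Mv] mean value property on the unit circle
-/

namespace Pool.Agent.H74.DD

namespace MvAux

open MeasureTheory Set Filter Topology

theorem avg (G : ℂ → ℂ) (ρ : ℝ) (h : Good G ρ) :
    ∫ θ in (0 : ℝ)..(2 * Real.pi), G (circleMap 0 1 θ) = 2 * Real.pi * G 0 := by
  have h1 : DiffContOnCl ℂ G (Metric.ball 0 |(1 : ℝ)|) := by
    refine DifferentiableOn.diffContOnCl ?_
    rw [abs_one, closure_ball (0 : ℂ) one_ne_zero]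
    refine h.hol.mono fun z hz => ?_
    rw [Metric.mem_closedBall] at hz
    rw [Metric.mem_ball]
    exact hz.trans_lt h.one_lt
  have h2 := h1.circleAverage
  rw [Real.circleAverage_def, Complex.real_smul] at h2
  have hpi : ((2 * Real.pi : ℝ) : ℂ) ≠ 0 := by
    rw [Complex.ofReal_ne_zero]
    exact (mul_pos two_pos Real.pi_pos).ne'
  have h3 : ((2 * Real.pi : ℝ) : ℂ) * (((((2 * Real.pi)⁻¹ : ℝ) : ℂ)) *
      ∫ θ in (0 : ℝ)..(2 * Real.pi), G (circleMap 0 1 θ)) = ((2 * Real.pi : ℝ) : ℂ) * G 0 := by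
    rw [h2]
  rw [Complex.ofReal_inv, ← mul_assoc, mul_inv_cancel₀ hpi, one_mul] at h3
  rw [h3]
  push_cast
  rfl

theorem em_eq (θ : ℝ) : em θ = circleMap 0 1 (2 * Real.pi - θ) := by
  rw [em, circleMap, zero_add, Complex.ofReal_one, one_mul]
  have h1 : (((2 * Real.pi - θ : ℝ) : ℂ)) * Complex.I = -(θ * Complex.I) + 2 * Real.pi * Complex.I := by
    push_cast
    ring
  rw [h1, Complex.exp_add, Complex.exp_two_pi_mul_I, mul_one]

end MvAux

theorem mv : MvStmt := by
  intro G ρ h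
  have h1 : ∫ θ in (0 : ℝ)..(2 * Real.pi), G (em θ) =
      ∫ θ in (0 : ℝ)..(2 * Real.pi), G (circleMap 0 1 (2 * Real.pi - θ)) := by
    refine intervalIntegral.integral_congr fun θ _ => ?_
    show G (em θ) = G (circleMap 0 1 (2 * Real.pi - θ))
    rw [MvAux.em_eq]
  rw [h1, intervalIntegral.integral_comp_sub_left (fun θ => G (circleMap 0 1 θ)) (2 * Real.pi),
    sub_self, sub_zero]
  exact MvAux.avg G ρ h

end Pool.Agent.H74.DD
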