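import Pool.Agent.H74.DD.Fr
import Pool.Agent.H74.SX.St

set_option autoImplicit false

/-!
# [H74 DD St2] the refined trace inequality for the half strip (helper69; after helper30's SX/St)

`G t = 2 ∫ V² - (∫ V)² / π - (∫ V cos)² / π - (∫ V sin)² / π`; `-G' ≤ E`, `G ≤ E`.
-/

namespace Pool.Agent.H74.DD

open MeasureTheory Set Filter Topology Pool.Agent.H74.SX Pool.Agent.H74.SX.StB

namespace St2P

theorem exp1 (q : ℝ → ℝ) (hq : Continuous q) :
    ∫ x in (0 : ℝ)..(2 * Real.pi), (q x - mm q) ^ 2 = (∫ x in (0 : ℝ)..(2 * Real.pi), q x ^ 2) -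
      (∫ x in (0 : ℝ)..(2 * Real.pi), q x) ^ 2 / (2 * Real.pi) := by
  have i1 : IntervalIntegrable (fun x : ℝ => q x ^ 2) volume 0 (2 * Real.pi) :=
    (hq.pow 2).intervalIntegrable _ _
  have i2 : IntervalIntegrable (fun x : ℝ => 2 * mm q * q x) volume 0 (2 * Real.pi) :=
    (continuous_const.mul hq).intervalIntegrable _ _
  rw [intervalIntegral.integral_congr (g := fun x : ℝ => q x ^ 2 - 2 * mm q * q x + mm q ^ 2)
      (fun x _ => by ring),
    intervalIntegral.integral_add (i1.sub i2) intervalIntegrable_const,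
    intervalIntegral.integral_sub i1 i2, intervalIntegral.integral_const_mul, intervalIntegral.integral_const]
  unfold mm
  simp only [smul_eq_mul, sub_zero]
  generalize (∫ y in (0 : ℝ)..(2 * Real.pi), q y) = X
  generalize (∫ y in (0 : ℝ)..(2 * Real.pi), q y ^ 2) = Y
  have hp0 : Real.pi ≠ 0 := Real.pi_ne_zero
  field_simp
  ring

theorem hc (f : ℝ → ℝ) (hf : Continuous f) : IntervalIntegrable f volume 0 (2 * Real.pi) :=
  hf.intervalIntegrable _ _

theorem Ic2 : ∫ x in (0 : ℝ)..(2 * Real.pi), Real.cos x ^ 2 = Real.pi := by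
  rw [integral_cos_sq]
  simp

theorem Is2 : ∫ x in (0 : ℝ)..(2 * Real.pi), Real.sin x ^ 2 = Real.pi := by
  rw [integral_sin_sq]
  simp

theorem Isc : ∫ x in (0 : ℝ)..(2 * Real.pi), Real.sin x * Real.cos x = 0 := by
  rw [integral_sin_mul_cos₁]
  simp

theorem key (q : ℝ → ℝ) (hq : Continuous q) (m a b : ℝ) :
    ∫ x in (0 : ℝ)..(2 * Real.pi), (q x - m - a * Real.cos x - b * Real.sin x) ^ 2 =
      (∫ x in (0 : ℝ)..(2 * Real.pi), q x ^ 2) - 2 * m * (∫ x in (0 : ℝ)..(2 * Real.pi), q x)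
      - 2 * a * (∫ x in (0 : ℝ)..(2 * Real.pi), q x * Real.cos x)
      - 2 * b * (∫ x in (0 : ℝ)..(2 * Real.pi), q x * Real.sin x) + 2 * Real.pi * m ^ 2 +
      Real.pi * a ^ 2 + Real.pi * b ^ 2 := by
  have e : ∀ x, (q x - m - a * Real.cos x - b * Real.sin x) ^ 2 =
      ((((((((q x ^ 2 - 2 * m * q x) - 2 * a * (q x * Real.cos x)) - 2 * b * (q x * Real.sin x)) + m ^ 2) +
      a ^ 2 * Real.cos x ^ 2) + b ^ 2 * Real.sin x ^ 2) + 2 * m * a * Real.cos x) + 2 * m * b * Real.sin x) +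
      2 * a * b * (Real.sin x * Real.cos x) := by
    intro x; ring
  simp only [e]
  rw [intervalIntegral.integral_add (hc _ (by fun_prop)) (hc _ (by fun_prop)),
    intervalIntegral.integral_add (hc _ (by fun_prop)) (hc _ (by fun_prop)),
    intervalIntegral.integral_add (hc _ (by fun_prop)) (hc _ (by fun_prop)),
    intervalIntegral.integral_add (hc _ (by fun_prop)) (hc _ (by fun_prop)),
    intervalIntegral.integral_add (hc _ (by fun_prop)) (hc _ (by fun_prop)),
    intervalIntegral.integral_add (hc _ (by fun_prop)) (hc _ (by fun_prop)),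
    intervalIntegral.integral_sub (hc _ (by fun_prop)) (hc _ (by fun_prop)),
    intervalIntegral.integral_sub (hc _ (by fun_prop)) (hc _ (by fun_prop)),
    intervalIntegral.integral_sub (hc _ (by fun_prop)) (hc _ (by fun_prop))]
  simp only [intervalIntegral.integral_const_mul, intervalIntegral.integral_const, Ic2, Is2, Isc, integral_sin,
    integral_cos, smul_eq_mul, Real.cos_two_pi, Real.sin_two_pi, Real.cos_zero, Real.sin_zero]
  ring

theorem exp2 (q : ℝ → ℝ) (hq : Continuous q) :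
    ∫ x in (0 : ℝ)..(2 * Real.pi), (q x - mm q - ca q * Real.cos x - sa q * Real.sin x) ^ 2 =
      (∫ x in (0 : ℝ)..(2 * Real.pi), q x ^ 2) - (∫ x in (0 : ℝ)..(2 * Real.pi), q x) ^ 2 / (2 * Real.pi) -
      (∫ x in (0 : ℝ)..(2 * Real.pi), q x * Real.cos x) ^ 2 / Real.pi -
      (∫ x in (0 : ℝ)..(2 * Real.pi), q x * Real.sin x) ^ 2 / Real.pi := by
  rw [key q hq]
  unfold mm ca sa
  have hp0 : Real.pi ≠ 0 := Real.pi_ne_zero
  field_simp
  ring

/-- Bessel's inequality -/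
theorem bes (q : ℝ → ℝ) (hq : Continuous q) :
    0 ≤ (∫ x in (0 : ℝ)..(2 * Real.pi), q x ^ 2) - (∫ x in (0 : ℝ)..(2 * Real.pi), q x) ^ 2 / (2 * Real.pi) -
      (∫ x in (0 : ℝ)..(2 * Real.pi), q x * Real.cos x) ^ 2 / Real.pi -
      (∫ x in (0 : ℝ)..(2 * Real.pi), q x * Real.sin x) ^ 2 / Real.pi := by
  rw [← exp2 q hq]
  exact intervalIntegral.integral_nonneg (by positivity) fun x _ => sq_nonneg _

theorem bes2 (v p : ℝ → ℝ) (cv : Continuous v) (cp : Continuous p) :
    0 ≤ (4 * (∫ x in (0 : ℝ)..(2 * Real.pi), v x ^ 2) + 4 * (∫ x in (0 : ℝ)..(2 * Real.pi), v x * p x) +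
      ∫ x in (0 : ℝ)..(2 * Real.pi), p x ^ 2) -
      (2 * (∫ x in (0 : ℝ)..(2 * Real.pi), v x) + ∫ x in (0 : ℝ)..(2 * Real.pi), p x) ^ 2 / (2 * Real.pi) -
      (2 * (∫ x in (0 : ℝ)..(2 * Real.pi), v x * Real.cos x) +
        ∫ x in (0 : ℝ)..(2 * Real.pi), p x * Real.cos x) ^ 2 / Real.pi -
      (2 * (∫ x in (0 : ℝ)..(2 * Real.pi), v x * Real.sin x) +
        ∫ x in (0 : ℝ)..(2 * Real.pi), p x * Real.sin x) ^ 2 / Real.pi := by
  have h3 := bes (fun x : ℝ => 2 * v x + p x) (by fun_prop)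
  have e1 : ∫ x in (0 : ℝ)..(2 * Real.pi), (2 * v x + p x) ^ 2 =
      4 * (∫ x in (0 : ℝ)..(2 * Real.pi), v x ^ 2) + 4 * (∫ x in (0 : ℝ)..(2 * Real.pi), v x * p x) +
      ∫ x in (0 : ℝ)..(2 * Real.pi), p x ^ 2 := by
    rw [← intervalIntegral.integral_const_mul, ← intervalIntegral.integral_const_mul,
      ← intervalIntegral.integral_add (hc _ (by fun_prop)) (hc _ (by fun_prop)),
      ← intervalIntegral.integral_add (hc _ (by fun_prop)) (hc _ (by fun_prop))]
    exact intervalIntegral.integral_congr fun x _ => by ring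
  have e2 : ∫ x in (0 : ℝ)..(2 * Real.pi), (2 * v x + p x) =
      2 * (∫ x in (0 : ℝ)..(2 * Real.pi), v x) + ∫ x in (0 : ℝ)..(2 * Real.pi), p x := by
    rw [← intervalIntegral.integral_const_mul,
      ← intervalIntegral.integral_add (hc _ (by fun_prop)) (hc _ (by fun_prop))]
  have e3 : ∫ x in (0 : ℝ)..(2 * Real.pi), (2 * v x + p x) * Real.cos x =
      2 * (∫ x in (0 : ℝ)..(2 * Real.pi), v x * Real.cos x) +
        ∫ x in (0 : ℝ)..(2 * Real.pi), p x * Real.cos x := by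
    rw [← intervalIntegral.integral_const_mul,
      ← intervalIntegral.integral_add (hc _ (by fun_prop)) (hc _ (by fun_prop))]
    exact intervalIntegral.integral_congr fun x _ => by ring
  have e4 : ∫ x in (0 : ℝ)..(2 * Real.pi), (2 * v x + p x) * Real.sin x =
      2 * (∫ x in (0 : ℝ)..(2 * Real.pi), v x * Real.sin x) +
        ∫ x in (0 : ℝ)..(2 * Real.pi), p x * Real.sin x := by
    rw [← intervalIntegral.integral_const_mul,
      ← intervalIntegral.integral_add (hc _ (by fun_prop)) (hc _ (by fun_prop))]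
    exact intervalIntegral.integral_congr fun x _ => by ring
  rw [e1, e2, e3, e4] at h3
  exact h3

theorem wir (h : Wi2Stmt) (f : ℝ → ℝ) (hf : ContDiff ℝ 1 f) (hp : Function.Periodic f (2 * Real.pi)) :
    4 * ((∫ x in (0 : ℝ)..(2 * Real.pi), f x ^ 2) - (∫ x in (0 : ℝ)..(2 * Real.pi), f x) ^ 2 / (2 * Real.pi) -
      (∫ x in (0 : ℝ)..(2 * Real.pi), f x * Real.cos x) ^ 2 / Real.pi -
      (∫ x in (0 : ℝ)..(2 * Real.pi), f x * Real.sin x) ^ 2 / Real.pi) +
      ((∫ x in (0 : ℝ)..(2 * Real.pi), f x * Real.cos x) ^ 2 +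
        (∫ x in (0 : ℝ)..(2 * Real.pi), f x * Real.sin x) ^ 2) / Real.pi ≤
      ∫ x in (0 : ℝ)..(2 * Real.pi), (deriv f x) ^ 2 := by
  have hfc : Continuous f := hf.continuous
  have hdc : Continuous (deriv f) := hf.continuous_deriv (by norm_num)
  have hd : ∀ x, HasDerivAt f (deriv f x) x := fun x => (hf.differentiable (by norm_num) x).hasDerivAt
  have hp0 : Real.pi ≠ 0 := Real.pi_ne_zero
  obtain ⟨m, hm⟩ : ∃ m, m = mm f := ⟨_, rfl⟩
  obtain ⟨a, ha⟩ : ∃ a, a = ca f := ⟨_, rfl⟩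
  obtain ⟨b, hb⟩ : ∃ b, b = sa f := ⟨_, rfl⟩
  have hA : ∫ x in (0 : ℝ)..(2 * Real.pi), f x * Real.cos x = Real.pi * a := by
    rw [ha]; unfold ca; field_simp
  have hB : ∫ x in (0 : ℝ)..(2 * Real.pi), f x * Real.sin x = Real.pi * b := by
    rw [hb]; unfold sa; field_simp
  have hM : ∫ x in (0 : ℝ)..(2 * Real.pi), f x = 2 * Real.pi * m := by
    rw [hm]; unfold mm; field_simp
  have hf2 : f (2 * Real.pi) = f 0 := by simpa using hp 0
  -- integration by parts
  have p1 : ∫ x in (0 : ℝ)..(2 * Real.pi), deriv f x * Real.sin x = -(Real.pi * a) := by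
    have h1 : ∀ x ∈ uIcc (0 : ℝ) (2 * Real.pi), HasDerivAt (fun x => f x * Real.sin x)
        (deriv f x * Real.sin x + f x * Real.cos x) x := fun x _ => (hd x).mul (Real.hasDerivAt_sin x)
    have h2 := intervalIntegral.integral_eq_sub_of_hasDerivAt h1 (hc _ (by fun_prop))
    rw [intervalIntegral.integral_add (hc _ (by fun_prop)) (hc _ (by fun_prop)), hA] at h2
    simp at h2
    linarith
  have p2 : ∫ x in (0 : ℝ)..(2 * Real.pi), deriv f x * Real.cos x = Real.pi * b := by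
    have h1 : ∀ x ∈ uIcc (0 : ℝ) (2 * Real.pi), HasDerivAt (fun x => f x * Real.cos x)
        (deriv f x * Real.cos x + f x * -Real.sin x) x := fun x _ => (hd x).mul (Real.hasDerivAt_cos x)
    have h2 := intervalIntegral.integral_eq_sub_of_hasDerivAt h1 (hc _ (by fun_prop))
    rw [intervalIntegral.integral_add (hc _ (by fun_prop)) (hc _ (by fun_prop))] at h2
    simp only [mul_neg, intervalIntegral.integral_neg, hB, Real.cos_two_pi, Real.cos_zero, hf2] at h2
    linarith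
  -- the rest
  obtain ⟨W, hW⟩ : ∃ W : ℝ → ℝ, W = fun x => f x - m - a * Real.cos x - b * Real.sin x := ⟨_, rfl⟩
  have hWC : ContDiff ℝ 1 W := by
    rw [hW]
    exact ((hf.sub contDiff_const).sub (contDiff_const.mul Real.contDiff_cos)).sub
      (contDiff_const.mul Real.contDiff_sin)
  have hWP : Function.Periodic W (2 * Real.pi) := by
    intro x
    rw [hW]
    simp only [Real.cos_add_two_pi, Real.sin_add_two_pi, hp x]
  have hWd : ∀ x, HasDerivAt W (deriv f x - 0 - b * Real.cos x - (-a) * Real.sin x) x := by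
    intro x
    have h1 := (((hd x).sub_const m).sub ((Real.hasDerivAt_cos x).const_mul a)).sub
      ((Real.hasDerivAt_sin x).const_mul b)
    rw [hW]
    refine h1.congr_deriv ?_
    ring
  have w0 : ∫ x in (0 : ℝ)..(2 * Real.pi), W x = 0 := by
    rw [hW]
    rw [intervalIntegral.integral_sub (hc _ (by fun_prop)) (hc _ (by fun_prop)),
      intervalIntegral.integral_sub (hc _ (by fun_prop)) (hc _ (by fun_prop)),
      intervalIntegral.integral_sub (hc _ (by fun_prop)) (hc _ (by fun_prop)), hM]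
    simp
  have w1 : ∫ x in (0 : ℝ)..(2 * Real.pi), W x * Real.cos x = 0 := by
    have e : ∀ x, W x * Real.cos x = f x * Real.cos x - m * Real.cos x - a * Real.cos x ^ 2 -
        b * (Real.sin x * Real.cos x) := by
      intro x; rw [hW]; ring
    simp only [e]
    rw [intervalIntegral.integral_sub (hc _ (by fun_prop)) (hc _ (by fun_prop)),
      intervalIntegral.integral_sub (hc _ (by fun_prop)) (hc _ (by fun_prop)),
      intervalIntegral.integral_sub (hc _ (by fun_prop)) (hc _ (by fun_prop)), hA]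
    simp only [intervalIntegral.integral_const_mul, Ic2, Isc, integral_cos, Real.sin_two_pi, Real.sin_zero]
    ring
  have w2 : ∫ x in (0 : ℝ)..(2 * Real.pi), W x * Real.sin x = 0 := by
    have e : ∀ x, W x * Real.sin x = f x * Real.sin x - m * Real.sin x - a * (Real.sin x * Real.cos x) -
        b * Real.sin x ^ 2 := by
      intro x; rw [hW]; ring
    simp only [e]
    rw [intervalIntegral.integral_sub (hc _ (by fun_prop)) (hc _ (by fun_prop)),
      intervalIntegral.integral_sub (hc _ (by fun_prop)) (hc _ (by fun_prop)),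
      intervalIntegral.integral_sub (hc _ (by fun_prop)) (hc _ (by fun_prop)), hB]
    simp only [intervalIntegral.integral_const_mul, Is2, Isc, integral_sin, Real.cos_two_pi, Real.cos_zero]
    ring
  have h1 := h W hWC hWP w0 w1 w2
  have h2 : ∫ x in (0 : ℝ)..(2 * Real.pi), (deriv W x) ^ 2 =
      (∫ x in (0 : ℝ)..(2 * Real.pi), (deriv f x) ^ 2) - Real.pi * a ^ 2 - Real.pi * b ^ 2 := by
    have e : ∀ x, deriv W x = deriv f x - 0 - b * Real.cos x - (-a) * Real.sin x := fun x => (hWd x).deriv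
    simp only [e]
    rw [key (deriv f) hdc 0 b (-a), p1, p2]
    ring
  have h3 : ∫ x in (0 : ℝ)..(2 * Real.pi), W x ^ 2 =
      (∫ x in (0 : ℝ)..(2 * Real.pi), f x ^ 2) - (∫ x in (0 : ℝ)..(2 * Real.pi), f x) ^ 2 / (2 * Real.pi) -
      (∫ x in (0 : ℝ)..(2 * Real.pi), f x * Real.cos x) ^ 2 / Real.pi -
      (∫ x in (0 : ℝ)..(2 * Real.pi), f x * Real.sin x) ^ 2 / Real.pi := by
    rw [hW, hm, ha, hb]
    exact exp2 f hfc
  rw [← h3, hA, hB]
  rw [h2] at h1
  have h4 : ((Real.pi * a) ^ 2 + (Real.pi * b) ^ 2) / Real.pi = Real.pi * a ^ 2 + Real.pi * b ^ 2 := by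
    field_simp
  rw [h4]
  linarith

end St2P

open St2P in
theorem st2 (h : Wi2Stmt) : St2Stmt := by
  intro r V hr hV hper hint
  obtain ⟨g, hg⟩ : ∃ g : ℂ → ℝ, g = fun ζ => ‖fderiv ℝ V ζ‖ ^ 2 := ⟨_, rfl⟩
  have hVc := hV.continuousOn
  have hfc := cont_fderiv hV
  have hgc : ContinuousOn g {ζ | r < ζ.re} := by rw [hg]; exact hfc.norm.pow 2
  have h1c : ContinuousOn (fun ζ => fderiv ℝ V ζ 1) {ζ | r < ζ.re} := hfc.clm_apply continuousOn_const
  have h2c : ContinuousOn (fun ζ => fderiv ℝ V ζ Complex.I) {ζ | r < ζ.re} := hfc.clm_apply continuousOn_const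
  obtain ⟨E, hE⟩ : ∃ E : ℝ → ℝ, E = fun t : ℝ => ∫ θ in (0 : ℝ)..(2 * Real.pi), g (t + θ * Complex.I) := ⟨_, rfl⟩
  have hstr := strip_integral (h := g) (by rw [hg]; exact hint)
  rw [← hE] at hstr
  have hpi : (0 : ℝ) < 2 * Real.pi := by positivity
  have hp0 : Real.pi ≠ 0 := Real.pi_ne_zero
  -- the four integrals
  obtain ⟨S, hS⟩ : ∃ S : ℝ → ℝ, S = fun t : ℝ => ∫ θ in (0 : ℝ)..(2 * Real.pi), V (t + θ * Complex.I) ^ 2 := ⟨_, rfl⟩
  obtain ⟨M, hM⟩ : ∃ M : ℝ → ℝ, M = fun t : ℝ => ∫ θ in (0 : ℝ)..(2 * Real.pi), V (t + θ * Complex.I) := ⟨_, rfl⟩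
  obtain ⟨A, hA⟩ : ∃ A : ℝ → ℝ, A = fun t : ℝ => ∫ θ in (0 : ℝ)..(2 * Real.pi), V (t + θ * Complex.I) * Real.cos θ := ⟨_, rfl⟩
  obtain ⟨B, hB⟩ : ∃ B : ℝ → ℝ, B = fun t : ℝ => ∫ θ in (0 : ℝ)..(2 * Real.pi), V (t + θ * Complex.I) * Real.sin θ := ⟨_, rfl⟩
  obtain ⟨S1, hS1⟩ : ∃ S1 : ℝ → ℝ, S1 = fun t : ℝ => ∫ θ in (0 : ℝ)..(2 * Real.pi),
    V (t + θ * Complex.I) * fderiv ℝ V (t + θ * Complex.I) 1 := ⟨_, rfl⟩
  obtain ⟨S2, hS2⟩ : ∃ S2 : ℝ → ℝ, S2 = fun t : ℝ => ∫ θ in (0 : ℝ)..(2 * Real.pi),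
    (fderiv ℝ V (t + θ * Complex.I) 1) ^ 2 := ⟨_, rfl⟩
  obtain ⟨M', hM'⟩ : ∃ M' : ℝ → ℝ, M' = fun t : ℝ => ∫ θ in (0 : ℝ)..(2 * Real.pi),
    fderiv ℝ V (t + θ * Complex.I) 1 := ⟨_, rfl⟩
  obtain ⟨A', hA'⟩ : ∃ A' : ℝ → ℝ, A' = fun t : ℝ => ∫ θ in (0 : ℝ)..(2 * Real.pi),
    fderiv ℝ V (t + θ * Complex.I) 1 * Real.cos θ := ⟨_, rfl⟩
  obtain ⟨B', hB'⟩ : ∃ B' : ℝ → ℝ, B' = fun t : ℝ => ∫ θ in (0 : ℝ)..(2 * Real.pi),
    fderiv ℝ V (t + θ * Complex.I) 1 * Real.sin θ := ⟨_, rfl⟩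
  obtain ⟨G, hG⟩ : ∃ G : ℝ → ℝ, G = fun t : ℝ => 2 * S t - M t ^ 2 / Real.pi - A t ^ 2 / Real.pi -
    B t ^ 2 / Real.pi := ⟨_, rfl⟩
  have hdV : ∀ ζ : ℂ, r < ζ.re → DifferentiableAt ℝ V ζ := fun ζ hζ =>
    (hV.differentiableOn (by norm_num)).differentiableAt ((isOpen_half r).mem_nhds hζ)
  -- derivatives
  have dS : ∀ t, r < t → HasDerivAt S (2 * S1 t) t := by
    intro t ht
    have d := hasDeriv_int (hV.pow 2) ht
    rw [hS]
    refine d.congr_deriv ?_
    rw [hS1, ← intervalIntegral.integral_const_mul]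
    refine intervalIntegral.integral_congr fun θ _ => ?_
    rw [fderiv_fun_pow 2 (hdV _ (by simpa using ht))]
    simp
    ring
  have dM : ∀ t, r < t → HasDerivAt M (M' t) t := by
    intro t ht
    rw [hM, hM']
    exact hasDeriv_int hV ht
  have dA : ∀ t, r < t → HasDerivAt A (A' t) t := by
    intro t ht
    have hcos : ContDiff ℝ 1 fun ζ : ℂ => Real.cos ζ.im := Real.contDiff_cos.comp Complex.imCLM.contDiff
    have d := hasDeriv_int (hV.mul hcos.contDiffOn) ht
    have e1 : A = fun t : ℝ => ∫ θ in (0 : ℝ)..(2 * Real.pi),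
        (fun ζ => V ζ * Real.cos ζ.im) (t + θ * Complex.I) := by
      rw [hA]
      funext t
      simp
    rw [e1]
    refine d.congr_deriv ?_
    rw [hA']
    refine intervalIntegral.integral_congr fun θ _ => ?_
    have h3 : HasFDerivAt (fun ζ : ℂ => Real.cos ζ.im)
        ((-Real.sin ((t : ℂ) + θ * Complex.I).im) • Complex.imCLM) ((t : ℂ) + θ * Complex.I) :=
      (Real.hasDerivAt_cos _).comp_hasFDerivAt _ Complex.imCLM.hasFDerivAt
    have h4 := ((hdV ((t : ℂ) + θ * Complex.I) (by simpa using ht)).hasFDerivAt.mul h3).fderiv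
    have h5 : fderiv ℝ (fun ζ : ℂ => V ζ * Real.cos ζ.im) ((t : ℂ) + θ * Complex.I) 1 =
        fderiv ℝ V ((t : ℂ) + θ * Complex.I) 1 * Real.cos θ := by
      have h6 := congrArg (fun L : ℂ →L[ℝ] ℝ => L 1) h4
      refine h6.trans ?_
      simp
      ring
    exact h5
  have dB : ∀ t, r < t → HasDerivAt B (B' t) t := by
    intro t ht
    have hsin : ContDiff ℝ 1 fun ζ : ℂ => Real.sin ζ.im := Real.contDiff_sin.comp Complex.imCLM.contDiff
    have d := hasDeriv_int (hV.mul hsin.contDiffOn) ht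
    have e1 : B = fun t : ℝ => ∫ θ in (0 : ℝ)..(2 * Real.pi),
        (fun ζ => V ζ * Real.sin ζ.im) (t + θ * Complex.I) := by
      rw [hB]
      funext t
      simp
    rw [e1]
    refine d.congr_deriv ?_
    rw [hB']
    refine intervalIntegral.integral_congr fun θ _ => ?_
    have h3 : HasFDerivAt (fun ζ : ℂ => Real.sin ζ.im)
        ((Real.cos ((t : ℂ) + θ * Complex.I).im) • Complex.imCLM) ((t : ℂ) + θ * Complex.I) :=
      (Real.hasDerivAt_sin _).comp_hasFDerivAt _ Complex.imCLM.hasFDerivAt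
    have h4 := ((hdV ((t : ℂ) + θ * Complex.I) (by simpa using ht)).hasFDerivAt.mul h3).fderiv
    have h5 : fderiv ℝ (fun ζ : ℂ => V ζ * Real.sin ζ.im) ((t : ℂ) + θ * Complex.I) 1 =
        fderiv ℝ V ((t : ℂ) + θ * Complex.I) 1 * Real.sin θ := by
      have h6 := congrArg (fun L : ℂ →L[ℝ] ℝ => L 1) h4
      refine h6.trans ?_
      simp
      ring
    exact h5
  obtain ⟨G', hG'⟩ : ∃ G' : ℝ → ℝ, G' = fun t => 4 * S1 t - (2 * M t * M' t + 2 * A t * A' t + 2 * B t * B' t) / Real.pi :=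
    ⟨_, rfl⟩
  have dG : ∀ t, r < t → HasDerivAt G (G' t) t := by
    intro t ht
    have d := (((dS t ht).const_mul 2).sub (((dM t ht).pow 2).div_const Real.pi)).sub
      (((dA t ht).pow 2).div_const Real.pi) |>.sub (((dB t ht).pow 2).div_const Real.pi)
    rw [hG]
    refine d.congr_deriv ?_
    rw [hG']
    simp
    ring
  -- the inequalities on the line `t`
  have hW : ∀ t, r < t → 4 * (S t - M t ^ 2 / (2 * Real.pi) - A t ^ 2 / Real.pi - B t ^ 2 / Real.pi) +
      (A t ^ 2 + B t ^ 2) / Real.pi ≤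
      ∫ θ in (0 : ℝ)..(2 * Real.pi), (fderiv ℝ V (t + θ * Complex.I) Complex.I) ^ 2 := by
    intro t ht
    have hder : ∀ θ : ℝ, HasDerivAt (fun θ : ℝ => V (t + θ * Complex.I)) (fderiv ℝ V (t + θ * Complex.I) Complex.I) θ :=
      fun θ => hasDeriv_line' hV ht
    have hdd : deriv (fun θ : ℝ => V (t + θ * Complex.I)) = fun θ : ℝ => fderiv ℝ V (t + θ * Complex.I) Complex.I :=
      funext fun θ => (hder θ).deriv
    have hC1 : ContDiff ℝ 1 (fun θ : ℝ => V (t + θ * Complex.I)) := by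
      rw [contDiff_one_iff_deriv]
      exact ⟨fun θ => (hder θ).differentiableAt, by rw [hdd]; exact cont_line h2c ht⟩
    have hP : Function.Periodic (fun θ : ℝ => V (t + θ * Complex.I)) (2 * Real.pi) := by
      intro θ
      show V (t + ((θ + 2 * Real.pi : ℝ) : ℂ) * Complex.I) = V (t + θ * Complex.I)
      rw [← hper (t + θ * Complex.I)]
      congr 1
      push_cast
      ring
    have h3 := wir h _ hC1 hP
    rw [hdd] at h3
    rw [hS, hM, hA, hB]
    exact h3
  have hBes : ∀ t, r < t → 0 ≤ S t - M t ^ 2 / (2 * Real.pi) - A t ^ 2 / Real.pi - B t ^ 2 / Real.pi := by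
    intro t ht
    rw [hS, hM, hA, hB]
    exact bes _ (cont_line hVc ht)
  have hB2 : ∀ t, r < t → 0 ≤ (4 * S t + 4 * S1 t + S2 t) - (2 * M t + M' t) ^ 2 / (2 * Real.pi) -
      (2 * A t + A' t) ^ 2 / Real.pi - (2 * B t + B' t) ^ 2 / Real.pi := by
    intro t ht
    rw [hS, hS1, hS2, hM, hM', hA, hA', hB, hB']
    exact bes2 _ _ (cont_line hVc ht) (cont_line h1c ht)
  have hEb : ∀ t, r < t → (∫ θ in (0 : ℝ)..(2 * Real.pi), (fderiv ℝ V (t + θ * Complex.I) Complex.I) ^ 2) + S2 t ≤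
      E t := by
    intro t ht
    have hc1 := cont_line h1c ht
    have hc2 := cont_line h2c ht
    have hch := cont_line hgc ht
    rw [hE, hS2]
    simp only
    rw [← intervalIntegral.integral_add (hc _ (by fun_prop)) (hc _ (by fun_prop))]
    refine intervalIntegral.integral_mono_on hpi.le (hc _ (by fun_prop)) (hch.intervalIntegrable _ _) fun θ _ => ?_
    rw [hg]
    have := sq_le (fderiv ℝ V (t + θ * Complex.I))
    simp only
    linarith
  have hS20 : ∀ t, 0 ≤ S2 t := fun t => by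
    rw [hS2]
    exact intervalIntegral.integral_nonneg hpi.le fun θ _ => sq_nonneg _
  -- the derivative bound
  have hgE : ∀ t, r < t → -(E t) ≤ G' t := by
    intro t ht
    have a1 := hW t ht
    have a2 := hB2 t ht
    have a3 := hEb t ht
    rw [hG']
    simp only
    have hpp : 0 < Real.pi := Real.pi_pos
    have a4 : 0 ≤ ((A t + A' t) ^ 2 + (B t + B' t) ^ 2) / Real.pi := by positivity
    have a5 : 0 ≤ M' t ^ 2 / (2 * Real.pi) := by positivity
    have e1 : (2 * M t + M' t) ^ 2 / (2 * Real.pi) = 4 * (M t ^ 2 / (2 * Real.pi)) + 2 * M t * M' t / Real.pi +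
        M' t ^ 2 / (2 * Real.pi) := by
      field_simp
      ring
    have e2 : (2 * A t + A' t) ^ 2 / Real.pi = 4 * (A t ^ 2 / Real.pi) + 4 * (A t * A' t / Real.pi) +
        A' t ^ 2 / Real.pi := by
      field_simp
      ring
    have e3 : (2 * B t + B' t) ^ 2 / Real.pi = 4 * (B t ^ 2 / Real.pi) + 4 * (B t * B' t / Real.pi) +
        B' t ^ 2 / Real.pi := by
      field_simp
      ring
    have e4 : ((A t + A' t) ^ 2 + (B t + B' t) ^ 2) / Real.pi = A t ^ 2 / Real.pi + 2 * (A t * A' t / Real.pi) +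
        A' t ^ 2 / Real.pi + (B t ^ 2 / Real.pi + 2 * (B t * B' t / Real.pi) + B' t ^ 2 / Real.pi) := by
      field_simp
      ring
    have e5 : (2 * M t * M' t + 2 * A t * A' t + 2 * B t * B' t) / Real.pi = 2 * M t * M' t / Real.pi +
        2 * (A t * A' t / Real.pi) + 2 * (B t * B' t / Real.pi) := by
      field_simp
    have e6 : (A t ^ 2 + B t ^ 2) / Real.pi = A t ^ 2 / Real.pi + B t ^ 2 / Real.pi := by
      field_simp
    rw [e1, e2, e3] at a2
    rw [e4] at a4
    rw [e6] at a1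
    rw [e5]
    linarith
  -- `G T ≤ E T`
  have hgT : ∀ t, r < t → G t ≤ E t := by
    intro t ht
    have a1 := hW t ht
    have a2 := hBes t ht
    have a3 := hEb t ht
    have a4 := hS20 t
    rw [hG]
    simp only
    have e6 : (A t ^ 2 + B t ^ 2) / Real.pi = A t ^ 2 / Real.pi + B t ^ 2 / Real.pi := by
      field_simp
    have e7 : M t ^ 2 / Real.pi = 2 * (M t ^ 2 / (2 * Real.pi)) := by
      field_simp
    rw [e6] at a1
    rw [e7]
    linarith
  have hE0 : ∀ t, 0 ≤ E t := fun t => by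
    rw [hE]
    refine intervalIntegral.integral_nonneg hpi.le fun θ _ => ?_
    rw [hg]; positivity
  -- `E` is continuous on `[0, ∞)`
  have hEc : ContinuousOn E (Ici 0) := by
    have e1 : Continuous fun t : ℝ => ∫ θ in (0 : ℝ)..(2 * Real.pi), g ((max t 0 : ℝ) + θ * Complex.I) := by
      refine intervalIntegral.continuous_parametric_intervalIntegral_of_continuous' ?_ _ _
      refine hgc.comp_continuous (f := fun p : ℝ × ℝ => ((max p.1 0 : ℝ) : ℂ) + p.2 * Complex.I) (by fun_prop) fun p => ?_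
      show r < (((max p.1 0 : ℝ) : ℂ) + p.2 * Complex.I).re
      simp [hr]
    refine e1.continuousOn.congr fun t ht => ?_
    rw [hE]
    simp only
    rw [max_eq_left ht]
  -- comparison
  have key' : ∀ T : ℝ, 0 < T → G 0 ≤ G T + ∫ t in Ioi (0 : ℝ), E t := by
    intro T hT
    have hEi : IntervalIntegrable E volume 0 T :=
      (hEc.mono (by rw [uIcc_of_le hT.le]; exact fun x hx => hx.1)).intervalIntegrable
    have hge : -(∫ t in (0 : ℝ)..T, E t) ≤ G T - G 0 := by
      rw [← intervalIntegral.integral_neg]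
      refine intervalIntegral.integral_le_sub_of_hasDeriv_right_of_le hT.le (fun t ht => ?_) (fun t ht => ?_)
        (g' := G') ?_ (fun t ht => ?_)
      · exact (dG t (lt_of_lt_of_le hr ht.1)).continuousAt.continuousWithinAt
      · exact (dG t (hr.trans ht.1)).hasDerivWithinAt
      · exact ((hEc.mono fun x hx => hx.1).integrableOn_compact isCompact_Icc).neg
      · exact hgE t (hr.trans ht.1)
    have hle : ∫ t in (0 : ℝ)..T, E t ≤ ∫ t in Ioi (0 : ℝ), E t := by
      rw [intervalIntegral.integral_of_le hT.le]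
      exact setIntegral_mono_set hstr.1 (Eventually.of_forall fun t => hE0 t) (Eventually.of_forall fun t ht => ht.1)
    linarith
  have hfin : G 0 ≤ ∫ t in Ioi (0 : ℝ), E t := by
    refine le_of_forall_pos_le_add fun ε hε => ?_
    obtain ⟨T, hT, hTε⟩ := exists_small hstr.1 hε
    have := key' T hT
    have h6 := hgT T (hr.trans hT)
    linarith
  rw [← hstr.2, hg] at hfin
  have c0 : Continuous fun θ : ℝ => V (θ * Complex.I) := by
    have := cont_line hVc hr
    simpa using this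
  have hQ : QQ (fun θ => V (θ * Complex.I)) = G 0 := by
    unfold QQ
    rw [exp1 _ c0, exp2 _ c0, hG, hS, hM, hA, hB]
    simp only [Complex.ofReal_zero, zero_add]
    generalize (∫ x in (0 : ℝ)..(2 * Real.pi), V (x * Complex.I) ^ 2) = X1
    generalize (∫ x in (0 : ℝ)..(2 * Real.pi), V (x * Complex.I)) = X2
    generalize (∫ x in (0 : ℝ)..(2 * Real.pi), V (x * Complex.I) * Real.cos x) = X3
    generalize (∫ x in (0 : ℝ)..(2 * Real.pi), V (x * Complex.I) * Real.sin x) = X4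
    have e7 : X2 ^ 2 / Real.pi = 2 * (X2 ^ 2 / (2 * Real.pi)) := by
      field_simp
    rw [e7]
    ring
  rw [hQ]
  exact hfin

end Pool.Agent.H74.DD
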