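import Pool.Agent.H74.DD.Fr

/-!
# [H74 DD Up] first order expansion of the boundary integral (helper73)

`L = L₀ + ε L₁` on the curve, `b = 1 - ε r + O(ε²)`; `L₀² + ε (2 L₀ L₁ - L₀² r) = 1/2 + Re H(e^{-iθ})` with `H` holomorphic on
the disk of radius `ρ`, `H 0 = (3/4) ε ζ̄² g'(0)`.
-/

set_option autoImplicit false

namespace Pool.Agent.H74.DD

open MeasureTheory Set Filter Topology Pool.Agent.H74.SX

namespace UpM

theorem em_norm (θ : ℝ) : ‖em θ‖ = 1 := by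
  unfold em
  have h : -((θ : ℂ) * Complex.I) = ((-θ : ℝ) : ℂ) * Complex.I := by push_cast; ring
  rw [h, Complex.norm_exp_ofReal_mul_I]

theorem em_inv (θ : ℝ) : (Complex.exp (θ * Complex.I))⁻¹ = em θ := by
  unfold em
  rw [Complex.exp_neg]

theorem em_cont : Continuous em := by
  unfold em
  fun_prop

theorem em_mem {ρ : ℝ} (h : 1 < ρ) (θ : ℝ) : em θ ∈ Metric.ball (0 : ℂ) ρ := by
  rw [mem_ball_zero_iff, em_norm]
  exact h

theorem exp_conj (θ : ℝ) : Complex.exp (θ * Complex.I) = (starRingEnd ℂ) (em θ) := by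
  unfold em
  rw [← Complex.exp_conj]
  congr 1
  simp

theorem mv_re (hMv : MvStmt) {G : ℂ → ℂ} {ρ : ℝ} (hG : Good G ρ) :
    ∫ θ in (0 : ℝ)..(2 * Real.pi), (G (em θ)).re = 2 * Real.pi * (G 0).re := by
  have hc : Continuous fun θ => G (em θ) :=
    hG.hol.continuousOn.comp_continuous em_cont (em_mem hG.one_lt)
  have h := Complex.reCLM.intervalIntegral_comp_comm (hc.intervalIntegrable 0 (2 * Real.pi) (μ := volume))
  have h2 := hMv G ρ hG
  rw [h2] at h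
  have h3 : (2 * (Real.pi : ℂ) * G 0) = ((2 * Real.pi : ℝ) : ℂ) * G 0 := by push_cast; ring
  rw [h3] at h
  refine h.trans ?_
  show (((2 * Real.pi : ℝ) : ℂ) * G 0).re = _
  rw [Complex.re_ofReal_mul]

theorem two_re (a c : ℂ) : 2 * a.re * c.re = (a * c).re + ((starRingEnd ℂ) a * c).re := by
  rw [Complex.mul_re, Complex.mul_re, Complex.conj_re, Complex.conj_im]
  ring

/-- the holomorphic function -/
noncomputable def Hc (g : ℂ → ℂ) (ζ : ℂ) (ε : ℝ) (z : ℂ) : ℂ :=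
  ((1 / 2 : ℝ) : ℂ) * (ζ ^ 2 * z ^ 2) + (ε : ℂ) * (z * g z + (starRingEnd ℂ) ζ ^ 2 * dslope g 0 z +
    (starRingEnd ℂ) ((starRingEnd ℂ) ζ ^ 2 * g 0) * z - ((1 / 2 : ℝ) : ℂ) * (z ^ 2 * deriv g z) -
    ((1 / 4 : ℝ) : ℂ) * (ζ ^ 2 * z ^ 4 * deriv g z) - ((1 / 4 : ℝ) : ℂ) * ((starRingEnd ℂ) ζ ^ 2 * deriv g z))

theorem good_Hc {g : ℂ → ℂ} {ρ : ℝ} (hg : Good g ρ) (ζ : ℂ) (ε : ℝ) : Good (Hc g ζ ε) ρ := by
  refine ⟨hg.one_lt, ?_⟩
  have hd : DifferentiableOn ℂ (deriv g) (Metric.ball 0 ρ) := hg.hol.deriv Metric.isOpen_ball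
  have hs : DifferentiableOn ℂ (dslope g 0) (Metric.ball 0 ρ) :=
    (Complex.differentiableOn_dslope (Metric.ball_mem_nhds 0 (by linarith [hg.one_lt]))).2 hg.hol
  have hh := hg.hol
  unfold Hc
  obtain ⟨d, hd'⟩ : ∃ d, d = deriv g := ⟨_, rfl⟩
  obtain ⟨l, hl'⟩ : ∃ l, l = dslope g 0 := ⟨_, rfl⟩
  rw [← hd'] at hd ⊢
  rw [← hl'] at hs ⊢
  fun_prop

theorem Hc_zero (g : ℂ → ℂ) (ζ : ℂ) (ε : ℝ) :
    (Hc g ζ ε 0).re = ε * (3 / 4) * ((starRingEnd ℂ) ζ ^ 2 * deriv g 0).re := by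
  have h : Hc g ζ ε 0 = ((ε * (3 / 4) : ℝ) : ℂ) * ((starRingEnd ℂ) ζ ^ 2 * deriv g 0) := by
    unfold Hc
    rw [dslope_same]
    push_cast
    ring
  rw [h, Complex.re_ofReal_mul]

theorem norm_one_mul {z : ℂ} (hz : ‖z‖ = 1) : (starRingEnd ℂ) z * z = 1 := by
  rw [mul_comm, Complex.mul_conj, Complex.normSq_eq_norm_sq, hz]
  norm_num

theorem point (g : ℂ → ℂ) {ζ z : ℂ} (hζ : ‖ζ‖ = 1) (hz : ‖z‖ = 1) (ε : ℝ) :
    ((starRingEnd ℂ) ζ * (starRingEnd ℂ) z).re ^ 2 +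
      ε * (2 * ((starRingEnd ℂ) ζ * (starRingEnd ℂ) z).re * ((starRingEnd ℂ) ζ * g z).re -
        ((starRingEnd ℂ) ζ * (starRingEnd ℂ) z).re ^ 2 * (z ^ 2 * deriv g z).re) =
      1 / 2 + (Hc g ζ ε z).re := by
  have hz1 := norm_one_mul hz
  have hζ1 := norm_one_mul hζ
  have hz0 : z ≠ 0 := fun h => by rw [h] at hz; simp at hz
  have e1 : ((starRingEnd ℂ) ζ * (starRingEnd ℂ) z).re = (ζ * z).re := by
    rw [← map_mul, Complex.conj_re]
  rw [e1]
  have e2 : 2 * (ζ * z).re * (ζ * z).re = (ζ ^ 2 * z ^ 2).re + 1 := by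
    rw [two_re]
    have h1 : ζ * z * (ζ * z) = ζ ^ 2 * z ^ 2 := by ring
    have h2 : (starRingEnd ℂ) (ζ * z) * (ζ * z) = 1 := by
      rw [map_mul]
      linear_combination (starRingEnd ℂ) z * z * hζ1 + hz1
    rw [h1, h2, Complex.one_re]
  have e3 : 2 * (ζ * z).re * ((starRingEnd ℂ) ζ * g z).re = (z * g z).re +
      ((starRingEnd ℂ) ζ ^ 2 * dslope g 0 z).re + ((starRingEnd ℂ) ((starRingEnd ℂ) ζ ^ 2 * g 0) * z).re := by
    rw [two_re]
    have h1 : ζ * z * ((starRingEnd ℂ) ζ * g z) = z * g z := by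
      linear_combination z * g z * hζ1
    have hinv : z⁻¹ = (starRingEnd ℂ) z := (eq_inv_of_mul_eq_one_left hz1).symm
    have h2 : dslope g 0 z = (starRingEnd ℂ) z * (g z - g 0) := by
      rw [dslope_of_ne _ hz0, slope_def_module, sub_zero, hinv, smul_eq_mul]
    have h3 : (starRingEnd ℂ) (ζ * z) * ((starRingEnd ℂ) ζ * g z) =
        (starRingEnd ℂ) ζ ^ 2 * dslope g 0 z + (starRingEnd ℂ) ζ ^ 2 * g 0 * (starRingEnd ℂ) z := by
      rw [map_mul, h2]
      ring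
    have h4 : ((starRingEnd ℂ) ζ ^ 2 * g 0 * (starRingEnd ℂ) z).re =
        ((starRingEnd ℂ) ((starRingEnd ℂ) ζ ^ 2 * g 0) * z).re := by
      rw [← Complex.conj_re, map_mul, Complex.conj_conj]
    rw [h1, h3, Complex.add_re, h4]
    ring
  have e4 : 2 * (ζ ^ 2 * z ^ 2).re * (z ^ 2 * deriv g z).re = (ζ ^ 2 * z ^ 4 * deriv g z).re +
      ((starRingEnd ℂ) ζ ^ 2 * deriv g z).re := by
    rw [two_re]
    have h1 : ζ ^ 2 * z ^ 2 * (z ^ 2 * deriv g z) = ζ ^ 2 * z ^ 4 * deriv g z := by ring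
    have h2 : (starRingEnd ℂ) (ζ ^ 2 * z ^ 2) * (z ^ 2 * deriv g z) = (starRingEnd ℂ) ζ ^ 2 * deriv g z := by
      rw [map_mul, map_pow, map_pow]
      linear_combination (starRingEnd ℂ) ζ ^ 2 * deriv g z * ((starRingEnd ℂ) z * z + 1) * hz1
    rw [h1, h2]
  unfold Hc
  simp only [Complex.add_re, Complex.sub_re, Complex.re_ofReal_mul]
  linear_combination (1 / 2 - ε * (z ^ 2 * deriv g z).re / 2) * e2 + ε * e3 - ε / 4 * e4

theorem err1 {a c r b ε A R C : ℝ} (ha : |a| ≤ 1) (hc : |c| ≤ A) (hr : |r| ≤ R) (hb0 : 0 ≤ b) (hC : 0 ≤ C)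
    (hb : |b - 1 + ε * r| ≤ C * ε ^ 2) (h0 : 0 < ε) (h1 : ε ≤ 1) :
    a ^ 2 + ε * (2 * a * c - a ^ 2 * r) - (C + 2 * A * (R + C)) * ε ^ 2 ≤ (a + ε * c) ^ 2 * b := by
  obtain ⟨e, he⟩ : ∃ e, e = b - 1 + ε * r := ⟨_, rfl⟩
  rw [← he] at hb
  have hA : 0 ≤ A := (abs_nonneg c).trans hc
  have hR : 0 ≤ R := (abs_nonneg r).trans hr
  have hbe : b = 1 - ε * r + e := by rw [he]; ring
  have e1 : (a + ε * c) ^ 2 * b = a ^ 2 + ε * (2 * a * c - a ^ 2 * r) + a ^ 2 * e + 2 * ε * (a * c * (e - ε * r)) +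
      ε ^ 2 * c ^ 2 * b := by
    rw [hbe]
    ring
  have e2 : |a ^ 2 * e| ≤ C * ε ^ 2 := by
    rw [abs_mul, abs_pow]
    calc |a| ^ 2 * |e| ≤ 1 * (C * ε ^ 2) :=
          mul_le_mul (pow_le_one₀ (abs_nonneg a) ha) hb (abs_nonneg e) zero_le_one
      _ = C * ε ^ 2 := one_mul _
  have e3 : |e - ε * r| ≤ ε * (R + C) := by
    calc |e - ε * r| ≤ |e| + |ε * r| := abs_sub _ _
      _ ≤ C * ε ^ 2 + ε * R := by
          refine add_le_add hb ?_
          rw [abs_mul, abs_of_pos h0]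
          exact mul_le_mul_of_nonneg_left hr h0.le
      _ ≤ ε * (R + C) := by nlinarith [mul_nonneg hC (mul_nonneg h0.le (sub_nonneg.2 h1))]
  have e4 : |a * c * (e - ε * r)| ≤ A * (ε * (R + C)) := by
    rw [abs_mul, abs_mul]
    refine mul_le_mul ?_ e3 (abs_nonneg _) hA
    calc |a| * |c| ≤ 1 * A := mul_le_mul ha hc (abs_nonneg c) zero_le_one
      _ = A := one_mul A
  have e5 : 0 ≤ ε ^ 2 * c ^ 2 * b := by positivity
  have e6 := (abs_le.1 e2).1
  have e7 := (abs_le.1 e4).1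
  have e8 : 2 * ε * (-(A * (ε * (R + C)))) ≤ 2 * ε * (a * c * (e - ε * r)) :=
    mul_le_mul_of_nonneg_left e7 (by linarith)
  rw [e1]
  nlinarith

theorem err2 {a c r b ε A R C : ℝ} (ha : |a| ≤ 1) (hc : |c| ≤ A) (hr : |r| ≤ R) (hC : 0 ≤ C)
    (hb : |b - 1 + ε * r| ≤ C * ε ^ 2) (h0 : 0 < ε) (h1 : ε ≤ 1) :
    |(a + ε * c) * b - a| ≤ (R + C + A * (1 + R + C)) * ε := by
  have hA : 0 ≤ A := (abs_nonneg c).trans hc
  have hR : 0 ≤ R := (abs_nonneg r).trans hr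
  have e1 : |b - 1| ≤ ε * (R + C) := by
    calc |b - 1| = |(b - 1 + ε * r) - ε * r| := by rw [add_sub_cancel_right]
      _ ≤ |b - 1 + ε * r| + |ε * r| := abs_sub _ _
      _ ≤ C * ε ^ 2 + ε * R := by
          refine add_le_add hb ?_
          rw [abs_mul, abs_of_pos h0]
          exact mul_le_mul_of_nonneg_left hr h0.le
      _ ≤ ε * (R + C) := by nlinarith [mul_nonneg hC (mul_nonneg h0.le (sub_nonneg.2 h1))]
  have e2 : |b| ≤ 1 + R + C := by
    calc |b| = |1 + (b - 1)| := by rw [add_sub_cancel]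
      _ ≤ |(1 : ℝ)| + |b - 1| := abs_add_le _ _
      _ ≤ 1 + R + C := by
          rw [abs_one]
          nlinarith [mul_nonneg (sub_nonneg.2 h1) (add_nonneg hR hC)]
  have e3 : (a + ε * c) * b - a = a * (b - 1) + ε * (c * b) := by ring
  rw [e3]
  calc |a * (b - 1) + ε * (c * b)| ≤ |a * (b - 1)| + |ε * (c * b)| := abs_add_le _ _
    _ ≤ 1 * (ε * (R + C)) + ε * (A * (1 + R + C)) := by
        rw [abs_mul, abs_mul ε, abs_mul c, abs_of_pos h0]
        refine add_le_add (mul_le_mul ha e1 (abs_nonneg _) zero_le_one) ?_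
        exact mul_le_mul_of_nonneg_left (mul_le_mul hc e2 (abs_nonneg _) hA) h0.le
    _ = (R + C + A * (1 + R + C)) * ε := by ring

theorem low {r b ε R C : ℝ} (hr : |r| ≤ R) (hC : 0 ≤ C) (hb : |b - 1 + ε * r| ≤ C * ε ^ 2) (h0 : 0 < ε)
    (h1 : ε ≤ 1) (h2 : ε * (R + C) ≤ 1 / 2) : 1 / 2 ≤ b := by
  have e1 := (abs_le.1 hb).1
  have e2 := (abs_le.1 hr).2
  nlinarith [mul_nonneg hC (mul_nonneg h0.le (sub_nonneg.2 h1)), mul_le_mul_of_nonneg_left e2 h0.le]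

theorem deriv_psi {g : ℂ → ℂ} {ρ : ℝ} (hg : Good g ρ) (ε θ : ℝ) :
    deriv (psi g ε) (Complex.exp (θ * Complex.I)) =
      1 + ε * (deriv g (em θ) * -((Complex.exp (θ * Complex.I)) ^ 2)⁻¹) := by
  have h1 : HasDerivAt g (deriv g (em θ)) ((Complex.exp (θ * Complex.I))⁻¹) := by
    rw [em_inv]
    exact (hg.hol.differentiableAt (Metric.isOpen_ball.mem_nhds (em_mem hg.one_lt θ))).hasDerivAt
  have h2 := hasDerivAt_inv (Complex.exp_ne_zero (θ * Complex.I))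
  have h3 := h1.comp (Complex.exp (θ * Complex.I)) h2
  have h4 := (hasDerivAt_id (Complex.exp (θ * Complex.I))).add (h3.const_mul (ε : ℂ))
  exact h4.deriv

end UpM

open UpM in
theorem up (hw : WgtStmt) (hMv : MvStmt) : UpStmt := by
  intro g ρ hg ζ hζ
  obtain ⟨C, ε₀, hC, hε₀, hW⟩ := hw g ρ hg
  have hd : DifferentiableOn ℂ (deriv g) (Metric.ball 0 ρ) := hg.hol.deriv Metric.isOpen_ball
  have hsub : Metric.closedBall (0 : ℂ) 1 ⊆ Metric.ball 0 ρ := Metric.closedBall_subset_ball hg.one_lt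
  obtain ⟨A, hA⟩ := (isCompact_closedBall (0 : ℂ) 1).exists_bound_of_continuousOn (hg.hol.continuousOn.mono hsub)
  obtain ⟨R, hR⟩ := (isCompact_closedBall (0 : ℂ) 1).exists_bound_of_continuousOn (hd.continuousOn.mono hsub)
  have hmem : ∀ θ : ℝ, em θ ∈ Metric.closedBall (0 : ℂ) 1 := fun θ => by
    rw [mem_closedBall_zero_iff, em_norm]
  have hAe : ∀ θ, ‖g (em θ)‖ ≤ A := fun θ => hA _ (hmem θ)
  have hRe : ∀ θ, ‖deriv g (em θ)‖ ≤ R := fun θ => hR _ (hmem θ)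
  have hA0 : 0 ≤ A := (norm_nonneg _).trans (hAe 0)
  have hR0 : 0 ≤ R := (norm_nonneg _).trans (hRe 0)
  have hζc : ‖(starRingEnd ℂ) ζ‖ = 1 := by rw [RCLike.norm_conj, hζ]
  have hpi := Real.pi_pos
  obtain ⟨C2, hC2⟩ : ∃ C2, C2 = C + 2 * A * (R + C) := ⟨_, rfl⟩
  obtain ⟨C3, hC3⟩ : ∃ C3, C3 = R + C + A * (1 + R + C) := ⟨_, rfl⟩
  have hC20 : 0 ≤ C2 := by rw [hC2]; positivity
  have hC30 : 0 ≤ C3 := by rw [hC3]; positivity
  refine ⟨2 * Real.pi * C2 + 4 * Real.pi * C3 ^ 2 + 1, min ε₀ (min 1 (1 / (2 * (R + C)))), by positivity,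
    lt_min hε₀ (lt_min one_pos (by positivity)), fun ε h0 hε => ?_⟩
  have hεε : ε < ε₀ := hε.trans_le (min_le_left _ _)
  have h1 : ε ≤ 1 := (hε.trans_le ((min_le_right _ _).trans (min_le_left _ _))).le
  have h2 : ε * (R + C) ≤ 1 / 2 := by
    have h3 : ε ≤ 1 / (2 * (R + C)) := (hε.trans_le ((min_le_right _ _).trans (min_le_right _ _))).le
    rw [le_div_iff₀ (by positivity)] at h3
    linarith
  -- the functions
  obtain ⟨b, hb⟩ : ∃ b : ℝ → ℝ, b = fun θ : ℝ => ‖deriv (psi g ε) (Complex.exp (θ * Complex.I))‖ := ⟨_, rfl⟩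
  obtain ⟨a, ha⟩ : ∃ a : ℝ → ℝ, a = fun θ => ((starRingEnd ℂ) ζ * (starRingEnd ℂ) (em θ)).re := ⟨_, rfl⟩
  obtain ⟨c, hc⟩ : ∃ c : ℝ → ℝ, c = fun θ => ((starRingEnd ℂ) ζ * g (em θ)).re := ⟨_, rfl⟩
  obtain ⟨r, hr⟩ : ∃ r : ℝ → ℝ, r = fun θ => (em θ ^ 2 * deriv g (em θ)).re := ⟨_, rfl⟩
  have hgc : Continuous fun θ => g (em θ) := hg.hol.continuousOn.comp_continuous em_cont (em_mem hg.one_lt)
  have hdc : Continuous fun θ => deriv g (em θ) := hd.continuousOn.comp_continuous em_cont (em_mem hg.one_lt)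
  have hec := em_cont
  have hbc : Continuous b := by
    have e : b = fun θ => ‖1 + (ε : ℂ) * (deriv g (em θ) * -(em θ) ^ 2)‖ := by
      rw [hb]
      funext θ
      rw [deriv_psi hg, ← em_inv θ, inv_pow]
    rw [e]
    fun_prop
  have hac : Continuous a := by
    rw [ha]
    exact Complex.continuous_re.comp (continuous_const.mul (Complex.continuous_conj.comp hec))
  have hcc : Continuous c := by
    rw [hc]
    exact Complex.continuous_re.comp (continuous_const.mul hgc)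
  have hrc : Continuous r := by
    rw [hr]
    exact Complex.continuous_re.comp ((hec.pow 2).mul hdc)
  have hb0 : ∀ θ, 0 ≤ b θ := fun θ => by rw [hb]; exact norm_nonneg _
  have ha1 : ∀ θ, |a θ| ≤ 1 := fun θ => by
    rw [ha]
    refine (Complex.abs_re_le_norm _).trans ?_
    rw [norm_mul, hζc, RCLike.norm_conj, em_norm, mul_one]
  have hcA : ∀ θ, |c θ| ≤ A := fun θ => by
    rw [hc]
    refine (Complex.abs_re_le_norm _).trans ?_
    rw [norm_mul, hζc, one_mul]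
    exact hAe θ
  have hrR : ∀ θ, |r θ| ≤ R := fun θ => by
    rw [hr]
    refine (Complex.abs_re_le_norm _).trans ?_
    rw [norm_mul, norm_pow, em_norm, one_pow, one_mul]
    exact hRe θ
  have hbW : ∀ θ, |b θ - 1 + ε * r θ| ≤ C * ε ^ 2 := fun θ => by
    rw [hb, hr]
    exact hW ε h0 hεε θ
  have hL : ∀ θ : ℝ, Lin ζ (psi g ε (Complex.exp (θ * Complex.I))) = a θ + ε * c θ := by
    intro θ
    unfold Lin psi
    rw [em_inv, exp_conj, ha, hc, mul_add, Complex.add_re]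
    congr 1
    have e : (starRingEnd ℂ) ζ * ((ε : ℂ) * g (em θ)) = (ε : ℂ) * ((starRingEnd ℂ) ζ * g (em θ)) := by ring
    rw [e, Complex.re_ofReal_mul]
  have hlc : Continuous fun θ => a θ + ε * c θ := hac.add (continuous_const.mul hcc)
  have hlb : Continuous fun θ => (a θ + ε * c θ) * b θ := hlc.mul hbc
  have hllb : Continuous fun θ => (a θ + ε * c θ) ^ 2 * b θ := (hlc.pow 2).mul hbc
  obtain ⟨M, hM⟩ : ∃ M, M = ∫ θ in (0 : ℝ)..(2 * Real.pi), (a θ + ε * c θ) * b θ := ⟨_, rfl⟩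
  obtain ⟨B, hB⟩ : ∃ B, B = ∫ θ in (0 : ℝ)..(2 * Real.pi), b θ := ⟨_, rfl⟩
  obtain ⟨Q, hQ⟩ : ∃ Q, Q = ∫ θ in (0 : ℝ)..(2 * Real.pi), (a θ + ε * c θ) ^ 2 * b θ := ⟨_, rfl⟩
  have eM : bd (psi g ε) (Lin ζ) = M := by
    rw [hM]
    unfold bd
    refine intervalIntegral.integral_congr fun θ _ => ?_
    show Lin ζ (psi g ε (Complex.exp (θ * Complex.I))) * ‖deriv (psi g ε) (Complex.exp (θ * Complex.I))‖ =
      (a θ + ε * c θ) * b θ
    rw [hL θ, hb]
  have eB : bd (psi g ε) (fun _ => 1) = B := by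
    rw [hB]
    unfold bd
    refine intervalIntegral.integral_congr fun θ _ => ?_
    show 1 * ‖deriv (psi g ε) (Complex.exp (θ * Complex.I))‖ = b θ
    rw [one_mul, hb]
  have eD : bd (psi g ε) (fun z => (Lin ζ z - M / B) ^ 2) = Q - 2 * (M / B) * M + (M / B) ^ 2 * B := by
    have e1 : bd (psi g ε) (fun z => (Lin ζ z - M / B) ^ 2) = ∫ θ in (0 : ℝ)..(2 * Real.pi),
        ((a θ + ε * c θ) ^ 2 * b θ - 2 * (M / B) * ((a θ + ε * c θ) * b θ) + (M / B) ^ 2 * b θ) := by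
      unfold bd
      refine intervalIntegral.integral_congr fun θ _ => ?_
      show (Lin ζ (psi g ε (Complex.exp (θ * Complex.I))) - M / B) ^ 2 *
        ‖deriv (psi g ε) (Complex.exp (θ * Complex.I))‖ = (a θ + ε * c θ) ^ 2 * b θ -
          2 * (M / B) * ((a θ + ε * c θ) * b θ) + (M / B) ^ 2 * b θ
      rw [hL θ]
      have : ‖deriv (psi g ε) (Complex.exp (θ * Complex.I))‖ = b θ := by rw [hb]
      rw [this]
      ring
    rw [e1, intervalIntegral.integral_add, intervalIntegral.integral_sub, intervalIntegral.integral_const_mul,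
      intervalIntegral.integral_const_mul, ← hM, ← hB, ← hQ]
    · exact hllb.intervalIntegrable _ _
    · exact (continuous_const.mul hlb).intervalIntegrable _ _
    · exact (hllb.sub (continuous_const.mul hlb)).intervalIntegrable _ _
    · exact (continuous_const.mul hbc).intervalIntegrable _ _
  -- the bound for `B`
  have hBpi : Real.pi ≤ B := by
    have e1 : ∫ _θ in (0 : ℝ)..(2 * Real.pi), (1 / 2 : ℝ) ≤ B := by
      rw [hB]
      refine intervalIntegral.integral_mono_on (by positivity) (continuous_const.intervalIntegrable _ _)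
        (hbc.intervalIntegrable _ _) fun θ _ => ?_
      exact low (hrR θ) hC.le (hbW θ) h0 h1 h2
    rw [intervalIntegral.integral_const, smul_eq_mul] at e1
    linarith
  -- the bound for `M`
  have ea : ∫ θ in (0 : ℝ)..(2 * Real.pi), a θ = 0 := by
    have hG : Good (fun z => ζ * z) 2 := ⟨by norm_num, (differentiable_id.const_mul ζ).differentiableOn⟩
    have e1 := mv_re hMv hG
    rw [mul_zero, Complex.zero_re, mul_zero] at e1
    refine Eq.trans ?_ e1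
    refine intervalIntegral.integral_congr fun θ _ => ?_
    show a θ = (ζ * em θ).re
    rw [ha, ← Complex.conj_re (ζ * em θ), map_mul]
  have hMb : |M| ≤ 2 * Real.pi * C3 * ε := by
    have e1 : M = ∫ θ in (0 : ℝ)..(2 * Real.pi), ((a θ + ε * c θ) * b θ - a θ) := by
      rw [intervalIntegral.integral_sub (hlb.intervalIntegrable _ _) (hac.intervalIntegrable _ _), ea,
        sub_zero, hM]
    have e2 := intervalIntegral.norm_integral_le_of_norm_le_const (a := 0) (b := 2 * Real.pi) (C := C3 * ε)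
      (f := fun θ => (a θ + ε * c θ) * b θ - a θ) (fun θ _ => by
        rw [Real.norm_eq_abs, hC3]
        exact err2 (ha1 θ) (hcA θ) (hrR θ) hC.le (hbW θ) h0 h1)
    rw [← e1, Real.norm_eq_abs, sub_zero, abs_of_pos (by positivity : 0 < 2 * Real.pi)] at e2
    linarith
  -- the bound for `Q`
  have hQb : Real.pi + ε * (3 / 2 * Real.pi * ((starRingEnd ℂ) ζ ^ 2 * deriv g 0).re) -
      2 * Real.pi * C2 * ε ^ 2 ≤ Q := by
    have hH := mv_re hMv (good_Hc hg ζ ε)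
    have hHc : Continuous fun θ => (Hc g ζ ε (em θ)).re :=
      Complex.continuous_re.comp ((good_Hc hg ζ ε).hol.continuousOn.comp_continuous em_cont (em_mem hg.one_lt))
    have hH2 : Continuous fun θ => 1 / 2 + (Hc g ζ ε (em θ)).re := continuous_const.add hHc
    have e1 : ∫ θ in (0 : ℝ)..(2 * Real.pi), ((1 / 2 + (Hc g ζ ε (em θ)).re) - C2 * ε ^ 2) ≤ Q := by
      rw [hQ]
      refine intervalIntegral.integral_mono_on (by positivity)
        ((hH2.sub continuous_const).intervalIntegrable _ _)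
        (hllb.intervalIntegrable _ _) fun θ _ => ?_
      have e2 := point g hζ (em_norm θ) ε
      have e3 := err1 (ha1 θ) (hcA θ) (hrR θ) (hb0 θ) hC.le (hbW θ) h0 h1
      rw [← hC2] at e3
      refine le_trans (le_of_eq ?_) e3
      rw [← e2, ha, hc, hr]
    rw [intervalIntegral.integral_sub (hH2.intervalIntegrable _ _)
        (continuous_const.intervalIntegrable _ _),
      intervalIntegral.integral_add (continuous_const.intervalIntegrable _ _) (hHc.intervalIntegrable _ _), hH,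
      intervalIntegral.integral_const, intervalIntegral.integral_const, smul_eq_mul, smul_eq_mul, Hc_zero] at e1
    linarith
  rw [eM, eB, eD]
  have hB0 : 0 < B := hpi.trans_le hBpi
  have e1 : Q - 2 * (M / B) * M + (M / B) ^ 2 * B = Q - M ^ 2 / B := by
    field_simp
    ring
  rw [e1]
  have e2 : M ^ 2 ≤ (2 * Real.pi * C3 * ε) ^ 2 := by
    rw [← sq_abs M]
    exact pow_le_pow_left₀ (abs_nonneg M) hMb 2
  have e3 : M ^ 2 / B ≤ 4 * Real.pi * C3 ^ 2 * ε ^ 2 := by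
    rw [div_le_iff₀ hB0]
    have e4 : (2 * Real.pi * C3 * ε) ^ 2 = 4 * Real.pi * C3 ^ 2 * ε ^ 2 * Real.pi := by ring
    rw [e4] at e2
    exact e2.trans (mul_le_mul_of_nonneg_left hBpi (by positivity))
  have e5 : 0 ≤ ε ^ 2 := sq_nonneg ε
  nlinarith

end Pool.Agent.H74.DD
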