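import Pool.Agent.H74.DD.Fr

set_option autoImplicit false

/-!
# [H74 DD Wgt] first order of the weight
-/

namespace Pool.Agent.H74.DD

namespace WgtAux

open MeasureTheory Set Filter Topology

theorem first {x : ℂ} (hx : ‖x‖ ≤ 1 / 2) : |‖1 + x‖ - 1 - x.re| ≤ ‖x‖ ^ 2 := by
  have h1 : |x.re| ≤ 1 / 2 := (Complex.abs_re_le_norm x).trans hx
  have h2 : -(1 / 2) ≤ x.re := (abs_le.1 h1).1
  have h3 : ‖1 + x‖ ^ 2 = (1 + x.re) ^ 2 + x.im ^ 2 := by
    rw [← Complex.normSq_eq_norm_sq, Complex.normSq_apply]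
    simp only [Complex.add_re, Complex.one_re, Complex.add_im, Complex.one_im, zero_add]
    ring
  have h4 : ‖x‖ ^ 2 = x.re ^ 2 + x.im ^ 2 := by
    rw [← Complex.normSq_eq_norm_sq, Complex.normSq_apply]
    ring
  have h5 : 1 + x.re ≤ ‖1 + x‖ := by
    have h6 := Complex.re_le_norm (1 + x)
    simpa using h6
  have h7 : 0 ≤ ‖1 + x‖ - 1 - x.re := by linarith
  rw [abs_of_nonneg h7, h4]
  nlinarith [h3, h5, h7, sq_nonneg x.re, sq_nonneg x.im]

theorem norm_em (θ : ℝ) : ‖em θ‖ = 1 := by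
  rw [em]
  have h1 : -((θ : ℂ) * Complex.I) = ((-θ : ℝ) : ℂ) * Complex.I := by
    push_cast
    ring
  rw [h1, Complex.norm_exp_ofReal_mul_I]

theorem inv_eq (θ : ℝ) : (Complex.exp (θ * Complex.I))⁻¹ = em θ := by
  rw [em, Complex.exp_neg]

theorem deriv_eq (g : ℂ → ℂ) (ρ : ℝ) (h : Good g ρ) (ε θ : ℝ) :
    deriv (psi g ε) (Complex.exp (θ * Complex.I)) = 1 + -(ε * (em θ ^ 2 * deriv g (em θ))) := by
  have h0 : Complex.exp (θ * Complex.I) ≠ 0 := Complex.exp_ne_zero _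
  have h1 : HasDerivAt (fun w : ℂ => w⁻¹) (-(Complex.exp (θ * Complex.I) ^ 2)⁻¹)
      (Complex.exp (θ * Complex.I)) := hasDerivAt_inv h0
  have hmem : em θ ∈ Metric.ball (0 : ℂ) ρ := by
    rw [Metric.mem_ball, dist_zero_right, norm_em]
    exact h.one_lt
  have h2 : HasDerivAt g (deriv g (em θ)) ((Complex.exp (θ * Complex.I))⁻¹) := by
    rw [inv_eq]
    exact ((h.hol _ hmem).differentiableAt (Metric.isOpen_ball.mem_nhds hmem)).hasDerivAt
  have h3 := h2.comp (Complex.exp (θ * Complex.I)) h1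
  have h4 := (hasDerivAt_id (Complex.exp (θ * Complex.I))).add (h3.const_mul (ε : ℂ))
  have h5 : HasDerivAt (psi g ε)
      (1 + ε * (deriv g (em θ) * -(Complex.exp (θ * Complex.I) ^ 2)⁻¹))
      (Complex.exp (θ * Complex.I)) := h4
  rw [h5.deriv, ← inv_pow, inv_eq]
  ring

theorem bound (g : ℂ → ℂ) (ρ : ℝ) (h : Good g ρ) : ∃ M : ℝ, 0 ≤ M ∧ ∀ θ : ℝ, ‖deriv g (em θ)‖ ≤ M := by
  have h1 : ContinuousOn (deriv g) (Metric.ball 0 ρ) :=
    (h.hol.deriv Metric.isOpen_ball).continuousOn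
  have h2 : ContinuousOn (deriv g) (Metric.sphere 0 1) := h1.mono fun z hz => by
    rw [mem_sphere_zero_iff_norm] at hz
    rw [Metric.mem_ball, dist_zero_right, hz]
    exact h.one_lt
  obtain ⟨M, hM⟩ := (isCompact_sphere (0 : ℂ) 1).exists_bound_of_continuousOn h2
  have h3 : ∀ θ : ℝ, ‖deriv g (em θ)‖ ≤ M := fun θ =>
    hM _ (by rw [mem_sphere_zero_iff_norm, norm_em])
  exact ⟨M, (norm_nonneg _).trans (h3 0), h3⟩

end WgtAux

theorem wgt : WgtStmt := by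
  intro g ρ h
  obtain ⟨M, hM0, hM⟩ := WgtAux.bound g ρ h
  refine ⟨M ^ 2 + 1, 1 / (2 * (M + 1)), by positivity, by positivity, fun ε hε hε0 θ => ?_⟩
  obtain ⟨x, hx⟩ : ∃ x : ℂ, x = -(ε * (em θ ^ 2 * deriv g (em θ))) := ⟨_, rfl⟩
  have h1 : ‖x‖ ≤ ε * M := by
    rw [hx, norm_neg, norm_mul, norm_mul, norm_pow, WgtAux.norm_em, one_pow, one_mul,
      Complex.norm_real, Real.norm_eq_abs, abs_of_pos hε]
    exact mul_le_mul_of_nonneg_left (hM θ) hε.le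
  have h2 : ε * M ≤ 1 / 2 := by
    have h3 : ε * (2 * (M + 1)) < 1 := by
      rw [lt_div_iff₀ (by positivity)] at hε0
      exact hε0
    nlinarith
  have h4 := WgtAux.first (h1.trans h2)
  have h5 : x.re = -(ε * (em θ ^ 2 * deriv g (em θ)).re) := by
    rw [hx, Complex.neg_re, Complex.re_ofReal_mul]
  rw [WgtAux.deriv_eq g ρ h, ← hx]
  have h6 : ‖1 + x‖ - 1 + ε * (em θ ^ 2 * deriv g (em θ)).re = ‖1 + x‖ - 1 - x.re := by
    rw [h5]
    ring
  rw [h6]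
  refine h4.trans ?_
  have h7 : ‖x‖ ^ 2 ≤ (ε * M) ^ 2 := pow_le_pow_left₀ (norm_nonneg _) h1 2
  nlinarith [h7, sq_nonneg ε]

end Pool.Agent.H74.DD
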