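import Pool.Agent.H74.DD.Fr

set_option autoImplicit false

/-!
# [H74 DD Wi2] Wirtinger's inequality for functions orthogonal to `1`, `cos`, `sin` (helper96)

By Parseval, as `SX/Wi` of helper87.
-/

namespace Pool.Agent.H74.DD

open MeasureTheory Set Filter Topology

namespace Wi2Aux

private lemma memLp_of_continuous {g : ℝ → ℂ} (hg : Continuous g) (a b : ℝ) :
    MemLp g 2 (volume.restrict (Ioc a b)) := by
  obtain ⟨C, hC⟩ := isCompact_Icc.exists_bound_of_continuousOn (hg.continuousOn (s := Icc a b))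
  refine MemLp.of_bound hg.aestronglyMeasurable C ?_
  exact (ae_restrict_iff' measurableSet_Ioc).2 (Eventually.of_forall fun x hx => hC x (Ioc_subset_Icc_self hx))

private lemma norm_sq_ofReal (x : ℝ) : ‖(x : ℂ)‖ ^ 2 = x ^ 2 := by
  rw [Complex.norm_real, Real.norm_eq_abs, sq_abs]

private lemma coe_four (n : ℤ) (hn : n = 1 ∨ n = -1) (x : ℝ) :
    fourier (-n) (x : AddCircle (2 * Real.pi - 0)) =
      ((Real.cos x : ℝ) : ℂ) - (n : ℂ) * Complex.I * ((Real.sin x : ℝ) : ℂ) := by
  have hp : (Real.pi : ℂ) ≠ 0 := by exact_mod_cast Real.pi_ne_zero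
  rw [fourier_coe_apply]
  rcases hn with rfl | rfl
  · have e3 : 2 * (Real.pi : ℂ) * Complex.I * ((-1 : ℤ) : ℂ) * (x : ℂ) / ((2 * Real.pi - 0 : ℝ) : ℂ) =
        -(x : ℂ) * Complex.I := by
      push_cast
      field_simp
      ring
    rw [e3, Complex.exp_mul_I, Complex.cos_neg, Complex.sin_neg]
    push_cast
    ring
  · have e3 : 2 * (Real.pi : ℂ) * Complex.I * ((- -1 : ℤ) : ℂ) * (x : ℂ) / ((2 * Real.pi - 0 : ℝ) : ℂ) =
        (x : ℂ) * Complex.I := by
      push_cast
      field_simp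
      ring
    rw [e3, Complex.exp_mul_I]
    push_cast
    ring

end Wi2Aux

theorem wi2 : Wi2Stmt := by
  intro f hf hper hm hcos hsin
  have hpi : (0 : ℝ) < 2 * Real.pi := by positivity
  set F : ℝ → ℂ := fun x => ((f x : ℝ) : ℂ) with hF
  set F' : ℝ → ℂ := fun x => ((deriv f x : ℝ) : ℂ) with hF'
  have hfc : Continuous f := hf.continuous
  have hdc : Continuous (deriv f) := hf.continuous_deriv le_rfl
  have hFc : Continuous F := Complex.continuous_ofReal.comp hfc
  have hF'c : Continuous F' := Complex.continuous_ofReal.comp hdc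
  have hder : ∀ x : ℝ, HasDerivAt F (F' x) x := by
    intro x
    have h1 : HasDerivAt f (deriv f x) x := (hf.differentiable (by norm_num)).differentiableAt.hasDerivAt
    exact h1.ofReal_comp
  have h1 := hasSum_sq_fourierCoeffOn hpi (Wi2Aux.memLp_of_continuous hFc 0 (2 * Real.pi))
  have h2 := hasSum_sq_fourierCoeffOn hpi (Wi2Aux.memLp_of_continuous hF'c 0 (2 * Real.pi))
  have h0 : fourierCoeffOn hpi F 0 = 0 := by
    rw [fourierCoeffOn_eq_integral]
    have e : ∫ x in (0 : ℝ)..(2 * Real.pi), fourier (-0) (x : AddCircle (2 * Real.pi - 0)) • F x = 0 := by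
      have e1 : ∀ x : ℝ, fourier (-0) (x : AddCircle (2 * Real.pi - 0)) • F x = ((f x : ℝ) : ℂ) := by
        intro x
        simp [hF]
      simp_rw [e1]
      rw [intervalIntegral.integral_ofReal, hm, Complex.ofReal_zero]
    rw [e, smul_zero]
  have h01 : ∀ n : ℤ, n = 1 ∨ n = -1 → fourierCoeffOn hpi F n = 0 := by
    intro n hn
    rw [fourierCoeffOn_eq_integral]
    have e : ∫ x in (0 : ℝ)..(2 * Real.pi), fourier (-n) (x : AddCircle (2 * Real.pi - 0)) • F x = 0 := by
      have e1 : ∀ x : ℝ, fourier (-n) (x : AddCircle (2 * Real.pi - 0)) • F x =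
          ((f x * Real.cos x : ℝ) : ℂ) - (n : ℂ) * Complex.I * ((f x * Real.sin x : ℝ) : ℂ) := by
        intro x
        rw [Wi2Aux.coe_four n hn x, smul_eq_mul, hF]
        push_cast
        ring
      simp_rw [e1]
      have i1 : IntervalIntegrable (fun x => ((f x * Real.cos x : ℝ) : ℂ)) volume 0 (2 * Real.pi) :=
        (Complex.continuous_ofReal.comp (hfc.mul Real.continuous_cos)).intervalIntegrable _ _
      have i2 : IntervalIntegrable (fun x => (n : ℂ) * Complex.I * ((f x * Real.sin x : ℝ) : ℂ)) volume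
          0 (2 * Real.pi) :=
        (continuous_const.mul (Complex.continuous_ofReal.comp (hfc.mul Real.continuous_sin))).intervalIntegrable _ _
      rw [intervalIntegral.integral_sub i1 i2, intervalIntegral.integral_const_mul,
        intervalIntegral.integral_ofReal, intervalIntegral.integral_ofReal, hcos, hsin]
      simp
    rw [e, smul_zero]
  have hend : F (2 * Real.pi) - F 0 = 0 := by
    have := hper 0
    rw [zero_add] at this
    simp [hF, this]
  have hle : ∀ n : ℤ, 4 * ‖fourierCoeffOn hpi F n‖ ^ 2 ≤ ‖fourierCoeffOn hpi F' n‖ ^ 2 := by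
    intro n
    rcases eq_or_ne n 0 with rfl | hn
    · rw [h0, norm_zero, zero_pow (by norm_num), mul_zero]
      positivity
    · by_cases hn1 : n = 1 ∨ n = -1
      · rw [h01 n hn1, norm_zero, zero_pow (by norm_num), mul_zero]
        positivity
      · push Not at hn1
        have h3 := fourierCoeffOn_of_hasDerivAt hpi hn (fun x _ => hder x) (hF'c.intervalIntegrable 0 (2 * Real.pi))
        rw [hend, mul_zero, zero_sub] at h3
        have hnR : (2 : ℝ) ≤ |(n : ℝ)| := by
          have : (2 : ℤ) ≤ |n| := by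
            rcases lt_or_gt_of_ne hn with h | h
            · rw [abs_of_neg h]
              omega
            · rw [abs_of_pos h]
              omega
          exact_mod_cast this
        have h4 : ‖fourierCoeffOn hpi F n‖ * |(n : ℝ)| = ‖fourierCoeffOn hpi F' n‖ := by
          rw [h3]
          simp only [norm_mul, norm_neg, norm_div, norm_one, Complex.norm_I, Complex.norm_real, mul_one, Complex.norm_ofNat]
          have e1 : ‖((2 * Real.pi : ℝ) : ℂ) - ((0 : ℝ) : ℂ)‖ = 2 * Real.pi := by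
            rw [Complex.ofReal_zero, sub_zero, Complex.norm_real, Real.norm_eq_abs, abs_of_pos hpi]
          have e2 : ‖Real.pi‖ = Real.pi := by rw [Real.norm_eq_abs, abs_of_pos Real.pi_pos]
          have e3 : ‖(n : ℂ)‖ = |(n : ℝ)| := Complex.norm_intCast n
          rw [e1, e2, e3]
          have hn0 : |(n : ℝ)| ≠ 0 := by linarith
          have hp0 : Real.pi ≠ 0 := Real.pi_ne_zero
          field_simp
        have h5 : 2 * ‖fourierCoeffOn hpi F n‖ ≤ ‖fourierCoeffOn hpi F' n‖ := by
          rw [← h4, mul_comm]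
          exact mul_le_mul_of_nonneg_left hnR (norm_nonneg _)
        have h6 := pow_le_pow_left₀ (mul_nonneg (by norm_num) (norm_nonneg _)) h5 2
        calc 4 * ‖fourierCoeffOn hpi F n‖ ^ 2 = (2 * ‖fourierCoeffOn hpi F n‖) ^ 2 := by ring
          _ ≤ _ := h6
  have h6 := hasSum_le hle (h1.mul_left 4) h2
  rw [sub_zero, smul_eq_mul, smul_eq_mul] at h6
  have e1 : ∀ x : ℝ, ‖F x‖ ^ 2 = f x ^ 2 := fun x => Wi2Aux.norm_sq_ofReal _
  have e2 : ∀ x : ℝ, ‖F' x‖ ^ 2 = (deriv f x) ^ 2 := fun x => Wi2Aux.norm_sq_ofReal _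
  simp_rw [e1, e2] at h6
  have h7 : (2 * Real.pi)⁻¹ * (4 * ∫ x in (0 : ℝ)..(2 * Real.pi), f x ^ 2) ≤
      (2 * Real.pi)⁻¹ * ∫ x in (0 : ℝ)..(2 * Real.pi), (deriv f x) ^ 2 := by
    calc _ = 4 * ((2 * Real.pi)⁻¹ * ∫ x in (0 : ℝ)..(2 * Real.pi), f x ^ 2) := by ring
      _ ≤ _ := h6
  exact le_of_mul_le_mul_left h7 (inv_pos.mpr hpi)

end Pool.Agent.H74.DD
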