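import Pool.Agent.H74.DD.Fr

set_option autoImplicit false

/-!
# [H74 DD Wt2] the weight on the circle
-/

namespace Pool.Agent.H74.DD.Wt2

open MeasureTheory Set Filter Topology Pool.Agent.H74.SX Pool.Agent.H74.DD

theorem em_re (θ : ℝ) : (em θ).re = Real.cos θ := by
  unfold em
  have h : -((θ : ℂ) * Complex.I) = ((-θ : ℝ) : ℂ) * Complex.I := by push_cast; ring
  rw [h, Complex.exp_ofReal_mul_I_re, Real.cos_neg]

theorem em_im (θ : ℝ) : (em θ).im = - Real.sin θ := by
  unfold em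
  have h : -((θ : ℂ) * Complex.I) = ((-θ : ℝ) : ℂ) * Complex.I := by push_cast; ring
  rw [h, Complex.exp_ofReal_mul_I_im, Real.sin_neg]

theorem em_norm (θ : ℝ) : ‖em θ‖ = 1 := by
  unfold em
  have h : -((θ : ℂ) * Complex.I) = ((-θ : ℝ) : ℂ) * Complex.I := by push_cast; ring
  rw [h, Complex.norm_exp_ofReal_mul_I]

theorem em_cont : Continuous em := by
  unfold em
  fun_prop

theorem dg_hol {g : ℂ → ℂ} {ρ : ℝ} (hg : Good g ρ) : DifferentiableOn ℂ (deriv g) (Metric.ball 0 ρ) :=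
  hg.hol.deriv Metric.isOpen_ball

theorem em_mem {g : ℂ → ℂ} {ρ : ℝ} (hg : Good g ρ) (θ : ℝ) : em θ ∈ Metric.ball (0 : ℂ) ρ := by
  rw [mem_ball_zero_iff, em_norm]
  exact hg.one_lt

theorem dg_cont {g : ℂ → ℂ} {ρ : ℝ} (hg : Good g ρ) : Continuous (fun θ => deriv g (em θ)) :=
  (dg_hol hg).continuousOn.comp_continuous em_cont (em_mem hg)

theorem b_cont {g : ℂ → ℂ} {ρ : ℝ} (hg : Good g ρ) (ε : ℝ) :
    Continuous (fun θ : ℝ => ‖deriv (psi g ε) (Complex.exp (θ * Complex.I))‖) := by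
  have hρ : 0 < ρ := lt_trans one_pos hg.one_lt
  have hopen : IsOpen {w : ℂ | ρ⁻¹ < ‖w‖} := isOpen_lt continuous_const continuous_norm
  have hd : DifferentiableOn ℂ (psi g ε) {w : ℂ | ρ⁻¹ < ‖w‖} := by
    intro w hw
    have hw' : ρ⁻¹ < ‖w‖ := hw
    have hw0 : w ≠ 0 := by
      rintro rfl
      rw [norm_zero] at hw'
      exact absurd hw' (not_lt.2 (inv_nonneg.2 hρ.le))
    have h1 : w⁻¹ ∈ Metric.ball (0 : ℂ) ρ := by
      rw [mem_ball_zero_iff, norm_inv]
      exact inv_lt_of_inv_lt₀ hρ hw'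
    have h2 : DifferentiableAt ℂ g w⁻¹ := (hg.hol w⁻¹ h1).differentiableAt (Metric.isOpen_ball.mem_nhds h1)
    have h3 : DifferentiableAt ℂ (fun w : ℂ => g w⁻¹) w := h2.comp w (differentiableAt_inv hw0)
    have h4 : DifferentiableAt ℂ (psi g ε) w := by
      unfold psi
      exact differentiableAt_id.add (h3.const_mul _)
    exact h4.differentiableWithinAt
  have hc : ContinuousOn (deriv (psi g ε)) {w : ℂ | ρ⁻¹ < ‖w‖} := (hd.deriv hopen).continuousOn
  refine (hc.comp_continuous (f := fun θ : ℝ => Complex.exp (θ * Complex.I)) (by fun_prop) ?_).norm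
  intro θ
  show ρ⁻¹ < ‖Complex.exp (θ * Complex.I)‖
  rw [Complex.norm_exp_ofReal_mul_I]
  exact inv_lt_one_of_one_lt₀ hg.one_lt

theorem dg_bdd {g : ℂ → ℂ} {ρ : ℝ} (hg : Good g ρ) : ∃ K : ℝ, 0 ≤ K ∧ ∀ θ, ‖deriv g (em θ)‖ ≤ K := by
  have hs : Metric.closedBall (0 : ℂ) 1 ⊆ Metric.ball 0 ρ := Metric.closedBall_subset_ball hg.one_lt
  obtain ⟨K, hK⟩ := (isCompact_closedBall (0 : ℂ) 1).exists_bound_of_continuousOn
    ((dg_hol hg).continuousOn.mono hs)
  refine ⟨max K 0, le_max_right _ _, fun θ => (hK (em θ) ?_).trans (le_max_left _ _)⟩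
  rw [mem_closedBall_zero_iff, em_norm]

/-- the weight of first order -/
noncomputable def X (g : ℂ → ℂ) (θ : ℝ) : ℝ := (em θ ^ 2 * deriv g (em θ)).re

theorem X_cont {g : ℂ → ℂ} {ρ : ℝ} (hg : Good g ρ) : Continuous (X g) := by
  unfold X
  exact Complex.continuous_re.comp ((em_cont.pow 2).mul (dg_cont hg))

theorem X_le {g : ℂ → ℂ} {K : ℝ} (hK : ∀ θ, ‖deriv g (em θ)‖ ≤ K) (θ : ℝ) : |X g θ| ≤ K := by
  unfold X
  refine (Complex.abs_re_le_norm _).trans ?_
  rw [norm_mul, norm_pow, em_norm, one_pow, one_mul]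
  exact hK θ

theorem int_re {G : ℂ → ℂ} (hG : Continuous (fun θ => G (em θ))) {a : ℂ}
    (h : ∫ θ in (0 : ℝ)..(2 * Real.pi), G (em θ) = a) : ∫ θ in (0 : ℝ)..(2 * Real.pi), (G (em θ)).re = a.re := by
  rw [← h]
  have h1 := Complex.reCLM.intervalIntegral_comp_comm (μ := volume) (hG.intervalIntegrable 0 (2 * Real.pi))
  exact h1

theorem int_im {G : ℂ → ℂ} (hG : Continuous (fun θ => G (em θ))) {a : ℂ}
    (h : ∫ θ in (0 : ℝ)..(2 * Real.pi), G (em θ) = a) : ∫ θ in (0 : ℝ)..(2 * Real.pi), (G (em θ)).im = a.im := by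
  rw [← h]
  have h1 := Complex.imCLM.intervalIntegral_comp_comm (μ := volume) (hG.intervalIntegrable 0 (2 * Real.pi))
  exact h1

theorem int_v2 (hMv : MvStmt) {g : ℂ → ℂ} {ρ : ℝ} (hg : Good g ρ) (A B : ℝ) :
    ∫ θ in (0 : ℝ)..(2 * Real.pi), (A * Real.cos θ + B * Real.sin θ) ^ 2 * X g θ =
      Real.pi / 2 * ((A ^ 2 - B ^ 2) * (deriv g 0).re + 2 * A * B * (deriv g 0).im) := by
  have hd := dg_hol hg
  have g0 : Good (deriv g) ρ := ⟨hg.one_lt, hd⟩
  have g2 : Good (fun z => z ^ 2 * deriv g z) ρ := ⟨hg.one_lt, (differentiableOn_id.pow 2).mul hd⟩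
  have g4 : Good (fun z => z ^ 4 * deriv g z) ρ := ⟨hg.one_lt, (differentiableOn_id.pow 4).mul hd⟩
  have c0 := dg_cont hg
  have c2 : Continuous (fun θ => em θ ^ 2 * deriv g (em θ)) := (em_cont.pow 2).mul c0
  have c4 : Continuous (fun θ => em θ ^ 4 * deriv g (em θ)) := (em_cont.pow 4).mul c0
  have m0 := hMv _ ρ g0
  have m2 := hMv _ ρ g2
  have m4 := hMv _ ρ g4
  have r2 := int_re (G := fun z => z ^ 2 * deriv g z) c2 m2
  have r4 := int_re (G := fun z => z ^ 4 * deriv g z) c4 m4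
  have i4 := int_im (G := fun z => z ^ 4 * deriv g z) c4 m4
  have r0 := int_re (G := deriv g) c0 m0
  have i0 := int_im (G := deriv g) c0 m0
  have z2 : (2 * (Real.pi : ℂ) * ((0 : ℂ) ^ 2 * deriv g 0)).re = 0 := by simp
  have z4 : (2 * (Real.pi : ℂ) * ((0 : ℂ) ^ 4 * deriv g 0)).re = 0 := by simp
  have z4' : (2 * (Real.pi : ℂ) * ((0 : ℂ) ^ 4 * deriv g 0)).im = 0 := by simp
  have z0 : (2 * (Real.pi : ℂ) * deriv g 0).re = 2 * Real.pi * (deriv g 0).re := by
    have : (2 * (Real.pi : ℂ)) = ((2 * Real.pi : ℝ) : ℂ) := by push_cast; ring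
    rw [this, Complex.re_ofReal_mul]
  have z0' : (2 * (Real.pi : ℂ) * deriv g 0).im = 2 * Real.pi * (deriv g 0).im := by
    have : (2 * (Real.pi : ℂ)) = ((2 * Real.pi : ℝ) : ℂ) := by push_cast; ring
    rw [this, Complex.im_ofReal_mul]
  rw [z2] at r2
  rw [z4] at r4
  rw [z4'] at i4
  rw [z0] at r0
  rw [z0'] at i0
  have hpt : ∀ θ : ℝ, (A * Real.cos θ + B * Real.sin θ) ^ 2 * X g θ =
      (A ^ 2 + B ^ 2) / 2 * (em θ ^ 2 * deriv g (em θ)).re +
      ((A ^ 2 - B ^ 2) / 4 * (em θ ^ 4 * deriv g (em θ)).re +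
      (-(A * B / 2) * (em θ ^ 4 * deriv g (em θ)).im +
      ((A ^ 2 - B ^ 2) / 4 * (deriv g (em θ)).re + (A * B / 2) * (deriv g (em θ)).im))) := by
    intro θ
    have hre := em_re θ
    have him := em_im θ
    have hcs := Real.cos_sq_add_sin_sq θ
    unfold X
    generalize em θ = z at *
    generalize deriv g z = h at *
    obtain ⟨x, y⟩ := z
    obtain ⟨p, q⟩ := h
    simp only at hre him
    subst hre
    subst him
    generalize Real.cos θ = C at *
    generalize Real.sin θ = S at *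
    have e2 : ((⟨C, -S⟩ : ℂ) ^ 2) = ⟨C ^ 2 - S ^ 2, -(2 * C * S)⟩ := by
      rw [pow_two]
      apply Complex.ext
      · simp only [Complex.mul_re]; ring
      · simp only [Complex.mul_im]; ring
    have e4 : ((⟨C, -S⟩ : ℂ) ^ 4) = ⟨(C ^ 2 - S ^ 2) ^ 2 - (2 * C * S) ^ 2, -(2 * (C ^ 2 - S ^ 2) * (2 * C * S))⟩ := by
      have : ((⟨C, -S⟩ : ℂ) ^ 4) = ((⟨C, -S⟩ : ℂ) ^ 2) * ((⟨C, -S⟩ : ℂ) ^ 2) := by ring
      rw [this, e2]
      apply Complex.ext
      · simp only [Complex.mul_re]; ring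
      · simp only [Complex.mul_im]; ring
    rw [e2, e4]
    simp only [Complex.mul_re, Complex.mul_im]
    have hv2 : (A * C + B * S) ^ 2 = (A ^ 2 + B ^ 2) / 2 + (A ^ 2 - B ^ 2) / 2 * (C ^ 2 - S ^ 2) +
        A * B * (2 * C * S) := by
      linear_combination (A ^ 2 / 2 + B ^ 2 / 2) * hcs
    have hC2 : (C ^ 2 - S ^ 2) ^ 2 + (2 * C * S) ^ 2 = 1 := by
      linear_combination (C ^ 2 + S ^ 2 + 1) * hcs
    linear_combination ((C ^ 2 - S ^ 2) * p + (2 * C * S) * q) * hv2 +
      ((A ^ 2 - B ^ 2) / 4 * p + A * B / 2 * q) * hC2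
  have k2 : Continuous (fun θ => (em θ ^ 2 * deriv g (em θ)).re) := Complex.continuous_re.comp c2
  have k4 : Continuous (fun θ => (em θ ^ 4 * deriv g (em θ)).re) := Complex.continuous_re.comp c4
  have k4' : Continuous (fun θ => (em θ ^ 4 * deriv g (em θ)).im) := Complex.continuous_im.comp c4
  have k0 : Continuous (fun θ => (deriv g (em θ)).re) := Complex.continuous_re.comp c0
  have k0' : Continuous (fun θ => (deriv g (em θ)).im) := Complex.continuous_im.comp c0
  simp only [hpt]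
  rw [intervalIntegral.integral_add ((by fun_prop : Continuous _).intervalIntegrable _ _)
      ((by fun_prop : Continuous _).intervalIntegrable _ _),
    intervalIntegral.integral_add ((by fun_prop : Continuous _).intervalIntegrable _ _)
      ((by fun_prop : Continuous _).intervalIntegrable _ _),
    intervalIntegral.integral_add ((by fun_prop : Continuous _).intervalIntegrable _ _)
      ((by fun_prop : Continuous _).intervalIntegrable _ _),
    intervalIntegral.integral_add ((by fun_prop : Continuous _).intervalIntegrable _ _)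
      ((by fun_prop : Continuous _).intervalIntegrable _ _),
    intervalIntegral.integral_const_mul, intervalIntegral.integral_const_mul,
    intervalIntegral.integral_const_mul, intervalIntegral.integral_const_mul,
    intervalIntegral.integral_const_mul, r2, r4, i4, r0, i0]
  ring

theorem i_cos : ∫ θ in (0 : ℝ)..(2 * Real.pi), Real.cos θ = 0 := by
  rw [integral_cos, Real.sin_two_pi, Real.sin_zero, sub_zero]

theorem i_sin : ∫ θ in (0 : ℝ)..(2 * Real.pi), Real.sin θ = 0 := by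
  rw [integral_sin, Real.cos_two_pi, Real.cos_zero, sub_self]

theorem i_cc : ∫ θ in (0 : ℝ)..(2 * Real.pi), Real.cos θ ^ 2 = Real.pi := by
  rw [integral_cos_sq, Real.sin_two_pi, Real.sin_zero]
  ring

theorem i_ss : ∫ θ in (0 : ℝ)..(2 * Real.pi), Real.sin θ ^ 2 = Real.pi := by
  rw [integral_sin_sq, Real.sin_two_pi, Real.sin_zero]
  ring

theorem i_sc : ∫ θ in (0 : ℝ)..(2 * Real.pi), Real.sin θ * Real.cos θ = 0 := by
  rw [integral_sin_mul_cos₁, Real.sin_two_pi, Real.sin_zero]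
  ring

/-- integrals of the remainder -/
theorem i_wc {U : ℝ → ℝ} (hU : Continuous U) :
    ∫ θ in (0 : ℝ)..(2 * Real.pi), (U θ - mm U - ca U * Real.cos θ - sa U * Real.sin θ) * Real.cos θ = 0 := by
  have h1 : ∀ θ, (U θ - mm U - ca U * Real.cos θ - sa U * Real.sin θ) * Real.cos θ =
      U θ * Real.cos θ - mm U * Real.cos θ - ca U * Real.cos θ ^ 2 - sa U * (Real.sin θ * Real.cos θ) := by
    intro θ; ring
  simp only [h1]
  rw [intervalIntegral.integral_sub ((by fun_prop : Continuous _).intervalIntegrable _ _)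
      ((by fun_prop : Continuous _).intervalIntegrable _ _),
    intervalIntegral.integral_sub ((by fun_prop : Continuous _).intervalIntegrable _ _)
      ((by fun_prop : Continuous _).intervalIntegrable _ _),
    intervalIntegral.integral_sub ((by fun_prop : Continuous _).intervalIntegrable _ _)
      ((by fun_prop : Continuous _).intervalIntegrable _ _),
    intervalIntegral.integral_const_mul, intervalIntegral.integral_const_mul, intervalIntegral.integral_const_mul,
    i_cos, i_cc, i_sc]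
  have h2 : ca U * Real.pi = ∫ y in (0 : ℝ)..(2 * Real.pi), U y * Real.cos y := by
    unfold ca
    exact div_mul_cancel₀ _ Real.pi_ne_zero
  linarith

theorem i_ws {U : ℝ → ℝ} (hU : Continuous U) :
    ∫ θ in (0 : ℝ)..(2 * Real.pi), (U θ - mm U - ca U * Real.cos θ - sa U * Real.sin θ) * Real.sin θ = 0 := by
  have h1 : ∀ θ, (U θ - mm U - ca U * Real.cos θ - sa U * Real.sin θ) * Real.sin θ =
      U θ * Real.sin θ - mm U * Real.sin θ - ca U * (Real.sin θ * Real.cos θ) - sa U * Real.sin θ ^ 2 := by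
    intro θ; ring
  simp only [h1]
  rw [intervalIntegral.integral_sub ((by fun_prop : Continuous _).intervalIntegrable _ _)
      ((by fun_prop : Continuous _).intervalIntegrable _ _),
    intervalIntegral.integral_sub ((by fun_prop : Continuous _).intervalIntegrable _ _)
      ((by fun_prop : Continuous _).intervalIntegrable _ _),
    intervalIntegral.integral_sub ((by fun_prop : Continuous _).intervalIntegrable _ _)
      ((by fun_prop : Continuous _).intervalIntegrable _ _),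
    intervalIntegral.integral_const_mul, intervalIntegral.integral_const_mul, intervalIntegral.integral_const_mul,
    i_sin, i_ss, i_sc]
  have h2 : sa U * Real.pi = ∫ y in (0 : ℝ)..(2 * Real.pi), U y * Real.sin y := by
    unfold sa
    exact div_mul_cancel₀ _ Real.pi_ne_zero
  linarith

theorem i_vw {U : ℝ → ℝ} (hU : Continuous U) (A B : ℝ) :
    ∫ θ in (0 : ℝ)..(2 * Real.pi), (A * Real.cos θ + B * Real.sin θ) *
      (U θ - mm U - ca U * Real.cos θ - sa U * Real.sin θ) = 0 := by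
  have h1 : ∀ θ, (A * Real.cos θ + B * Real.sin θ) * (U θ - mm U - ca U * Real.cos θ - sa U * Real.sin θ) =
      A * ((U θ - mm U - ca U * Real.cos θ - sa U * Real.sin θ) * Real.cos θ) +
      B * ((U θ - mm U - ca U * Real.cos θ - sa U * Real.sin θ) * Real.sin θ) := by
    intro θ; ring
  simp only [h1]
  rw [intervalIntegral.integral_add ((by fun_prop : Continuous _).intervalIntegrable _ _)
      ((by fun_prop : Continuous _).intervalIntegrable _ _),
    intervalIntegral.integral_const_mul, intervalIntegral.integral_const_mul, i_wc hU, i_ws hU]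
  ring

theorem i_vv (A B : ℝ) :
    ∫ θ in (0 : ℝ)..(2 * Real.pi), (A * Real.cos θ + B * Real.sin θ) ^ 2 = Real.pi * (A ^ 2 + B ^ 2) := by
  have h1 : ∀ θ, (A * Real.cos θ + B * Real.sin θ) ^ 2 =
      A ^ 2 * Real.cos θ ^ 2 + (2 * A * B) * (Real.sin θ * Real.cos θ) + B ^ 2 * Real.sin θ ^ 2 := by
    intro θ; ring
  simp only [h1]
  rw [intervalIntegral.integral_add ((by fun_prop : Continuous _).intervalIntegrable _ _)
      ((by fun_prop : Continuous _).intervalIntegrable _ _),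
    intervalIntegral.integral_add ((by fun_prop : Continuous _).intervalIntegrable _ _)
      ((by fun_prop : Continuous _).intervalIntegrable _ _),
    intervalIntegral.integral_const_mul, intervalIntegral.integral_const_mul, intervalIntegral.integral_const_mul,
    i_cc, i_ss, i_sc]
  ring

theorem QQ_eq {U : ℝ → ℝ} (hU : Continuous U) :
    QQ U = Real.pi * (ca U ^ 2 + sa U ^ 2) +
      2 * ∫ θ in (0 : ℝ)..(2 * Real.pi), (U θ - mm U - ca U * Real.cos θ - sa U * Real.sin θ) ^ 2 := by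
  unfold QQ
  have h1 : ∀ θ, (U θ - mm U) ^ 2 = (ca U * Real.cos θ + sa U * Real.sin θ) ^ 2 +
      2 * ((ca U * Real.cos θ + sa U * Real.sin θ) * (U θ - mm U - ca U * Real.cos θ - sa U * Real.sin θ)) +
      (U θ - mm U - ca U * Real.cos θ - sa U * Real.sin θ) ^ 2 := by
    intro θ; ring
  simp only [h1]
  rw [intervalIntegral.integral_add ((by fun_prop : Continuous _).intervalIntegrable _ _)
      ((by fun_prop : Continuous _).intervalIntegrable _ _),
    intervalIntegral.integral_add ((by fun_prop : Continuous _).intervalIntegrable _ _)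
      ((by fun_prop : Continuous _).intervalIntegrable _ _),
    intervalIntegral.integral_const_mul, i_vw hU, i_vv]
  ring

theorem c_le (c : ℂ) (A B : ℝ) :
    -((A ^ 2 - B ^ 2) * c.re + 2 * A * B * c.im) ≤ (A ^ 2 + B ^ 2) * ‖c‖ := by
  have h1 : ((⟨A, -B⟩ : ℂ) ^ 2 * c).re = (A ^ 2 - B ^ 2) * c.re + 2 * A * B * c.im := by
    rw [pow_two, Complex.mul_re, Complex.mul_re, Complex.mul_im]
    ring
  have h2 : ‖((⟨A, -B⟩ : ℂ) ^ 2 * c)‖ = (A ^ 2 + B ^ 2) * ‖c‖ := by
    rw [norm_mul, norm_pow, ← Complex.normSq_eq_norm_sq, Complex.normSq_mk]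
    ring
  rw [← h1, ← h2]
  exact (neg_le_abs _).trans (Complex.abs_re_le_norm _)

end Pool.Agent.H74.DD.Wt2

namespace Pool.Agent.H74.DD

open MeasureTheory Set Filter Topology Pool.Agent.H74.SX Wt2

theorem wt2 (hw : WgtStmt) (hMv : MvStmt) : Wt2Stmt := by
  intro g ρ hg
  obtain ⟨C₁, ε₁, hC₁, hε₁, hwt⟩ := hw g ρ hg
  obtain ⟨K, hK0, hK⟩ := dg_bdd hg
  have hC₂ : 0 < K + C₁ := by linarith
  refine ⟨C₁ + 4 * (K + C₁) ^ 2, min ε₁ (min 1 (1 / (2 * (K + C₁)))), by positivity,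
    lt_min hε₁ (lt_min one_pos (by positivity)), ?_⟩
  intro ε hε hεlt U hU h0
  have hε1 : ε < ε₁ := lt_of_lt_of_le hεlt (min_le_left _ _)
  have hε2 : ε < 1 := lt_of_lt_of_le hεlt ((min_le_right _ _).trans (min_le_left _ _))
  have hε3 : (K + C₁) * ε ≤ 1 / 2 := by
    have h1 : ε < 1 / (2 * (K + C₁)) := lt_of_lt_of_le hεlt ((min_le_right _ _).trans (min_le_right _ _))
    rw [lt_div_iff₀ (by positivity)] at h1
    linarith
  have hbc := b_cont hg ε
  have hXc := X_cont hg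
  have hb1 : ∀ θ : ℝ, |‖deriv (psi g ε) (Complex.exp (θ * Complex.I))‖ - 1 + ε * X g θ| ≤ C₁ * ε ^ 2 :=
    fun θ => hwt ε hε hε1 θ
  have hb0 : ∀ θ : ℝ, 0 ≤ ‖deriv (psi g ε) (Complex.exp (θ * Complex.I))‖ := fun θ => norm_nonneg _
  generalize hbdef : (fun θ : ℝ => ‖deriv (psi g ε) (Complex.exp (θ * Complex.I))‖) = b at *
  have hbv : ∀ θ : ℝ, ‖deriv (psi g ε) (Complex.exp (θ * Complex.I))‖ = b θ := fun θ => congrFun hbdef θ
  simp only [hbv] at hb1 hb0 h0 ⊢
  have hX : ∀ θ, |X g θ| ≤ K := X_le hK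
  set m := mm U with hm
  set A := ca U with hA
  set B := sa U with hB
  -- the first step
  have step1 : ∫ θ in (0 : ℝ)..(2 * Real.pi), U θ ^ 2 * b θ ≤
      ∫ θ in (0 : ℝ)..(2 * Real.pi), (U θ - m) ^ 2 * b θ := by
    have h1 : ∀ θ, (U θ - m) ^ 2 * b θ = U θ ^ 2 * b θ + (-(2 * m)) * (U θ * b θ) + m ^ 2 * b θ := by
      intro θ; ring
    simp only [h1]
    rw [intervalIntegral.integral_add ((by fun_prop : Continuous _).intervalIntegrable _ _)
        ((by fun_prop : Continuous _).intervalIntegrable _ _),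
      intervalIntegral.integral_add ((by fun_prop : Continuous _).intervalIntegrable _ _)
        ((by fun_prop : Continuous _).intervalIntegrable _ _),
      intervalIntegral.integral_const_mul, intervalIntegral.integral_const_mul, h0]
    have h2 : 0 ≤ ∫ θ in (0 : ℝ)..(2 * Real.pi), b θ :=
      intervalIntegral.integral_nonneg (by positivity) (fun θ _ => hb0 θ)
    nlinarith [mul_nonneg (sq_nonneg m) h2]
  -- pointwise
  have pt : ∀ θ, (U θ - m) ^ 2 * b θ ≤
      (1 + C₁ * ε ^ 2 + 4 * (K + C₁) ^ 2 * ε ^ 2) * (A * Real.cos θ + B * Real.sin θ) ^ 2 +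
      (-ε) * ((A * Real.cos θ + B * Real.sin θ) ^ 2 * X g θ) +
      2 * ((A * Real.cos θ + B * Real.sin θ) * (U θ - m - A * Real.cos θ - B * Real.sin θ)) +
      7 / 4 * (U θ - m - A * Real.cos θ - B * Real.sin θ) ^ 2 := by
    intro θ
    obtain ⟨hl, hr⟩ := abs_le.1 (hb1 θ)
    obtain ⟨hXl, hXr⟩ := abs_le.1 (hX θ)
    have e1 : (U θ - m) ^ 2 = ((A * Real.cos θ + B * Real.sin θ) +
        (U θ - m - A * Real.cos θ - B * Real.sin θ)) ^ 2 := by ring
    rw [e1]
    generalize A * Real.cos θ + B * Real.sin θ = v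
    generalize U θ - m - A * Real.cos θ - B * Real.sin θ = w
    generalize b θ = t at *
    generalize X g θ = x at *
    have hεε : C₁ * ε ^ 2 ≤ C₁ * ε := by nlinarith
    have hxe : -(K * ε) ≤ ε * x ∧ ε * x ≤ K * ε := ⟨by nlinarith, by nlinarith⟩
    have t1 : t - 1 ≤ (K + C₁) * ε := by linarith [hxe.1]
    have t2 : -((K + C₁) * ε) ≤ t - 1 := by linarith [hxe.2]
    have ht2 : (t - 1) ^ 2 ≤ ((K + C₁) * ε) ^ 2 := sq_le_sq' t2 t1
    have s1 : v ^ 2 * t ≤ v ^ 2 * (1 - ε * x + C₁ * ε ^ 2) :=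
      mul_le_mul_of_nonneg_left (by linarith) (sq_nonneg v)
    have s2 : 2 * (t - 1) * v * w ≤ 4 * (t - 1) ^ 2 * v ^ 2 + w ^ 2 / 4 := by
      nlinarith [sq_nonneg (2 * (t - 1) * v - w / 2)]
    have s2' : 4 * (t - 1) ^ 2 * v ^ 2 ≤ 4 * ((K + C₁) * ε) ^ 2 * v ^ 2 :=
      mul_le_mul_of_nonneg_right (by linarith) (sq_nonneg v)
    have s3 : w ^ 2 * t ≤ w ^ 2 * (3 / 2) := mul_le_mul_of_nonneg_left (by linarith) (sq_nonneg w)
    nlinarith
  have step2 : ∫ θ in (0 : ℝ)..(2 * Real.pi), (U θ - m) ^ 2 * b θ ≤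
      ∫ θ in (0 : ℝ)..(2 * Real.pi),
      ((1 + C₁ * ε ^ 2 + 4 * (K + C₁) ^ 2 * ε ^ 2) * (A * Real.cos θ + B * Real.sin θ) ^ 2 +
      (-ε) * ((A * Real.cos θ + B * Real.sin θ) ^ 2 * X g θ) +
      2 * ((A * Real.cos θ + B * Real.sin θ) * (U θ - m - A * Real.cos θ - B * Real.sin θ)) +
      7 / 4 * (U θ - m - A * Real.cos θ - B * Real.sin θ) ^ 2) := by
    refine intervalIntegral.integral_mono_on (by positivity)
      ((by fun_prop : Continuous _).intervalIntegrable _ _) ((by fun_prop : Continuous _).intervalIntegrable _ _)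
      (fun θ _ => pt θ)
  rw [intervalIntegral.integral_add ((by fun_prop : Continuous _).intervalIntegrable _ _)
      ((by fun_prop : Continuous _).intervalIntegrable _ _),
    intervalIntegral.integral_add ((by fun_prop : Continuous _).intervalIntegrable _ _)
      ((by fun_prop : Continuous _).intervalIntegrable _ _),
    intervalIntegral.integral_add ((by fun_prop : Continuous _).intervalIntegrable _ _)
      ((by fun_prop : Continuous _).intervalIntegrable _ _),
    intervalIntegral.integral_const_mul, intervalIntegral.integral_const_mul, intervalIntegral.integral_const_mul,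
    intervalIntegral.integral_const_mul, i_vw hU, i_vv, int_v2 hMv hg] at step2
  rw [QQ_eq hU]
  have hc := c_le (deriv g 0) A B
  have hw2 : 0 ≤ ∫ θ in (0 : ℝ)..(2 * Real.pi), (U θ - m - A * Real.cos θ - B * Real.sin θ) ^ 2 :=
    intervalIntegral.integral_nonneg (by positivity) (fun θ _ => sq_nonneg _)
  rw [← hm, ← hA, ← hB]
  generalize (∫ θ in (0 : ℝ)..(2 * Real.pi), (U θ - m - A * Real.cos θ - B * Real.sin θ) ^ 2) = W at *
  have hpi := Real.pi_pos
  have hnc : 0 ≤ ‖deriv g 0‖ := norm_nonneg _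
  have hc' : (-ε) * (Real.pi / 2 * ((A ^ 2 - B ^ 2) * (deriv g 0).re + 2 * A * B * (deriv g 0).im)) ≤
      ε * (Real.pi / 2) * ((A ^ 2 + B ^ 2) * ‖deriv g 0‖) := by
    have := mul_le_mul_of_nonneg_left hc (by positivity : 0 ≤ ε * (Real.pi / 2))
    linarith
  have hW : 7 / 4 * W ≤ (1 + ε * (‖deriv g 0‖ / 2) + (C₁ + 4 * (K + C₁) ^ 2) * ε ^ 2) * (2 * W) := by
    have h5 : 0 ≤ ε * (‖deriv g 0‖ / 2) + (C₁ + 4 * (K + C₁) ^ 2) * ε ^ 2 := by positivity
    nlinarith [mul_nonneg h5 hw2]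
  calc ∫ θ in (0 : ℝ)..(2 * Real.pi), U θ ^ 2 * b θ ≤ _ := step1.trans step2
    _ ≤ _ := by nlinarith

end Pool.Agent.H74.DD
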