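import Pool.Agent.H74.DD.AsmQ
import Pool.Agent.H74.DD.Ch
import Pool.Agent.H74.DD.Mv
import Pool.Agent.H74.DD.Wgt
import Pool.Agent.H74.DD.ArA
import Pool.Agent.H74.DD.ArB
import Pool.Agent.H74.DD.Up
import Pool.Agent.H74.DD.CfiL
import Pool.Agent.H74.DD.Wi2
import Pool.Agent.H74.DD.St2
import Pool.Agent.H74.DD.Wt2
import Pool.Agent.H74.DD.Low2
import Pool.Agent.H74.DD.CfeK
import Pool.Agent.H74.SX.Cv

set_option autoImplicit false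

/-!
# [H74 DD Fin] the facts of the hand-in (helper74)
-/

namespace Pool.Agent.H74.DD

open MeasureTheory Set Filter Topology Pool.Agent.H74.SX

theorem fin {g : ℂ → ℂ} {ρ : ℝ} (hg : Good g ρ) :
    (∃ C ε₀ : ℝ, 0 < ε₀ ∧ ∀ ε : ℝ, 0 < ε → ε < ε₀ → Chart (psi g ε) ∧
      minmax (psi g ε) (Inn (psi g ε)) (fun u => ContDiff ℝ 1 u) 2 ≤
        ((1 - 3 / 2 * ‖deriv g 0‖ * ε + C * ε ^ 2 : ℝ) : EReal) ∧
      ((1 - 1 / 2 * ‖deriv g 0‖ * ε - C * ε ^ 2 : ℝ) : EReal) ≤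
        minmax (psi g ε) (Ext (psi g ε)) (ExtAdm (psi g ε)) 2) ∧
    (deriv g 0 ≠ 0 → ∃ ε₀ : ℝ, 0 < ε₀ ∧ ∀ ε : ℝ, 0 < ε → ε < ε₀ →
      minmax (psi g ε) (Inn (psi g ε)) (fun u => ContDiff ℝ 1 u) 2 <
        minmax (psi g ε) (Ext (psi g ε)) (ExtAdm (psi g ε)) 2) :=
  both ch (ar arA mv) (up wgt mv) cfiL (low2 cv (st2 wi2) (wt2 wgt mv)) cfeK hg

end Pool.Agent.H74.DD
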