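import Pool.Agent.H74.SX.Fr

set_option autoImplicit false

/-!
# [H74 DD Fr] small analytic deformations of the disk (MP_bddfa3_an): statements of the modules (helper74)
-/

namespace Pool.Agent.H74.DD

open MeasureTheory Set Filter Topology Pool.Agent.H74.SX

/-- the deformed exterior map -/
noncomputable def psi (g : ℂ → ℂ) (ε : ℝ) (w : ℂ) : ℂ := w + ε * g w⁻¹

/-- `g` is holomorphic on `|z| < ρ`, `ρ > 1` -/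
structure Good (g : ℂ → ℂ) (ρ : ℝ) : Prop where
  one_lt : 1 < ρ
  hol : DifferentiableOn ℂ g (Metric.ball 0 ρ)

/-- the linear function in the direction `ζ` -/
noncomputable def Lin (ζ z : ℂ) : ℝ := ((starRingEnd ℂ) ζ * z).re

/-- `e^{-iθ}` -/
noncomputable def em (θ : ℝ) : ℂ := Complex.exp (-(θ * Complex.I))

/-- `Ch`: chart. Proof: `K` a Lipschitz constant of `g` on the closed unit disk (convex, `g'` bounded), `|w⁻¹ - w'⁻¹| ≤ |w - w'|` for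
`|w|, |w'| ≥ 1`; `ψ' (w) = 1 - ε g'(w⁻¹) / w²`; any `1/ρ < r < 1` for `hol`; `ψ(w)/w → 1`. -/
def ChStmt : Prop := ∀ (g : ℂ → ℂ) (ρ : ℝ), Good g ρ → ∃ ε₀ : ℝ, 0 < ε₀ ∧ ∀ ε : ℝ, 0 < ε → ε < ε₀ → Chart (psi g ε)

/-- `Mv`: mean value property (Cauchy), e.g. `circleAverage`, or the circle integral of `G z / z`; `θ ↦ -θ`. -/
def MvStmt : Prop := ∀ (G : ℂ → ℂ) (ρ : ℝ), Good G ρ → ∫ θ in (0 : ℝ)..(2 * Real.pi), G (em θ) = 2 * Real.pi * G 0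

/-- `Wgt`: first order of the weight: `ψ' (e^{iθ}) = 1 - ε e^{-2iθ} g'(e^{-iθ})`, and `| |1 + x| - 1 - Re x | ≤ 2 |x|²` for `|x| ≤ 1/2`. -/
def WgtStmt : Prop := ∀ (g : ℂ → ℂ) (ρ : ℝ), Good g ρ → ∃ C ε₀ : ℝ, 0 < C ∧ 0 < ε₀ ∧ ∀ ε : ℝ, 0 < ε → ε < ε₀ → ∀ θ : ℝ,
  |‖deriv (psi g ε) (Complex.exp (θ * Complex.I))‖ - 1 + ε * (em θ ^ 2 * deriv g (em θ)).re| ≤ C * ε ^ 2

/-- `ArA`: a point of `Ω` in the direction `φ` from `ε g(0)` has distance less than `1 + ε q(φ) + C ε²`. Proof: otherwise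
`w = t e^{iφ} - ε (g(w⁻¹) - g 0)` has a solution with `|w| ≥ 1/s` (`1 < s < ρ`) by Banach's fixed point theorem (`ε` small, the map is `ε K s²`
Lipschitz and maps `|w| ≥ 1/s` into itself because `t ≥ 1 - C' ε`); `|w| ≥ Re (e^{-iφ} w) = t - ε Re (e^{-iφ} (g(w⁻¹) - g 0))`; this is `≥ 1`
if `t ≥ 1 + 2 ε G`, `G = max |g - g 0|`; otherwise `|w - e^{iφ}| ≤ C'' ε`, so it is `≥ t - ε q(φ) - C ε² ≥ 1`. So the point is `ψ(w)`, `|w| ≥ 1`. -/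
def ArAStmt : Prop := ∀ (g : ℂ → ℂ) (ρ : ℝ), Good g ρ → ∃ C ε₀ : ℝ, 0 < C ∧ 0 < ε₀ ∧ ∀ ε : ℝ, 0 < ε → ε < ε₀ →
  ∀ φ t : ℝ, 0 ≤ t → ε * g 0 + t * Complex.exp (φ * Complex.I) ∈ Inn (psi g ε) →
    t < 1 + ε * (em φ * (g (em φ) - g 0)).re + C * ε ^ 2

/-- `ArB` (uses `ArA`, `Mv`): the area. Proof: translate by `ε g 0`, polar coordinates (`Complex.integral_comp_polarCoord_symm` or the `lintegral` version):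
the area is at most `∫ (1 + ε q + C ε²)² / 2`, and `∫ q = 0` by `Mv` for `z (g z - g 0)`. -/
def ArStmt : Prop := ∀ (g : ℂ → ℂ) (ρ : ℝ), Good g ρ → ∃ C ε₀ : ℝ, 0 < C ∧ 0 < ε₀ ∧ ∀ ε : ℝ, 0 < ε → ε < ε₀ →
  volume.real (Inn (psi g ε)) ≤ Real.pi + C * ε ^ 2

/-- `Up` (uses `Wgt`, `Mv`): first order of the boundary integral. Proof: `L (ψ (e^{iθ})) = Re (ζ̄ e^{iθ}) + ε Re (ζ̄ g(e^{-iθ})) = L₀ + ε L₁`,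
weight `1 + ε b₁ + O(ε²)`, `b₁ = - Re (e^{-2iθ} g'(e^{-iθ}))`; the mean is `ε m₁ + O(ε²)`, `|m₁| ≤ C`, because `∫ L₀ = 0`; so the integral is
`∫ L₀² + ε (2 ∫ L₀ L₁ + ∫ L₀² b₁) + O(ε²)`, `∫ L₀² = π`, `∫ L₀ L₁ = π Re (ζ̄² g'(0))`, `∫ L₀² b₁ = - (π/2) Re (ζ̄² g'(0))` by `Mv` for
`z g`, `dslope g 0`, `g'`, `z² g'`, `z⁴ g'` (`Re a Re b = Re (a b + a b̄) / 2`). -/
def UpStmt : Prop := ∀ (g : ℂ → ℂ) (ρ : ℝ), Good g ρ → ∀ ζ : ℂ, ‖ζ‖ = 1 → ∃ C ε₀ : ℝ, 0 < C ∧ 0 < ε₀ ∧ ∀ ε : ℝ, 0 < ε → ε < ε₀ →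
  Real.pi + ε * (3 / 2 * Real.pi * ((starRingEnd ℂ) ζ ^ 2 * deriv g 0).re) - C * ε ^ 2 ≤
    bd (psi g ε) (fun z => (Lin ζ z - bd (psi g ε) (Lin ζ) / bd (psi g ε) (fun _ => 1)) ^ 2)

/-- `CfiL`: as `SX/Cfi` (helper4), with `Lin ζ` in place of `re` (`‖fderiv‖ = 1`). -/
def CfiLStmt : Prop := ∀ (ψ : ℂ → ℂ), Chart ψ → ∀ ζ : ℂ, ‖ζ‖ = 1 → ∀ D : ℝ, 0 < D →
  D = bd ψ (fun z => (Lin ζ z - bd ψ (Lin ζ) / bd ψ (fun _ => 1)) ^ 2) →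
  minmax ψ (Inn ψ) (fun u => ContDiff ℝ 1 u) 2 ≤ ((volume.real (Inn ψ) / D : ℝ) : EReal)

/-- `Wi2`: Wirtinger's inequality for functions orthogonal to `1, cos, sin` (as `SX/Wi`, by Parseval, `n² ≥ 4` for `|n| ≥ 2`). -/
def Wi2Stmt : Prop := ∀ f : ℝ → ℝ, ContDiff ℝ 1 f → Function.Periodic f (2 * Real.pi) →
  ∫ x in (0 : ℝ)..(2 * Real.pi), f x = 0 → ∫ x in (0 : ℝ)..(2 * Real.pi), f x * Real.cos x = 0 →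
  ∫ x in (0 : ℝ)..(2 * Real.pi), f x * Real.sin x = 0 →
  4 * ∫ x in (0 : ℝ)..(2 * Real.pi), f x ^ 2 ≤ ∫ x in (0 : ℝ)..(2 * Real.pi), (deriv f x) ^ 2

/-- mean and first coefficients of `U` -/
noncomputable def mm (U : ℝ → ℝ) : ℝ := (∫ y in (0 : ℝ)..(2 * Real.pi), U y) / (2 * Real.pi)
noncomputable def ca (U : ℝ → ℝ) : ℝ := (∫ y in (0 : ℝ)..(2 * Real.pi), U y * Real.cos y) / Real.pi
noncomputable def sa (U : ℝ → ℝ) : ℝ := (∫ y in (0 : ℝ)..(2 * Real.pi), U y * Real.sin y) / Real.pi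

/-- `∫ (U - m)² + ∫ (U - m - A cos - B sin)²` -/
noncomputable def QQ (U : ℝ → ℝ) : ℝ :=
  (∫ x in (0 : ℝ)..(2 * Real.pi), (U x - mm U) ^ 2) +
    ∫ x in (0 : ℝ)..(2 * Real.pi), (U x - mm U - ca U * Real.cos x - sa U * Real.sin x) ^ 2

/-- `St2` (uses `Wi2`): refined trace inequality in the half strip (as `SX/St`, helper30). With `V = m + A cos + B sin + W` on the line `Re = t`:
`∫ V_t² + V_θ² ≥ π (A'² + B'² + A² + B²) + ∫ W_t² + W_θ²`, `∫ W_θ² ≥ 4 ∫ W²` (`Wi2`), so with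
`G t = π (A² + B²) + 2 ∫ W² = ∫ (V - m)² + ∫ W²`: `- G' = - 2π (A A' + B B') - 4 ∫ W W_t ≤ ∫ V_t² + V_θ²`. Integrate from `0` to `T`, `G T` small
for some large `T` because `G ≤ ∫ V_θ²`. -/
def St2Stmt : Prop := ∀ (r : ℝ) (V : ℂ → ℝ), r < 0 → ContDiffOn ℝ 1 V {ζ | r < ζ.re} →
  (∀ ζ, V (ζ + 2 * Real.pi * Complex.I) = V ζ) → IntegrableOn (fun ζ => ‖fderiv ℝ V ζ‖ ^ 2) Str →
  QQ (fun θ => V (θ * Complex.I)) ≤ ∫ ζ in Str, ‖fderiv ℝ V ζ‖ ^ 2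

/-- `Wt2` (uses `Wgt`, `Mv`): the weight on the circle. Proof: `U = m + v + w`, `v = A cos + B sin`, `QQ U = |v|² + 2 |w|²`; `∫ U² b ≤ ∫ (U - m)² b` as
`∫ U b = 0`; `∫ v² b₁ ≤ (|c|/2) |v|²` because `v² = (A²+B²)/2 + (A²-B²)/2 cos 2θ + A B sin 2θ` and `∫ b₁ = 0`, `∫ b₁ e^{2iθ} = - π c` up to conjugation (`Mv`);
`2 ∫ v w b = 2 ∫ v w (b - 1) ≤ 2 C ε |v| |w| ≤ 4 C² ε² |v|² + |w|²/4`, `∫ w² b ≤ (3/2) |w|²`. -/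
def Wt2Stmt : Prop := ∀ (g : ℂ → ℂ) (ρ : ℝ), Good g ρ → ∃ C ε₀ : ℝ, 0 < C ∧ 0 < ε₀ ∧ ∀ ε : ℝ, 0 < ε → ε < ε₀ →
  ∀ U : ℝ → ℝ, Continuous U →
    ∫ θ in (0 : ℝ)..(2 * Real.pi), U θ * ‖deriv (psi g ε) (Complex.exp (θ * Complex.I))‖ = 0 →
    ∫ θ in (0 : ℝ)..(2 * Real.pi), U θ ^ 2 * ‖deriv (psi g ε) (Complex.exp (θ * Complex.I))‖ ≤
      (1 + ε * (‖deriv g 0‖ / 2) + C * ε ^ 2) * QQ U

/-- `Low2` (uses `Cv`, `St2`, `Wt2`; model `SX/Low`, helper53) -/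
def Low2Stmt : Prop := ∀ (g : ℂ → ℂ) (ρ : ℝ), Good g ρ → ∃ C ε₀ : ℝ, 0 < C ∧ 0 < ε₀ ∧ ∀ ε : ℝ, 0 < ε → ε < ε₀ →
  Chart (psi g ε) → ∀ u : ℂ → ℝ, ExtAdm (psi g ε) u → bd (psi g ε) u = 0 →
    bd (psi g ε) (fun z => u z ^ 2) ≤ (1 + ε * (‖deriv g 0‖ / 2) + C * ε ^ 2) * dir (Ext (psi g ε)) u

/-- `CfeK`: as `SX/Cfe` (helper53), with the inequality of `Low` as a hypothesis with a constant `K`. -/
def CfeKStmt : Prop := ∀ (ψ : ℂ → ℂ), Chart ψ → ∀ K : ℝ, 0 < K →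
  (∀ u : ℂ → ℝ, ExtAdm ψ u → bd ψ u = 0 → bd ψ (fun z => u z ^ 2) ≤ K * dir (Ext ψ) u) →
  ((1 / K : ℝ) : EReal) ≤ minmax ψ (Ext ψ) (ExtAdm ψ) 2

end Pool.Agent.H74.DD
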