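import Pool.Agent.H74.DD.Fr

set_option autoImplicit false

/-!
# [H74 DD UpI] integrals of products on the circle (helper54)
-/

namespace Pool.Agent.H74.DD

open MeasureTheory Set Filter Topology Pool.Agent.H74.SX

namespace UpI

theorem norm_em (θ : ℝ) : ‖em θ‖ = 1 := by
  rw [em]
  have h1 : -((θ : ℂ) * Complex.I) = ((-θ : ℝ) : ℂ) * Complex.I := by
    push_cast
    ring
  rw [h1, Complex.norm_exp_ofReal_mul_I]

theorem exp_eq (θ : ℝ) : Complex.exp (θ * Complex.I) = (starRingEnd ℂ) (em θ) := by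
  rw [em, ← Complex.exp_conj]
  congr 1
  simp

theorem sq_em (θ : ℝ) : (em θ).re ^ 2 + (em θ).im ^ 2 = 1 := by
  have h := Complex.sq_norm (em θ)
  rw [norm_em, Complex.normSq_apply] at h
  linarith

theorem cont_em : Continuous em := by
  unfold em
  fun_prop

theorem cont (G : ℂ → ℂ) (ρ : ℝ) (h : Good G ρ) : Continuous fun θ : ℝ => G (em θ) := by
  have h1 : ContinuousOn G (Metric.ball 0 ρ) := h.hol.continuousOn
  refine h1.comp_continuous cont_em fun θ => ?_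
  rw [Metric.mem_ball, dist_zero_right, norm_em]
  exact h.one_lt

theorem re_mv (hMv : MvStmt) (G : ℂ → ℂ) (ρ : ℝ) (h : Good G ρ) (c : ℂ) :
    ∫ θ in (0 : ℝ)..(2 * Real.pi), (c * G (em θ)).re = (c * (2 * Real.pi * G 0)).re := by
  have hc := cont G ρ h
  have h1 := Complex.reCLM.intervalIntegral_comp_comm
    (hc.const_mul c |>.intervalIntegrable (μ := volume) 0 (2 * Real.pi))
  simp only [Complex.reCLM_apply] at h1
  have e : (fun θ : ℝ => c * G (em θ)) = fun θ => c * G (em θ) := rfl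
  rw [intervalIntegral.integral_const_mul, hMv G ρ h] at h1
  exact h1

theorem good_id (g : ℂ → ℂ) (ρ : ℝ) (h : Good g ρ) : Good (fun z => z) ρ :=
  ⟨h.one_lt, differentiableOn_id⟩

theorem good_dslope (g : ℂ → ℂ) (ρ : ℝ) (h : Good g ρ) : Good (dslope g 0) ρ := by
  refine ⟨h.one_lt, ?_⟩
  refine (Complex.differentiableOn_dslope (Metric.ball_mem_nhds 0 ?_)).2 h.hol
  linarith [h.one_lt]

theorem good_deriv (g : ℂ → ℂ) (ρ : ℝ) (h : Good g ρ) : Good (deriv g) ρ :=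
  ⟨h.one_lt, h.hol.deriv Metric.isOpen_ball⟩

theorem good_pow (g : ℂ → ℂ) (ρ : ℝ) (h : Good g ρ) (n : ℕ) : Good (fun z => z ^ n * g z) ρ :=
  ⟨h.one_lt, (differentiableOn_pow n).mul h.hol⟩

theorem good_mul (g : ℂ → ℂ) (ρ : ℝ) (h : Good g ρ) : Good (fun z => z * g z) ρ :=
  ⟨h.one_lt, differentiableOn_id.mul h.hol⟩

theorem cre (G : ℂ → ℂ) (ρ : ℝ) (h : Good G ρ) (c : ℂ) :
    IntervalIntegrable (fun θ : ℝ => (c * G (em θ)).re) volume 0 (2 * Real.pi) :=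
  (Complex.continuous_re.comp ((cont G ρ h).const_mul c)).intervalIntegrable _ _

end UpI

open UpI in
theorem int_mul (hMv : MvStmt) (g : ℂ → ℂ) (ρ : ℝ) (h : Good g ρ) (ζ : ℂ) :
    ∫ θ in (0 : ℝ)..(2 * Real.pi), ((starRingEnd ℂ) ζ * Complex.exp (θ * Complex.I)).re *
      ((starRingEnd ℂ) ζ * g (em θ)).re = Real.pi * ((starRingEnd ℂ) ζ ^ 2 * deriv g 0).re := by
  have e : ∀ θ : ℝ, ((starRingEnd ℂ) ζ * Complex.exp (θ * Complex.I)).re *
      ((starRingEnd ℂ) ζ * g (em θ)).re =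
      (((Complex.normSq ζ / 2 : ℝ) : ℂ) * (em θ * g (em θ))).re +
      ((((1 / 2 : ℝ) : ℂ) * (starRingEnd ℂ) ζ ^ 2) * dslope g 0 (em θ)).re +
      ((((1 / 2 : ℝ) : ℂ) * (starRingEnd ℂ) ((starRingEnd ℂ) ζ ^ 2 * g 0)) * em θ).re := by
    intro θ
    have hu := sq_em θ
    have hne : em θ ≠ 0 := by
      intro h0
      have := norm_em θ
      rw [h0, norm_zero] at this
      norm_num at this
    have hg : g (em θ) = g 0 + em θ * dslope g 0 (em θ) := by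
      rw [dslope_of_ne _ hne, slope_def_field, sub_zero]
      field_simp
      ring
    rw [exp_eq]
    obtain ⟨D, hD⟩ : ∃ D, D = dslope g 0 (em θ) := ⟨_, rfl⟩
    rw [hg, ← hD]
    obtain ⟨u, hu'⟩ : ∃ u, u = em θ := ⟨_, rfl⟩
    rw [← hu'] at hu ⊢
    obtain ⟨a, b⟩ := ζ
    obtain ⟨x, y⟩ := u
    obtain ⟨r, s⟩ := D
    rcases hg0 : g 0 with ⟨p, q⟩
    simp only [Complex.normSq_mk, pow_two] at hu ⊢
    simp only [Complex.mul_re, Complex.mul_im, Complex.add_re, Complex.add_im, Complex.conj_re,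
      Complex.conj_im, Complex.ofReal_re, Complex.ofReal_im]
    linear_combination (1 / 2 * ((a ^ 2 - b ^ 2) * r + 2 * a * b * s)) * hu
  rw [intervalIntegral.integral_congr fun θ _ => e θ,
    intervalIntegral.integral_add ((cre _ ρ (good_mul g ρ h) _).add (cre _ ρ (good_dslope g ρ h) _))
      (cre _ ρ (good_id g ρ h) _),
    intervalIntegral.integral_add (cre _ ρ (good_mul g ρ h) _) (cre _ ρ (good_dslope g ρ h) _),
    re_mv hMv _ ρ (good_mul g ρ h), re_mv hMv _ ρ (good_dslope g ρ h), re_mv hMv _ ρ (good_id g ρ h),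
    dslope_same]
  have e2 : (((1 / 2 : ℝ) : ℂ) * (starRingEnd ℂ) ζ ^ 2) * (2 * Real.pi * deriv g 0) =
      (Real.pi : ℂ) * ((starRingEnd ℂ) ζ ^ 2 * deriv g 0) := by
    push_cast
    ring
  rw [e2, Complex.re_ofReal_mul]
  simp

open UpI in
theorem int_sq (hMv : MvStmt) (g : ℂ → ℂ) (ρ : ℝ) (h : Good g ρ) (ζ : ℂ) :
    ∫ θ in (0 : ℝ)..(2 * Real.pi), ((starRingEnd ℂ) ζ * Complex.exp (θ * Complex.I)).re ^ 2 *
      (em θ ^ 2 * deriv g (em θ)).re = Real.pi / 2 * ((starRingEnd ℂ) ζ ^ 2 * deriv g 0).re := by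
  have hd := good_deriv g ρ h
  have e : ∀ θ : ℝ, ((starRingEnd ℂ) ζ * Complex.exp (θ * Complex.I)).re ^ 2 *
      (em θ ^ 2 * deriv g (em θ)).re =
      (((Complex.normSq ζ / 2 : ℝ) : ℂ) * (em θ ^ 2 * deriv g (em θ))).re +
      ((ζ ^ 2 / 4) * (em θ ^ 4 * deriv g (em θ))).re +
      (((starRingEnd ℂ) ζ ^ 2 / 4) * deriv g (em θ)).re := by
    intro θ
    have hu := sq_em θ
    rw [exp_eq]
    obtain ⟨D, hD⟩ : ∃ D, D = deriv g (em θ) := ⟨_, rfl⟩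
    rw [← hD]
    obtain ⟨u, hu'⟩ : ∃ u, u = em θ := ⟨_, rfl⟩
    rw [← hu'] at hu ⊢
    obtain ⟨a, b⟩ := ζ
    obtain ⟨x, y⟩ := u
    obtain ⟨r, s⟩ := D
    have e4 : (4 : ℂ) = ((4 : ℝ) : ℂ) := by norm_num
    simp only [Complex.normSq_mk] at hu ⊢
    rw [show (⟨a, b⟩ : ℂ) ^ 2 / 4 = ⟨(a ^ 2 - b ^ 2) / 4, a * b / 2⟩ by
      rw [e4]; apply Complex.ext <;> simp [pow_two] <;> ring,
      show (starRingEnd ℂ) (⟨a, b⟩ : ℂ) ^ 2 / 4 = ⟨(a ^ 2 - b ^ 2) / 4, -(a * b / 2)⟩ by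
      rw [e4]; apply Complex.ext <;> simp [pow_two] <;> ring,
      show (⟨x, y⟩ : ℂ) ^ 4 = ⟨(x ^ 2 - y ^ 2) ^ 2 - 4 * x ^ 2 * y ^ 2, 4 * x * y * (x ^ 2 - y ^ 2)⟩ by
      apply Complex.ext <;> simp [pow_succ] <;> ring,
      show (⟨x, y⟩ : ℂ) ^ 2 = ⟨x ^ 2 - y ^ 2, 2 * x * y⟩ by
      apply Complex.ext <;> simp [pow_two] <;> ring]
    simp only [Complex.mul_re, Complex.mul_im, Complex.conj_re, Complex.conj_im,
      Complex.ofReal_re, Complex.ofReal_im]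
    linear_combination ((a ^ 2 + b ^ 2) / 2 * ((x ^ 2 - y ^ 2) * r - 2 * x * y * s) +
      1 / 4 * (x ^ 2 + y ^ 2 + 1) * ((a ^ 2 - b ^ 2) * r + 2 * a * b * s)) * hu
  rw [intervalIntegral.integral_congr fun θ _ => e θ,
    intervalIntegral.integral_add ((cre _ ρ (good_pow _ ρ hd 2) _).add (cre _ ρ (good_pow _ ρ hd 4) _))
      (cre _ ρ hd _),
    intervalIntegral.integral_add (cre _ ρ (good_pow _ ρ hd 2) _) (cre _ ρ (good_pow _ ρ hd 4) _),
    re_mv hMv _ ρ (good_pow _ ρ hd 2), re_mv hMv _ ρ (good_pow _ ρ hd 4), re_mv hMv _ ρ hd]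
  have e2 : ((starRingEnd ℂ) ζ ^ 2 / 4) * (2 * Real.pi * deriv g 0) =
      ((Real.pi / 2 : ℝ) : ℂ) * ((starRingEnd ℂ) ζ ^ 2 * deriv g 0) := by
    push_cast
    ring
  rw [e2, Complex.re_ofReal_mul]
  simp

open UpI in
theorem int_lin (hMv : MvStmt) (ζ : ℂ) :
    ∫ θ in (0 : ℝ)..(2 * Real.pi), ((starRingEnd ℂ) ζ * Complex.exp (θ * Complex.I)).re = 0 := by
  have hid : Good (fun z => z) 2 := ⟨one_lt_two, differentiableOn_id⟩
  have e : ∀ θ : ℝ, ((starRingEnd ℂ) ζ * Complex.exp (θ * Complex.I)).re = (ζ * em θ).re := by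
    intro θ
    rw [exp_eq, ← map_mul, Complex.conj_re]
  rw [intervalIntegral.integral_congr fun θ _ => e θ, re_mv hMv _ 2 hid]
  simp

open UpI in
theorem int_lin_sq (hMv : MvStmt) (ζ : ℂ) :
    ∫ θ in (0 : ℝ)..(2 * Real.pi), ((starRingEnd ℂ) ζ * Complex.exp (θ * Complex.I)).re ^ 2 =
      Real.pi * ‖ζ‖ ^ 2 := by
  have hone : Good (fun _ => 1) 2 := ⟨one_lt_two, differentiableOn_const _⟩
  have hsq : Good (fun z => z ^ 2 * 1) 2 := good_pow _ 2 hone 2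
  have e : ∀ θ : ℝ, ((starRingEnd ℂ) ζ * Complex.exp (θ * Complex.I)).re ^ 2 =
      (((Complex.normSq ζ / 2 : ℝ) : ℂ) * 1).re + ((ζ ^ 2 / 2) * (em θ ^ 2 * 1)).re := by
    intro θ
    have hu := sq_em θ
    rw [exp_eq]
    obtain ⟨u, hu'⟩ : ∃ u, u = em θ := ⟨_, rfl⟩
    rw [← hu'] at hu ⊢
    obtain ⟨a, b⟩ := ζ
    obtain ⟨x, y⟩ := u
    have e4 : (2 : ℂ) = ((2 : ℝ) : ℂ) := by norm_num
    simp only [Complex.normSq_mk] at hu ⊢
    rw [show (⟨a, b⟩ : ℂ) ^ 2 / 2 = ⟨(a ^ 2 - b ^ 2) / 2, a * b⟩ by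
      rw [e4]; apply Complex.ext <;> simp [pow_two] <;> ring,
      show (⟨x, y⟩ : ℂ) ^ 2 = ⟨x ^ 2 - y ^ 2, 2 * x * y⟩ by
      apply Complex.ext <;> simp [pow_two] <;> ring]
    simp only [Complex.mul_re, Complex.mul_im, Complex.conj_re, Complex.conj_im,
      Complex.ofReal_re, Complex.ofReal_im, Complex.one_re, Complex.one_im]
    linear_combination ((a ^ 2 + b ^ 2) / 2) * hu
  rw [intervalIntegral.integral_congr fun θ _ => e θ,
    intervalIntegral.integral_add (cre _ 2 hone _) (cre _ 2 hsq _),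
    re_mv hMv _ 2 hone, re_mv hMv _ 2 hsq, Complex.sq_norm]
  simp
  ring

end Pool.Agent.H74.DD
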